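import Mathlib

set_option autoImplicit false

open Filter Topology

namespace Pool.Agent.H597R3.Comp

/-- period -/
def pp (m : ℕ) : ℕ := m * 2 ^ m + 1

lemma pp_pos (m : ℕ) : 0 < pp m := Nat.succ_pos _

lemma pp_strictMono : StrictMono pp := by
  apply strictMono_nat_of_lt_succ
  intro n
  unfold pp
  have h : 2 ^ (n + 1) = 2 * 2 ^ n := by ring
  have h2 : 0 < 2 ^ n := by positivity
  rw [h]
  nlinarith

lemma le_pp (m : ℕ) : m ≤ pp m := pp_strictMono.le_apply

/-- residue of an integer modulo the period, as a natural number -/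
def res (m : ℕ) (i : ℤ) : ℕ := (i % (pp m : ℤ)).toNat

lemma res_lt (m : ℕ) (i : ℤ) : res m i < pp m := by
  unfold res
  have h1 : (0 : ℤ) < pp m := by exact_mod_cast pp_pos m
  have h2 := Int.emod_lt_of_pos i h1
  have h3 := Int.emod_nonneg i h1.ne'
  omega

lemma res_cast (m : ℕ) (i : ℤ) : ((res m i : ℕ) : ℤ) = i % (pp m : ℤ) := by
  unfold res
  have h1 : (0 : ℤ) < pp m := by exact_mod_cast pp_pos m
  exact Int.toNat_of_nonneg (Int.emod_nonneg i h1.ne')

lemma res_natCast (m : ℕ) (i : ℕ) (h : i < pp m) : res m (i : ℤ) = i := by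
  have := res_cast m (i : ℤ)
  rw [Int.emod_eq_of_lt (by positivity) (by exact_mod_cast h)] at this
  exact_mod_cast this

lemma res_eq_iff (m : ℕ) (i j : ℤ) : res m i = res m j ↔ (pp m : ℤ) ∣ i - j := by
  have h1 := res_cast m i
  have h2 := res_cast m j
  constructor
  · intro h
    apply Int.dvd_of_emod_eq_zero
    rw [← Int.emod_eq_emod_iff_emod_sub_eq_zero, ← h1, ← h2, h]
  · intro h
    have h3 : i % (pp m : ℤ) = j % (pp m : ℤ) :=
      (Int.emod_eq_emod_iff_emod_sub_eq_zero).2 (Int.emod_eq_zero_of_dvd h)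
    have h4 : ((res m i : ℕ) : ℤ) = res m j := by rw [h1, h2, h3]
    exact_mod_cast h4

/-- symbol in the period -/
def sym (m r : ℕ) : ℕ :=
  if r = m * 2 ^ m then 2 else if Nat.testBit (r / m) (r % m) then 1 else 0

/-- the periodic point -/
def per (m : ℕ) (i : ℤ) : ℕ := sym m (res m i)

lemma sym_lt (m r : ℕ) : sym m r < 3 := by
  unfold sym
  split_ifs <;> norm_num

lemma sym_eq_two (m r : ℕ) : sym m r = 2 ↔ r = m * 2 ^ m := by
  unfold sym
  split_ifs with h1 h2
  · simp [h1]
  · simp [h1]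
  · simp [h1]

lemma per_lt (m : ℕ) (i : ℤ) : per m i < 3 := sym_lt _ _

lemma per_eq_two (m : ℕ) (i : ℤ) : per m i = 2 ↔ res m i = m * 2 ^ m := sym_eq_two _ _

lemma per_congr {m : ℕ} {i j : ℤ} (h : (pp m : ℤ) ∣ i - j) : per m i = per m j := by
  unfold per
  rw [(res_eq_iff m i j).2 h]

lemma per_two_iff {m : ℕ} {i : ℤ} (hi : per m i = 2) (j : ℤ) :
    per m j = 2 ↔ (pp m : ℤ) ∣ i - j := by
  constructor
  · intro hj
    rw [per_eq_two] at hi hj
    rw [← res_eq_iff, hi, hj]
  · intro h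
    rw [← per_congr h, hi]

/-- the orbit of the periodic point -/
def orb (m : ℕ) : Set (ℤ → ℕ) := {x | ∃ c : ℤ, ∀ i, x i = per m (i + c)}

/-- shifted periodic point -/
def sp (m : ℕ) (c : ℕ) : ℤ → ℕ := fun i => per m (i + c)

lemma orb_eq (m : ℕ) : orb m = sp m '' (Finset.range (pp m) : Set ℕ) := by
  ext x
  constructor
  · rintro ⟨c, hc⟩
    refine ⟨res m c, by simpa using res_lt m c, ?_⟩
    funext i
    rw [hc i]
    unfold sp
    apply per_congr
    rw [res_cast]
    have : i + c % (pp m : ℤ) - (i + c) = -(c - c % (pp m : ℤ)) := by ring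
    rw [this, dvd_neg]
    exact Int.dvd_self_sub_emod
  · rintro ⟨c, _, rfl⟩
    exact ⟨c, fun i => rfl⟩

lemma orb_finite (m : ℕ) : (orb m).Finite := by
  rw [orb_eq]
  exact (Finset.finite_toSet _).image _

/-- the subshift X -/
def XX : Set (ℤ → ℕ) :=
  {x | (∀ i, x i < 3) ∧ ((∀ i j, x i = 2 → x j = 2 → i = j) ∨ ∃ m, x ∈ orb m)}

lemma orb_sub_XX (m : ℕ) : orb m ⊆ XX := by
  rintro x ⟨c, hc⟩
  refine ⟨fun i => ?_, Or.inr ⟨m, c, hc⟩⟩
  rw [hc i]
  exact per_lt _ _

lemma isClopen_coord (i : ℤ) (s : Set ℕ) : IsClopen {x : ℤ → ℕ | x i ∈ s} := by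
  have h : Continuous (fun x : ℤ → ℕ => x i) := continuous_apply i
  exact (isClopen_discrete s).preimage h

lemma XX_closed : IsClosed XX := by
  apply isClosed_of_closure_subset
  intro x hx
  have hlt : ∀ i, x i < 3 := by
    intro i
    have h1 : XX ⊆ {x : ℤ → ℕ | x i ∈ Set.Iio 3} := fun y hy => hy.1 i
    have h2 := closure_minimal h1 (isClopen_coord i (Set.Iio 3)).isClosed
    exact h2 hx
  refine ⟨hlt, ?_⟩
  by_contra hcon
  push Not at hcon
  obtain ⟨⟨i, j, hi, hj, hij⟩, hno⟩ := hcon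
  set U : Set (ℤ → ℕ) := {y | y i ∈ ({2} : Set ℕ)} ∩ {y | y j ∈ ({2} : Set ℕ)} with hU
  have hUo : IsOpen U := (isClopen_coord i _).isOpen.inter (isClopen_coord j _).isOpen
  have hxU : x ∈ U := ⟨by simpa using hi, by simpa using hj⟩
  have hx2 : x ∈ closure (U ∩ XX) := hUo.inter_closure ⟨hxU, hx⟩
  set F : Set (ℤ → ℕ) := ⋃ m ∈ Finset.range ((i - j).natAbs + 1), orb m with hF
  have hFf : F.Finite := by
    rw [hF]
    exact Set.Finite.biUnion (Finset.finite_toSet _) (fun m _ => orb_finite m)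
  have hsub : U ∩ XX ⊆ F := by
    rintro y ⟨⟨hyi, hyj⟩, hy⟩
    simp only [Set.mem_singleton_iff, Set.mem_ofPred_eq] at hyi hyj
    rcases hy.2 with h | ⟨m, c, hc⟩
    · exact absurd (h i j hyi hyj) hij
    · have h1 : per m (i + c) = 2 := by rw [← hc i]; exact hyi
      have h2 : per m (j + c) = 2 := by rw [← hc j]; exact hyj
      have h3 := (per_two_iff h1 _).1 h2
      have h4 : i + c - (j + c) = i - j := by ring
      rw [h4] at h3
      have h5 : pp m ≤ (i - j).natAbs := by
        have h6 : (pp m) ∣ (i - j).natAbs := by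
          have := Int.natAbs_dvd_natAbs.2 h3
          simpa using this
        exact Nat.le_of_dvd (Int.natAbs_pos.2 (sub_ne_zero.2 hij)) h6
      rw [hF]
      simp only [Set.mem_iUnion]
      refine ⟨m, ?_, c, hc⟩
      have := le_pp m
      simp only [Finset.mem_range]
      omega
  have hx3 : x ∈ F := closure_minimal hsub hFf.isClosed hx2
  rw [hF] at hx3
  simp only [Set.mem_iUnion] at hx3
  obtain ⟨m, _, hm⟩ := hx3
  exact hno m hm

lemma XX_compact : IsCompact XX := by
  have h : IsCompact (Set.pi Set.univ (fun _ : ℤ => (Set.Iio 3 : Set ℕ))) :=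
    isCompact_univ_pi (fun _ => (Set.finite_Iio 3).isCompact)
  refine h.of_isClosed_subset XX_closed ?_
  intro x hx i _
  exact hx.1 i

lemma XX_shift (x : ℤ → ℕ) (c : ℤ) : x ∈ XX ↔ (fun m : ℤ => x (m + c)) ∈ XX := by
  constructor
  · rintro ⟨h1, h2⟩
    refine ⟨fun i => h1 _, ?_⟩
    rcases h2 with h2 | ⟨m, d, hd⟩
    · left
      intro i j hi hj
      have := h2 _ _ hi hj
      linarith
    · right
      refine ⟨m, c + d, fun i => ?_⟩
      simp only [hd]
      congr 1
      ring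
  · rintro ⟨h1, h2⟩
    refine ⟨fun i => ?_, ?_⟩
    · have := h1 (i - c)
      simpa using this
    rcases h2 with h2 | ⟨m, d, hd⟩
    · left
      intro i j hi hj
      have := h2 (i - c) (j - c) (by simpa using hi) (by simpa using hj)
      linarith
    · right
      refine ⟨m, d - c, fun i => ?_⟩
      have := hd (i - c)
      simp only [sub_add_cancel] at this
      rw [this]
      congr 1
      ring

/-- the factor map -/
def pr (x : ℤ → ℕ) : ℤ → ℕ := fun i => if x i = 2 then 2 else 0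

lemma pr_cont : Continuous pr := by
  apply continuous_pi
  intro i
  exact (continuous_of_discreteTopology (f := fun n : ℕ => if n = 2 then 2 else 0)).comp
    (continuous_apply i)

/-- the subshift Y -/
def YY : Set (ℤ → ℕ) := pr '' XX

lemma YY_closed : IsClosed YY := (XX_compact.image pr_cont).isClosed

lemma YY_shift (y : ℤ → ℕ) : y ∈ YY ↔ (fun m : ℤ => y (m + 1)) ∈ YY := by
  constructor
  · rintro ⟨x, hx, rfl⟩
    exact ⟨_, (XX_shift x 1).1 hx, rfl⟩
  · rintro ⟨x, hx, h⟩
    refine ⟨fun m => x (m + (-1)), (XX_shift x (-1)).1 hx, ?_⟩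
    funext i
    have := congrFun h (i - 1)
    simp only [pr, sub_add_cancel] at this ⊢
    rw [← this, sub_eq_add_neg]

lemma iter_shift (x : ℤ → ℕ) (j : ℕ) :
    (fun (z : ℤ → ℕ) (m : ℤ) => z (m + 1))^[j] x = fun m => x (m + j) := by
  induction j with
  | zero => simp
  | succ n ih =>
    rw [Function.iterate_succ', Function.comp, ih]
    funext m
    simp only
    congr 1
    push_cast
    ring

end Pool.Agent.H597R3.Comp
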