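import Pool.Agent.H597R3.Comp1

set_option autoImplicit false

open Filter Topology

namespace Pool.Agent.H597R3.Comp

/-- partition function -/
noncomputable def Zf (S : Set (ℤ → ℕ)) (n : ℕ) (g : (ℤ → ℕ) → ℝ) : ℝ :=
  ∑ w : Fin n → Fin 3,
    sSup ((fun x : ℤ → ℕ => Real.exp (g x)) ''
      {x : ℤ → ℕ | x ∈ S ∧ ∀ i : Fin n, x ((i : ℕ) : ℤ) = ((w i : ℕ))})

/-- the word of a point -/
def wd (n : ℕ) (x : ℤ → ℕ) : Fin n → Fin 3 := fun i => ⟨x ((i : ℕ) : ℤ) % 3, Nat.mod_lt _ (by norm_num)⟩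

lemma wd_spec {n : ℕ} {x : ℤ → ℕ} (hx : ∀ i, x i < 3) (i : Fin n) :
    x ((i : ℕ) : ℤ) = ((wd n x i : ℕ)) := by
  simp only [wd]
  rw [Nat.mod_eq_of_lt (hx _)]

lemma term_nonneg (S : Set (ℤ → ℕ)) (n : ℕ) (g : (ℤ → ℕ) → ℝ) (w : Fin n → Fin 3) :
    0 ≤ sSup ((fun x : ℤ → ℕ => Real.exp (g x)) ''
      {x : ℤ → ℕ | x ∈ S ∧ ∀ i : Fin n, x ((i : ℕ) : ℤ) = ((w i : ℕ))}) := by
  apply Real.sSup_nonneg
  rintro _ ⟨x, _, rfl⟩
  exact (Real.exp_pos _).le

lemma term_bdd (S : Set (ℤ → ℕ)) (n : ℕ) (g : (ℤ → ℕ) → ℝ) (w : Fin n → Fin 3) (B : ℝ)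
    (hB : ∀ x ∈ S, g x ≤ B) :
    BddAbove ((fun x : ℤ → ℕ => Real.exp (g x)) ''
      {x : ℤ → ℕ | x ∈ S ∧ ∀ i : Fin n, x ((i : ℕ) : ℤ) = ((w i : ℕ))}) := by
  refine ⟨Real.exp B, ?_⟩
  rintro _ ⟨x, hx, rfl⟩
  exact Real.exp_le_exp.2 (hB x hx.1)

lemma Z_lower {ι : Type*} [DecidableEq ι] (S : Set (ℤ → ℕ)) (hS : ∀ x ∈ S, ∀ i, x i < 3) (n : ℕ)
    (g : (ℤ → ℕ) → ℝ) (B : ℝ) (hB : ∀ x ∈ S, g x ≤ B) (s : Finset ι) (x : ι → (ℤ → ℕ))
    (hx : ∀ q ∈ s, x q ∈ S) (hinj : ∀ q ∈ s, ∀ q' ∈ s, wd n (x q) = wd n (x q') → q = q') :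
    ∑ q ∈ s, Real.exp (g (x q)) ≤ Zf S n g := by
  unfold Zf
  have h1 : ∑ q ∈ s, Real.exp (g (x q)) ≤ ∑ q ∈ s,
      sSup ((fun x : ℤ → ℕ => Real.exp (g x)) ''
      {y : ℤ → ℕ | y ∈ S ∧ ∀ i : Fin n, y ((i : ℕ) : ℤ) = ((wd n (x q) i : ℕ))}) := by
    apply Finset.sum_le_sum
    intro q hq
    apply le_csSup (term_bdd S n g _ B hB)
    exact ⟨x q, ⟨hx q hq, fun i => wd_spec (hS _ (hx q hq)) i⟩, rfl⟩
  refine h1.trans ?_
  rw [← Finset.sum_image (f := fun w : Fin n → Fin 3 => sSup ((fun x : ℤ → ℕ => Real.exp (g x)) ''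
      {y : ℤ → ℕ | y ∈ S ∧ ∀ i : Fin n, y ((i : ℕ) : ℤ) = ((w i : ℕ))}))
      (g := fun q => wd n (x q)) (fun q hq q' hq' h => hinj q hq q' hq' h)]
  apply Finset.sum_le_sum_of_subset_of_nonneg (Finset.subset_univ _)
  intro w _ _
  exact term_nonneg S n g w

/-- upper bound of the partition function by the number of words -/
lemma Z_upper (S : Set (ℤ → ℕ)) (n : ℕ) (g : (ℤ → ℕ) → ℝ) (B : ℝ) (hB : ∀ x ∈ S, g x ≤ B)
    (t : Finset (Fin n → Fin 3))
    (ht : ∀ x ∈ S, ∀ w : Fin n → Fin 3, (∀ i : Fin n, x ((i : ℕ) : ℤ) = ((w i : ℕ))) → w ∈ t) :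
    Zf S n g ≤ t.card * Real.exp B := by
  unfold Zf
  have h1 : ∀ w : Fin n → Fin 3, sSup ((fun x : ℤ → ℕ => Real.exp (g x)) ''
      {x : ℤ → ℕ | x ∈ S ∧ ∀ i : Fin n, x ((i : ℕ) : ℤ) = ((w i : ℕ))}) ≤
      if w ∈ t then Real.exp B else 0 := by
    intro w
    split_ifs with h
    · apply Real.sSup_le
      · rintro _ ⟨x, hx, rfl⟩
        exact Real.exp_le_exp.2 (hB x hx.1)
      · exact (Real.exp_pos _).le
    · have : {x : ℤ → ℕ | x ∈ S ∧ ∀ i : Fin n, x ((i : ℕ) : ℤ) = ((w i : ℕ))} = ∅ := by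
        rw [Set.eq_empty_iff_forall_notMem]
        rintro x ⟨hx1, hx2⟩
        exact h (ht x hx1 w hx2)
      rw [this]
      simp
  refine (Finset.sum_le_sum (fun w _ => h1 w)).trans ?_
  rw [Finset.sum_ite_mem, Finset.univ_inter, Finset.sum_const, nsmul_eq_mul]

/-- candidate words of Y -/
def cw (n : ℕ) (p : ℕ × ℕ) : Fin n → Fin 3 :=
  fun j => if p.1 ≤ (j : ℕ) ∧ ((j : ℕ) - p.1) % p.2 = 0 then 2 else 0

lemma YY_struct {y : ℤ → ℕ} (hy : y ∈ YY) :
    (∀ i, y i = 2 ∨ y i = 0) ∧ ∃ p : ℕ, ∀ i j : ℤ, y i = 2 → (y j = 2 ↔ (p : ℤ) ∣ i - j) := by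
  obtain ⟨x, hx, rfl⟩ := hy
  refine ⟨fun i => ?_, ?_⟩
  · unfold pr
    split_ifs <;> simp
  · have h0 : ∀ i, pr x i = 2 ↔ x i = 2 := by
      intro i
      unfold pr
      split_ifs with h <;> simp [h]
    simp only [h0]
    rcases hx.2 with h | ⟨m, c, hc⟩
    · refine ⟨0, fun i j hi => ?_⟩
      constructor
      · intro hj
        rw [h i j hi hj]
        simp
      · intro hd
        simp only [Nat.cast_zero, zero_dvd_iff] at hd
        have : i = j := by linarith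
        rwa [← this]
    · refine ⟨pp m, fun i j hi => ?_⟩
      rw [hc i] at hi
      rw [hc j, per_two_iff hi]
      have : i + c - (j + c) = i - j := by ring
      rw [this]

lemma YY_word {y : ℤ → ℕ} (hy : y ∈ YY) (n : ℕ) (w : Fin n → Fin 3)
    (hw : ∀ i : Fin n, y ((i : ℕ) : ℤ) = ((w i : ℕ))) :
    w ∈ (Finset.range (n + 1) ×ˢ Finset.range (n + 1)).image (cw n) := by
  obtain ⟨h1, p, hp⟩ := YY_struct hy
  have key : ∃ a b : ℕ, a ≤ n ∧ b ≤ n ∧ ∀ j : ℕ, j < n →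
      (y (j : ℤ) = 2 ↔ (a ≤ j ∧ (j - a) % b = 0)) := by
    by_cases hex : ∃ i : ℕ, i < n ∧ y (i : ℤ) = 2
    · classical
      set a := Nat.find hex with ha
      have ha1 : a < n := (Nat.find_spec hex).1
      have ha2 : y (a : ℤ) = 2 := (Nat.find_spec hex).2
      refine ⟨a, if p ≤ n then p else 0, ha1.le, ?_, ?_⟩
      · split_ifs with h
        · exact h
        · exact Nat.zero_le _
      · intro j hj
        by_cases haj : a ≤ j
        · rw [hp _ _ ha2]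
          have h3 : (p : ℤ) ∣ (a : ℤ) - j ↔ p ∣ (j - a) := by
            rw [← dvd_neg, neg_sub]
            have : ((j : ℤ) - a) = ((j - a : ℕ) : ℤ) := by
              rw [Nat.cast_sub haj]
            rw [this, Int.natCast_dvd_natCast]
          rw [h3]
          simp only [haj, true_and]
          split_ifs with h
          · exact Nat.dvd_iff_mod_eq_zero
          · rw [Nat.mod_zero]
            constructor
            · intro hd
              by_contra hne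
              have := Nat.le_of_dvd (Nat.pos_of_ne_zero hne) hd
              omega
            · intro h0
              rw [h0]
              exact dvd_zero _
        · have h4 : ¬ (y (j : ℤ) = 2) := by
            intro h5
            exact haj (Nat.find_min' hex ⟨hj, h5⟩)
          simp [h4, haj]
    · push Not at hex
      refine ⟨n, 0, le_refl _, Nat.zero_le _, fun j hj => ?_⟩
      have := hex j hj
      constructor
      · intro h
        exact absurd h this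
      · rintro ⟨h, _⟩
        omega
  obtain ⟨a, b, ha, hb, hab⟩ := key
  rw [Finset.mem_image]
  refine ⟨(a, b), ?_, ?_⟩
  · simp only [Finset.mem_product, Finset.mem_range]
    omega
  · funext j
    unfold cw
    have h2 := hw j
    have h3 := hab j j.2
    apply Fin.ext
    simp only
    split_ifs with h
    · have := h3.2 h
      rw [h2] at this
      rw [this]
      rfl
    · have h4 : ¬ (y ((j : ℕ) : ℤ) = 2) := fun h5 => h (h3.1 h5)
      have h5 := (h1 ((j : ℕ) : ℤ)).resolve_left h4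
      rw [h2] at h5
      rw [h5]
      rfl

lemma ZY_upper (n : ℕ) (g : (ℤ → ℕ) → ℝ) (hg : ∀ x ∈ YY, g x ≤ 0) :
    Zf YY n g ≤ ((n + 1) * (n + 1) : ℕ) := by
  refine (Z_upper YY n g 0 hg _ (fun x hx w hw => YY_word hx n w hw)).trans ?_
  rw [Real.exp_zero, mul_one]
  have h := Finset.card_image_le (s := Finset.range (n + 1) ×ˢ Finset.range (n + 1)) (f := cw n)
  rw [Finset.card_product, Finset.card_range] at h
  exact_mod_cast h

end Pool.Agent.H597R3.Comp
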