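import Pool.Agent.H597R3.Comp2

set_option autoImplicit false

open Filter Topology

namespace Pool.Agent.H597R3.Comp

lemma indicator_cont {G : Set (ℤ → ℕ)} (hG : IsClopen G) :
    Continuous (G.indicator (fun _ => (1 : ℝ))) := by
  rw [continuous_iff_continuousAt]
  intro x
  by_cases hx : x ∈ G
  · have h1 : G.indicator (fun _ => (1 : ℝ)) =ᶠ[𝓝 x] fun _ => 1 := by
      filter_upwards [hG.isOpen.mem_nhds hx] with y hy
      simp [hy]
    exact (continuousAt_const).congr h1.symm
  · have h1 : G.indicator (fun _ => (1 : ℝ)) =ᶠ[𝓝 x] fun _ => 0 := by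
      filter_upwards [hG.compl.isOpen.mem_nhds hx] with y hy
      exact Set.indicator_of_notMem hy _
    exact (continuousAt_const).congr h1.symm

/-- clopen neighbourhood of the m-th periodic orbit of Y -/
def GG (m : ℕ) : Set (ℤ → ℕ) :=
  {y | ∃ c ∈ Finset.range (pp m), ∀ i ∈ Finset.Icc (-(pp m : ℤ)) (pp m), y i = pr (sp m c) i}

lemma GG_clopen (m : ℕ) : IsClopen (GG m) := by
  have h : GG m = ⋃ c ∈ Finset.range (pp m), ⋂ i ∈ Finset.Icc (-(pp m : ℤ)) (pp m),
      {y : ℤ → ℕ | y i ∈ ({pr (sp m c) i} : Set ℕ)} := by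
    ext y
    simp [GG]
  rw [h]
  apply Set.Finite.isClopen_biUnion (Finset.finite_toSet _)
  intro c _
  apply Set.Finite.isClopen_biInter (Finset.finite_toSet _)
  intro i _
  exact isClopen_coord i _

lemma pr_eq_two {x : ℤ → ℕ} {i : ℤ} : pr x i = 2 ↔ x i = 2 := by
  unfold pr
  split_ifs with h <;> simp [h]

lemma mem_GG {m : ℕ} {x : ℤ → ℕ} (hx : x ∈ XX) : pr x ∈ GG m ↔ x ∈ orb m := by
  constructor
  · rintro ⟨c, _, hc⟩
    have hp := pp_pos m
    -- a position of the symbol 2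
    set k : ℤ := ((m * 2 ^ m : ℕ) : ℤ) - c with hk
    set i1 : ℤ := (k % (pp m : ℤ)) - pp m with hi1
    have hpos : (0 : ℤ) < pp m := by exact_mod_cast hp
    have hk0 := Int.emod_nonneg k hpos.ne'
    have hk1 := Int.emod_lt_of_pos k hpos
    have hcase : ∀ j : ℤ, j ∈ Finset.Icc (-(pp m : ℤ)) (pp m) →
        (x j = 2 ↔ (pp m : ℤ) ∣ k - j) := by
      intro j hj
      rw [← pr_eq_two, hc j hj, pr_eq_two]
      have h0 : per m ((m * 2 ^ m : ℕ) : ℤ) = 2 := by
        rw [per_eq_two, res_natCast]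
        unfold pp
        omega
      show per m (j + c) = 2 ↔ _
      rw [per_two_iff h0]
      have : ((m * 2 ^ m : ℕ) : ℤ) - (j + c) = k - j := by rw [hk]; ring
      rw [this]
    have hd1 : (pp m : ℤ) ∣ k - i1 := by
      have : k - i1 = (k - k % (pp m : ℤ)) + pp m := by rw [hi1]; ring
      rw [this]
      exact dvd_add (Int.dvd_self_sub_emod) (dvd_refl _)
    have hm1 : i1 ∈ Finset.Icc (-(pp m : ℤ)) (pp m) := by
      rw [Finset.mem_Icc]
      constructor <;> linarith
    have hx1 : x i1 = 2 := (hcase i1 hm1).2 hd1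
    have hd2 : (pp m : ℤ) ∣ k - (i1 + pp m) := by
      have : k - (i1 + pp m) = (k - i1) - pp m := by ring
      rw [this]
      exact dvd_sub hd1 (dvd_refl _)
    have hm2 : i1 + pp m ∈ Finset.Icc (-(pp m : ℤ)) (pp m) := by
      rw [Finset.mem_Icc]
      constructor <;> linarith
    have hx2 : x (i1 + pp m) = 2 := (hcase _ hm2).2 hd2
    rcases hx.2 with h | ⟨m', c', hc'⟩
    · have := h _ _ hx1 hx2
      linarith
    · have hp' : (0 : ℤ) < pp m' := by exact_mod_cast pp_pos m'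
      have e1 : per m' (i1 + c') = 2 := by rw [← hc' i1]; exact hx1
      have e2 : per m' (i1 + pp m + c') = 2 := by rw [← hc' (i1 + pp m)]; exact hx2
      have e3 := (per_two_iff e1 _).1 e2
      have e4 : i1 + c' - (i1 + pp m + c') = -(pp m : ℤ) := by ring
      rw [e4, dvd_neg] at e3
      have e5 : (pp m' : ℤ) ≤ pp m := Int.le_of_dvd hpos e3
      have e6 : per m' (i1 + pp m' + c') = 2 := by
        rw [per_two_iff e1]
        have : i1 + c' - (i1 + pp m' + c') = -(pp m' : ℤ) := by ring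
        rw [this, dvd_neg]
      have e7 : x (i1 + pp m') = 2 := by rw [hc' (i1 + pp m')]; exact e6
      have hm3 : i1 + pp m' ∈ Finset.Icc (-(pp m : ℤ)) (pp m) := by
        rw [Finset.mem_Icc]
        constructor <;> linarith
      have e8 := (hcase _ hm3).1 e7
      have e9 : k - (i1 + pp m') = (k - i1) - pp m' := by ring
      rw [e9] at e8
      have e10 : (pp m : ℤ) ∣ pp m' := (dvd_sub_right hd1).1 e8
      have e11 : (pp m : ℤ) ≤ pp m' := Int.le_of_dvd hp' e10
      have e12 : pp m = pp m' := by exact_mod_cast le_antisymm e11 e5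
      have e13 : m = m' := pp_strictMono.injective e12
      subst e13
      exact ⟨c', hc'⟩
  · intro h
    rw [orb_eq] at h
    obtain ⟨c, hc, rfl⟩ := h
    exact ⟨c, by simpa using hc, fun i _ => rfl⟩

lemma unif {F : (ℤ → ℕ) → ℝ} (hF : ContinuousOn F XX) {ε : ℝ} (hε : 0 < ε) :
    ∃ r : ℕ, ∀ x ∈ XX, ∀ y ∈ XX, (∀ i : ℤ, |i| ≤ r → x i = y i) → |F x - F y| < ε := by
  by_contra hcon
  push Not at hcon
  choose x hx y hy hxy hd using hcon
  obtain ⟨a, ha, φ, hφ, hlim⟩ := XX_compact.tendsto_subseq hx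
  have hlim2 : Tendsto (y ∘ φ) atTop (𝓝 a) := by
    rw [tendsto_pi_nhds]
    intro i
    have h1 := (tendsto_pi_nhds.1 hlim) i
    apply h1.congr'
    filter_upwards [eventually_ge_atTop i.natAbs] with k hk
    apply hxy (φ k) i
    have h2 : k ≤ φ k := hφ.le_apply
    have h3 : i.natAbs ≤ φ k := hk.trans h2
    rw [Int.abs_eq_natAbs]
    exact_mod_cast h3
  have hc := hF a ha
  have t1 : Tendsto (fun k => F ((x ∘ φ) k)) atTop (𝓝 (F a)) :=
    hc.tendsto.comp (tendsto_nhdsWithin_iff.2 ⟨hlim, Eventually.of_forall (fun k => hx _)⟩)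
  have t2 : Tendsto (fun k => F ((y ∘ φ) k)) atTop (𝓝 (F a)) :=
    hc.tendsto.comp (tendsto_nhdsWithin_iff.2 ⟨hlim2, Eventually.of_forall (fun k => hy _)⟩)
  have t3 := (t1.sub t2).abs
  rw [sub_self, abs_zero] at t3
  have t4 := ge_of_tendsto' t3 (fun k => hd (φ k))
  linarith

lemma log_lim : Tendsto (fun n : ℕ => Real.log (((n + 1) * (n + 1) : ℕ) : ℝ) / (n : ℝ)) atTop
    (𝓝 0) := by
  have h := Real.tendsto_pow_log_div_mul_add_atTop 1 (-1) 1 one_ne_zero
  have h2 : Tendsto (fun n : ℕ => ((n : ℝ) + 1)) atTop atTop :=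
    tendsto_atTop_add_const_right _ _ tendsto_natCast_atTop_atTop
  have h3 := (h.comp h2).const_mul 2
  rw [mul_zero] at h3
  apply h3.congr
  intro n
  simp only [Function.comp]
  push_cast
  rw [Real.log_mul (by positivity) (by positivity)]
  ring

end Pool.Agent.H597R3.Comp
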