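import Pool.Agent.H597R3.Comp3

set_option autoImplicit false

open Filter Topology

namespace Pool.Agent.H597R3.Comp

/-- shift by n -/
def sh (x : ℤ → ℕ) (j : ℕ) : ℤ → ℕ := fun m => x (m + j)

/-- Birkhoff sum -/
noncomputable def BS (F : (ℤ → ℕ) → ℝ) (n : ℕ) (x : ℤ → ℕ) : ℝ := ∑ j ∈ Finset.range n, F (sh x j)

lemma sh_XX {x : ℤ → ℕ} (hx : x ∈ XX) (j : ℕ) : sh x j ∈ XX := (XX_shift x j).1 hx

lemma BS_le {F : (ℤ → ℕ) → ℝ} {B : ℝ} (hB : ∀ x ∈ XX, |F x| ≤ B) (n : ℕ) {x : ℤ → ℕ}
    (hx : x ∈ XX) : BS F n x ≤ n * B := by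
  unfold BS
  refine (Finset.sum_le_card_nsmul _ _ B ?_).trans ?_
  · intro j _
    exact (le_abs_self _).trans (hB _ (sh_XX hx j))
  · rw [Finset.card_range, nsmul_eq_mul]

lemma sh_add (x : ℤ → ℕ) (a b : ℕ) : sh (sh x a) b = sh x (a + b) := by
  funext m
  simp only [sh]
  congr 1
  push_cast
  ring

lemma BS_add (F : (ℤ → ℕ) → ℝ) (a b : ℕ) (x : ℤ → ℕ) :
    BS F (a + b) x = BS F a x + BS F b (sh x a) := by
  unfold BS
  rw [Finset.sum_range_add]
  congr 1
  apply Finset.sum_congr rfl
  intro j _
  rw [sh_add]

lemma sp_eq (m c : ℕ) : sp m c = sh (per m) c := rfl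

lemma sh_per (m : ℕ) : sh (per m) (pp m) = per m := by
  funext i
  simp only [sh]
  apply per_congr
  simp

lemma BS_period (F : (ℤ → ℕ) → ℝ) (m c : ℕ) :
    BS F (pp m) (sh (per m) c) = BS F (pp m) (per m) := by
  have h1 := BS_add F c (pp m) (per m)
  have h2 := BS_add F (pp m) c (per m)
  rw [sh_per] at h2
  rw [add_comm c (pp m), h2] at h1
  linarith

lemma BS_mul_period (F : (ℤ → ℕ) → ℝ) (m q c : ℕ) :
    BS F (q * pp m) (sh (per m) c) = q * BS F (pp m) (per m) := by
  induction q with
  | zero => simp [BS]
  | succ q ih =>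
    rw [Nat.succ_mul, BS_add, ih, sh_add, BS_period]
    push_cast
    ring

/-- if the pressures agree for the indicator functions, the averages over the periodic orbits
are nonnegative -/
lemma avg_nonneg {F : (ℤ → ℕ) → ℝ} {B : ℝ} (hB : ∀ x ∈ XX, |F x| ≤ B) (m : ℕ)
    (h0 : ∀ᶠ n : ℕ in atTop, Zf XX n (BS F n) ≤ Real.exp (1 / 2 * n))
    (L : ℝ)
    (hY : Tendsto (fun n : ℕ => Real.log (Zf YY n (fun y =>
      ∑ j ∈ Finset.range n, (GG m).indicator (fun _ => (1 : ℝ)) (sh y j))) / (n : ℝ)) atTop (𝓝 L))
    (hX : Tendsto (fun n : ℕ => Real.log (Zf XX n (fun x =>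
      ∑ j ∈ Finset.range n, ((GG m).indicator (fun _ => (1 : ℝ)) (pr (sh x j)) + F (sh x j))))
        / (n : ℝ)) atTop (𝓝 L)) :
    0 ≤ BS F (pp m) (per m) := by
  by_contra hneg
  push Not at hneg
  set S := BS F (pp m) (per m) with hS
  have hpp : (0 : ℝ) < pp m := by exact_mod_cast pp_pos m
  have hYlt : ∀ y ∈ YY, ∀ i, y i < 3 := by
    intro y hy i
    rcases (YY_struct hy).1 i with h | h <;> rw [h] <;> norm_num
  -- L ≥ 1
  have hL1 : 1 ≤ L := by
    apply ge_of_tendsto hY
    filter_upwards [eventually_gt_atTop 0] with n hn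
    have hn' : (0 : ℝ) < n := by exact_mod_cast hn
    rw [le_div_iff₀ hn', one_mul]
    rw [Real.le_log_iff_exp_le]
    · have h1 := Z_lower (ι := Unit) YY hYlt n (fun y =>
        ∑ j ∈ Finset.range n, (GG m).indicator (fun _ => (1 : ℝ)) (sh y j)) n
        (by
          intro y _
          refine (Finset.sum_le_card_nsmul _ _ 1 ?_).trans ?_
          · intro j _
            exact Set.indicator_le_self' (fun _ _ => zero_le_one) _
          · rw [Finset.card_range, nsmul_eq_mul, mul_one])
        Finset.univ (fun _ => pr (per m))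
        (fun q _ => ⟨per m, orb_sub_XX m ⟨0, fun i => by simp⟩, rfl⟩) (fun _ _ _ _ _ => rfl)
      refine le_trans (le_of_eq ?_) h1
      rw [Finset.univ_unique, Finset.sum_singleton]
      congr 1
      have h2 : ∀ j ∈ Finset.range n,
          (GG m).indicator (fun _ => (1 : ℝ)) (sh (pr (per m)) j) = 1 := by
        intro j _
        apply Set.indicator_of_mem
        have h3 : sh (pr (per m)) j = pr (sh (per m) j) := rfl
        rw [h3, mem_GG (sh_XX (orb_sub_XX m ⟨0, fun i => by simp⟩) j)]
        exact ⟨j, fun i => rfl⟩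
      rw [Finset.sum_congr rfl h2]
      simp
    · have h1 := Z_lower (ι := Unit) YY hYlt n (fun y =>
        ∑ j ∈ Finset.range n, (GG m).indicator (fun _ => (1 : ℝ)) (sh y j)) n
        (by
          intro y _
          refine (Finset.sum_le_card_nsmul _ _ 1 ?_).trans ?_
          · intro j _
            exact Set.indicator_le_self' (fun _ _ => zero_le_one) _
          · rw [Finset.card_range, nsmul_eq_mul, mul_one])
        Finset.univ (fun _ => pr (per m))
        (fun q _ => ⟨per m, orb_sub_XX m ⟨0, fun i => by simp⟩, rfl⟩) (fun _ _ _ _ _ => rfl)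
      refine lt_of_lt_of_le ?_ h1
      rw [Finset.univ_unique, Finset.sum_singleton]
      exact Real.exp_pos _
  -- upper bound along n = q * pp m
  set η : ℝ := max (1 + S / pp m) (1 / 2) with hη
  have hη1 : η < 1 := by
    rw [hη, max_lt_iff]
    constructor
    · have : S / pp m < 0 := div_neg_of_neg_of_pos hneg hpp
      linarith
    · norm_num
  have hup : ∀ n q : ℕ, n = q * pp m → Zf XX n (BS F n) ≤ Real.exp (1 / 2 * n) →
      Zf XX n (fun x =>
      ∑ j ∈ Finset.range n, ((GG m).indicator (fun _ => (1 : ℝ)) (pr (sh x j)) + F (sh x j))) ≤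
      (pp m + 1) * Real.exp (η * n) := by
    intro n q hn hZ
    classical
    set t : Finset (Fin n → Fin 3) := (Finset.range (pp m)).image (fun c => wd n (sp m c)) with ht
    have hterm : ∀ w : Fin n → Fin 3,
        sSup ((fun x : ℤ → ℕ => Real.exp (
          ∑ j ∈ Finset.range n, ((GG m).indicator (fun _ => (1 : ℝ)) (pr (sh x j)) + F (sh x j)))) ''
        {x : ℤ → ℕ | x ∈ XX ∧ ∀ i : Fin n, x ((i : ℕ) : ℤ) = ((w i : ℕ))}) ≤
        (if w ∈ t then Real.exp (η * n) else 0) +
        sSup ((fun x : ℤ → ℕ => Real.exp (BS F n x)) ''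
        {x : ℤ → ℕ | x ∈ XX ∧ ∀ i : Fin n, x ((i : ℕ) : ℤ) = ((w i : ℕ))}) := by
      intro w
      have hnn := term_nonneg XX n (BS F n) w
      have hnn2 : (0 : ℝ) ≤ if w ∈ t then Real.exp (η * n) else 0 := by
        split_ifs
        · exact (Real.exp_pos _).le
        · exact le_refl _
      apply Real.sSup_le _ (by linarith)
      rintro _ ⟨x, ⟨hx, hxw⟩, rfl⟩
      simp only
      by_cases ho : x ∈ orb m
      · have hwt : w ∈ t := by
          have ho' := ho
          rw [orb_eq] at ho'
          obtain ⟨c, hc, rfl⟩ := ho'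
          rw [ht, Finset.mem_image]
          refine ⟨c, by simpa using hc, ?_⟩
          funext i
          apply Fin.ext
          have h1 := hxw i
          have h2 := wd_spec (n := n) hx.1 i
          omega
        rw [if_pos hwt]
        have h2 : ∑ j ∈ Finset.range n,
            ((GG m).indicator (fun _ => (1 : ℝ)) (pr (sh x j)) + F (sh x j)) = n + q * S := by
          rw [Finset.sum_add_distrib]
          congr 1
          · have h3 : ∀ j ∈ Finset.range n,
                (GG m).indicator (fun _ => (1 : ℝ)) (pr (sh x j)) = 1 := by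
              intro j _
              apply Set.indicator_of_mem
              rw [mem_GG (sh_XX hx j)]
              obtain ⟨c, hc⟩ := ho
              exact ⟨j + c, fun i => by
                simp only [sh, hc]
                congr 1
                ring⟩
            rw [Finset.sum_congr rfl h3]
            simp
          · have ho' := ho
            rw [orb_eq] at ho'
            obtain ⟨c, hc, rfl⟩ := ho'
            have := BS_mul_period F m q c
            rw [← hn] at this
            exact this
        rw [h2]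
        have h4 : (n : ℝ) + q * S = (1 + S / pp m) * n := by
          have : (n : ℝ) = q * pp m := by exact_mod_cast hn
          rw [this]
          field_simp
        have h5 : Real.exp (n + q * S) ≤ Real.exp (η * n) := by
          apply Real.exp_le_exp.2
          rw [h4]
          exact mul_le_mul_of_nonneg_right (le_max_left _ _) (Nat.cast_nonneg _)
        linarith
      · have h3 : ∑ j ∈ Finset.range n,
            ((GG m).indicator (fun _ => (1 : ℝ)) (pr (sh x j)) + F (sh x j)) = BS F n x := by
          unfold BS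
          apply Finset.sum_congr rfl
          intro j _
          have : pr (sh x j) ∉ GG m := by
            rw [mem_GG (sh_XX hx j)]
            rintro ⟨c, hc⟩
            apply ho
            refine ⟨c - j, fun i => ?_⟩
            have := hc (i - j)
            simp only [sh, sub_add_cancel] at this
            rw [this]
            congr 1
            ring
          rw [Set.indicator_of_notMem this, zero_add]
        rw [h3]
        have h4 : Real.exp (BS F n x) ≤ sSup ((fun x : ℤ → ℕ => Real.exp (BS F n x)) ''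
            {x : ℤ → ℕ | x ∈ XX ∧ ∀ i : Fin n, x ((i : ℕ) : ℤ) = ((w i : ℕ))}) := by
          apply le_csSup (term_bdd XX n _ w (n * B) (fun x hx => BS_le hB n hx))
          exact ⟨x, ⟨hx, hxw⟩, rfl⟩
        linarith
    unfold Zf at hZ ⊢
    refine (Finset.sum_le_sum (fun w _ => hterm w)).trans ?_
    rw [Finset.sum_add_distrib]
    have h1 : ∑ w : Fin n → Fin 3, (if w ∈ t then Real.exp (η * n) else 0) ≤
        pp m * Real.exp (η * n) := by
      rw [Finset.sum_ite_mem, Finset.univ_inter, Finset.sum_const, nsmul_eq_mul]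
      apply mul_le_mul_of_nonneg_right _ (Real.exp_pos _).le
      have := Finset.card_image_le (s := Finset.range (pp m)) (f := fun c => wd n (sp m c))
      rw [Finset.card_range] at this
      exact_mod_cast this
    have h2 : Real.exp (1 / 2 * n) ≤ Real.exp (η * n) := by
      apply Real.exp_le_exp.2
      exact mul_le_mul_of_nonneg_right (le_max_right _ _) (Nat.cast_nonneg _)
    nlinarith
  -- pass to the subsequence
  have hsub : Tendsto (fun q : ℕ => q * pp m) atTop atTop :=
    tendsto_id.atTop_mul_const' (pp_pos m)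
  have hXs := hX.comp hsub
  have hη2 : Tendsto (fun q : ℕ => Real.log (pp m + 1) / ((q * pp m : ℕ) : ℝ) + η) atTop
      (𝓝 (0 + η)) := by
    apply Tendsto.add_const
    apply Tendsto.div_atTop tendsto_const_nhds
    exact tendsto_natCast_atTop_atTop.comp hsub
  have hle : L ≤ 0 + η := by
    apply le_of_tendsto_of_tendsto hXs hη2
    filter_upwards [hsub.eventually h0, eventually_gt_atTop 0] with q hq hq0
    simp only [Function.comp]
    have hpos : (0 : ℝ) < ((q * pp m : ℕ) : ℝ) := by
      have := Nat.mul_pos hq0 (pp_pos m)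
      exact_mod_cast this
    have h1 := hup (q * pp m) q rfl hq
    rcases le_or_gt (Zf XX (q * pp m) (fun x =>
      ∑ j ∈ Finset.range (q * pp m), ((GG m).indicator (fun _ => (1 : ℝ)) (pr (sh x j)) +
        F (sh x j)))) 0 with hz | hz
    · have : Zf XX (q * pp m) (fun x =>
          ∑ j ∈ Finset.range (q * pp m), ((GG m).indicator (fun _ => (1 : ℝ)) (pr (sh x j)) +
          F (sh x j))) = 0 := by
        apply le_antisymm hz
        unfold Zf
        exact Finset.sum_nonneg (fun w _ => term_nonneg _ _ _ _)
      rw [this, Real.log_zero, zero_div]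
      have h2 : 0 ≤ Real.log (pp m + 1) / ((q * pp m : ℕ) : ℝ) := by
        apply div_nonneg (Real.log_nonneg (by linarith)) hpos.le
      have h3 : (1 / 2 : ℝ) ≤ η := le_max_right _ _
      linarith
    · have h2 := Real.log_le_log hz h1
      rw [Real.log_mul (by positivity) (Real.exp_pos _).ne', Real.log_exp] at h2
      rw [div_add' _ _ _ hpos.ne']
      exact div_le_div_of_nonneg_right h2 hpos.le
  linarith

end Pool.Agent.H597R3.Comp
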