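import Pool.Agent.H597R3.Comp4

set_option autoImplicit false

open Filter Topology

namespace Pool.Agent.H597R3.Comp

/-- a point of the full 2-shift carrying the binary digits of q in the window [0,m) -/
def xq (m q : ℕ) : ℤ → ℕ := fun i =>
  if 0 ≤ i ∧ i < m then (if Nat.testBit q i.toNat then 1 else 0) else 0

lemma xq_XX (m q : ℕ) : xq m q ∈ XX := by
  have h : ∀ i, xq m q i < 2 := by
    intro i
    unfold xq
    split_ifs <;> norm_num
  refine ⟨fun i => (h i).trans (by norm_num), Or.inl ?_⟩
  intro i j hi _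
  have := h i
  omega

lemma per_block (m q s : ℕ) (hq : q < 2 ^ m) (hs : s < m) :
    per m (((q * m + s : ℕ) : ℤ)) = if Nat.testBit q s then 1 else 0 := by
  have h1 : q * m + s < m * 2 ^ m := by
    calc q * m + s < q * m + m := by omega
      _ = (q + 1) * m := by ring
      _ ≤ 2 ^ m * m := Nat.mul_le_mul_right _ hq
      _ = m * 2 ^ m := by ring
  unfold per
  rw [res_natCast _ _ (by unfold pp; omega)]
  unfold sym
  rw [if_neg (by omega)]
  have hm : 0 < m := by omega
  have h2 : (q * m + s) / m = q := by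
    rw [mul_comm, Nat.mul_add_div hm, Nat.div_eq_of_lt hs, add_zero]
  have h3 : (q * m + s) % m = s := by
    rw [mul_comm, Nat.mul_add_mod, Nat.mod_eq_of_lt hs]
  rw [h2, h3]

lemma agree (m q s r : ℕ) (hq : q < 2 ^ m) (h1 : r ≤ s) (h2 : s + r < m) (i : ℤ)
    (hi : |i| ≤ r) : sh (sh (per m) (q * m)) s i = sh (xq m q) s i := by
  rw [abs_le] at hi
  have h3 : 0 ≤ i + s := by
    have : (r : ℤ) ≤ s := by exact_mod_cast h1
    linarith [hi.1]
  have h4 : i + s < m := by
    have : (s : ℤ) + r < m := by exact_mod_cast h2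
    linarith [hi.2]
  obtain ⟨k, hk⟩ := Int.eq_ofNat_of_zero_le h3
  simp only [sh]
  rw [hk]
  have hkm : k < m := by
    rw [hk] at h4
    exact_mod_cast h4
  have h5 : ((k : ℕ) : ℤ) + ((q * m : ℕ) : ℤ) = ((q * m + k : ℕ) : ℤ) := by
    push_cast
    ring
  have h6 : xq m q ((k : ℕ) : ℤ) = if Nat.testBit q k then 1 else 0 := by
    unfold xq
    rw [if_pos (⟨by positivity, by exact_mod_cast hkm⟩ : (0 : ℤ) ≤ (k : ℤ) ∧ (k : ℤ) < m)]
    simp
  rw [h6, h5, per_block m q k hq hkm]

lemma sum_good (m r : ℕ) (ε B : ℝ) (hB : 0 ≤ B) (hε : 0 ≤ ε) :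
    ∑ s ∈ Finset.range m, (if r ≤ s ∧ s + r < m then ε else B) ≤ m * ε + 2 * r * B := by
  have h1 : ∀ s ∈ Finset.range m, (if r ≤ s ∧ s + r < m then ε else B) ≤
      ε + (if s ∈ Finset.range r then B else 0) + (if s ∈ Finset.Ico (m - r) m then B else 0) := by
    intro s hs
    rw [Finset.mem_range] at hs
    simp only [Finset.mem_range, Finset.mem_Ico]
    split_ifs with a b c d e f g <;> first | linarith | (exfalso; omega)
  refine (Finset.sum_le_sum h1).trans ?_
  rw [Finset.sum_add_distrib, Finset.sum_add_distrib, Finset.sum_const, Finset.card_range,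
    nsmul_eq_mul, Finset.sum_ite_mem, Finset.sum_ite_mem, Finset.sum_const, Finset.sum_const,
    nsmul_eq_mul, nsmul_eq_mul]
  have c1 : ((Finset.range m ∩ Finset.range r).card : ℝ) ≤ r := by
    have := Finset.card_le_card (Finset.inter_subset_right (s₁ := Finset.range m) (s₂ := Finset.range r))
    rw [Finset.card_range] at this
    exact_mod_cast this
  have c2 : ((Finset.range m ∩ Finset.Ico (m - r) m).card : ℝ) ≤ r := by
    have := Finset.card_le_card
      (Finset.inter_subset_right (s₁ := Finset.range m) (s₂ := Finset.Ico (m - r) m))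
    rw [Nat.card_Ico] at this
    have h2 : (Finset.range m ∩ Finset.Ico (m - r) m).card ≤ r := by omega
    exact_mod_cast h2
  nlinarith

lemma sum_blocks (g : ℕ → ℝ) (m Q : ℕ) :
    ∑ j ∈ Finset.range (Q * m), g j =
      ∑ q ∈ Finset.range Q, ∑ s ∈ Finset.range m, g (q * m + s) := by
  induction Q with
  | zero => simp
  | succ Q ih =>
    rw [Nat.succ_mul, Finset.sum_range_add, ih, Finset.sum_range_succ]

lemma main_contra {F : (ℤ → ℕ) → ℝ} (hF : ContinuousOn F XX)
    (hZ : ∀ δ : ℝ, 0 < δ → ∀ᶠ n : ℕ in atTop, Zf XX n (BS F n) ≤ Real.exp (δ * n))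
    (havg : ∀ m : ℕ, 0 ≤ BS F (pp m) (per m)) : False := by
  obtain ⟨B, hB⟩ := XX_compact.exists_bound_of_continuousOn hF
  have hB0 : 0 ≤ B := (norm_nonneg _).trans (hB _ (xq_XX 0 0))
  have hB' : ∀ x ∈ XX, |F x| ≤ B := hB
  obtain ⟨r, hr⟩ := unif hF (ε := 1 / 10) (by norm_num)
  have hlog : (0.69 : ℝ) < Real.log 2 := by
    have := Real.log_two_gt_d9
    linarith
  -- choose m large
  have hev : ∀ᶠ m : ℕ in atTop, (4 * r * B + B : ℝ) < 0.4 * m := by
    have : Tendsto (fun m : ℕ => (0.4 : ℝ) * m) atTop atTop :=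
      tendsto_natCast_atTop_atTop.const_mul_atTop (by norm_num)
    exact this.eventually_gt_atTop _
  obtain ⟨m, hm1, hm2, hm3⟩ := (hev.and ((hZ (1 / 10) (by norm_num)).and
    (eventually_gt_atTop 0))).exists
  -- lower bound of the partition function
  have hlow := Z_lower XX (fun x hx => hx.1) m (BS F m) (m * B) (fun x hx => BS_le hB' m hx)
    (Finset.range (2 ^ m)) (fun q => xq m q) (fun q _ => xq_XX m q) (by
      intro q hq q' hq' h
      rw [Finset.mem_range] at hq hq'
      apply Nat.eq_of_testBit_eq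
      intro i
      by_cases him : i < m
      · have h1 := congrFun h ⟨i, him⟩
        simp only [wd, xq, Fin.mk.injEq] at h1
        have h2 : (0 : ℤ) ≤ (i : ℤ) ∧ (i : ℤ) < m := ⟨by positivity, by exact_mod_cast him⟩
        rw [if_pos h2, if_pos h2] at h1
        simp only [Int.toNat_natCast] at h1
        cases hb : Nat.testBit q i <;> cases hb' : Nat.testBit q' i <;> simp [hb, hb'] at h1 ⊢
      · have h1 : Nat.testBit q i = false := Nat.testBit_lt_two_pow
          (lt_of_lt_of_le hq (Nat.pow_le_pow_right (by norm_num) (by omega)))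
        have h2 : Nat.testBit q' i = false := Nat.testBit_lt_two_pow
          (lt_of_lt_of_le hq' (Nat.pow_le_pow_right (by norm_num) (by omega)))
        rw [h1, h2])
  have hZm := hlow.trans hm2
  set T : ℝ := ∑ q ∈ Finset.range (2 ^ m), BS F m (xq m q) with hT
  set a : ℝ := T / 2 ^ m with ha
  have h2m : (0 : ℝ) < 2 ^ m := by positivity
  have hTa : T = 2 ^ m * a := by rw [ha]; field_simp
  -- Jensen
  have hJ : (2 : ℝ) ^ m * Real.exp a ≤ ∑ q ∈ Finset.range (2 ^ m), Real.exp (BS F m (xq m q)) := by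
    have h1 : ∀ q ∈ Finset.range (2 ^ m), Real.exp a * (1 + (BS F m (xq m q) - a)) ≤
        Real.exp (BS F m (xq m q)) := by
      intro q _
      have h2 := Real.add_one_le_exp (BS F m (xq m q) - a)
      have h3 : Real.exp (BS F m (xq m q)) = Real.exp a * Real.exp (BS F m (xq m q) - a) := by
        rw [← Real.exp_add]
        congr 1
        ring
      rw [h3]
      apply mul_le_mul_of_nonneg_left _ (Real.exp_pos _).le
      linarith
    refine le_trans (le_of_eq ?_) (Finset.sum_le_sum h1)
    rw [← Finset.mul_sum, Finset.sum_add_distrib, Finset.sum_sub_distrib, ← hT]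
    simp only [Finset.sum_const, Finset.card_range, nsmul_eq_mul]
    push_cast
    rw [hTa]
    ring
  have ha2 : a ≤ 1 / 10 * m - m * Real.log 2 := by
    have h1 : (2 : ℝ) ^ m * Real.exp a ≤ Real.exp (1 / 10 * m) := hJ.trans hZm
    have h2 : (2 : ℝ) ^ m = Real.exp (m * Real.log 2) := by
      rw [mul_comm, Real.exp_mul, Real.exp_log (by norm_num), Real.rpow_natCast]
    rw [h2, ← Real.exp_add, Real.exp_le_exp] at h1
    linarith
  -- compare with the periodic orbit
  have hper : BS F (pp m) (per m) ≤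
      ∑ q ∈ Finset.range (2 ^ m), (BS F m (xq m q) + (m * (1 / 10) + 2 * r * (2 * B))) + B := by
    have h1 : BS F (pp m) (per m) = ∑ q ∈ Finset.range (2 ^ m), BS F m (sh (per m) (q * m)) +
        F (sh (per m) (2 ^ m * m)) := by
      unfold BS
      have h2 : pp m = 2 ^ m * m + 1 := by unfold pp; ring
      rw [h2, Finset.sum_range_succ, sum_blocks]
      congr 1
      apply Finset.sum_congr rfl
      intro q _
      apply Finset.sum_congr rfl
      intro s _
      rw [sh_add]
    rw [h1]
    have hperX : per m ∈ XX := orb_sub_XX m ⟨0, fun i => by simp⟩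
    apply add_le_add
    · apply Finset.sum_le_sum
      intro q hq
      rw [Finset.mem_range] at hq
      have h3 : BS F m (sh (per m) (q * m)) - BS F m (xq m q) ≤
          ∑ s ∈ Finset.range m, (if r ≤ s ∧ s + r < m then (1 / 10 : ℝ) else 2 * B) := by
        unfold BS
        rw [← Finset.sum_sub_distrib]
        apply Finset.sum_le_sum
        intro s _
        split_ifs with h
        · have := hr _ (sh_XX (sh_XX hperX (q * m)) s) _ (sh_XX (xq_XX m q) s)
            (fun i hi => agree m q s r hq h.1 h.2 i hi)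
          exact (le_abs_self _).trans this.le
        · have e1 := (le_abs_self _).trans (hB' _ (sh_XX (sh_XX hperX (q * m)) s))
          have e2 := (neg_abs_le (F (sh (xq m q) s)))
          have e3 := hB' _ (sh_XX (xq_XX m q) s)
          linarith
      have h4 := sum_good m r (1 / 10) (2 * B) (by positivity) (by norm_num)
      linarith
    · exact (le_abs_self _).trans (hB' _ (sh_XX hperX _))
  have h5 := (havg m).trans hper
  rw [Finset.sum_add_distrib, ← hT, hTa] at h5
  simp only [Finset.sum_const, Finset.card_range, nsmul_eq_mul] at h5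
  push_cast at h5
  have hm3' : (1 : ℝ) ≤ m := by exact_mod_cast hm3
  have h6 : a + (m * (1 / 10) + 2 * r * (2 * B)) + B < 0 := by nlinarith
  have h7 : (1 : ℝ) ≤ 2 ^ m := one_le_pow₀ (by norm_num)
  nlinarith

end Pool.Agent.H597R3.Comp
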