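import Pool.Agent.H597R3.Sym

/-!
# Polynomials with a large leading coefficient compared with the size of the roots
-/

set_option autoImplicit false

open Set Filter Topology Polynomial

namespace Pool.Agent.H597R3.NearInf

open Pool.Agent.H597R3.Sym

theorem esc_of_image {T : ℂ[X]} {z : ℂ} (h : Esc T (T.eval z)) : Esc T z := by
  have e : ∀ k : ℕ, (mp T)^[k + 1] z = (mp T)^[k] (T.eval z) := fun k => by
    rw [Function.iterate_succ_apply]; rfl
  unfold Esc at *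
  rw [← tendsto_add_atTop_iff_nat 1]
  simpa only [e] using h

theorem prod_lower {w : ℂ} {δ : ℝ} (hδ : 0 ≤ δ) (s : Multiset ℂ) (h : ∀ r ∈ s, δ ≤ ‖w - r‖) :
    δ ^ Multiset.card s ≤ ‖(s.map fun r => w - r).prod‖ := by
  induction s using Multiset.induction_on with
  | empty => simp
  | cons a s ih =>
    rw [Multiset.map_cons, Multiset.prod_cons, Multiset.card_cons, norm_mul, pow_succ, mul_comm]
    exact mul_le_mul (h a (Multiset.mem_cons_self a s))
      (ih fun r hr => h r (Multiset.mem_cons_of_mem hr)) (by positivity) (norm_nonneg _)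

theorem roots_lower {T : ℂ[X]} {w : ℂ} {δ : ℝ} (hδ : 0 ≤ δ)
    (h : ∀ r ∈ T.roots, δ ≤ ‖w - r‖) : ‖T.leadingCoeff‖ * δ ^ T.natDegree ≤ ‖T.eval w‖ := by
  have hs : T.Splits := IsAlgClosed.splits T
  rw [hs.eval_eq_prod_roots, norm_mul]
  have h1 := prod_lower hδ T.roots h
  rw [← hs.natDegree_eq_card_roots] at h1
  exact mul_le_mul_of_nonneg_left h1 (norm_nonneg _)

/-- If the critical values of `T + t` stay away from the roots of `T` then all the critical points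
of `T + t` escape. -/
theorem escape_of_sep {T : ℂ[X]} (hd2 : 2 ≤ T.natDegree) {ρ τ δ : ℝ} (hρ0 : 0 ≤ ρ)
    (hρ : ∀ r ∈ T.roots, ‖r‖ ≤ ρ) (hδ0 : 0 < δ) (hδτ : δ ≤ τ)
    (h : 6 * (ρ + τ) ≤ ‖T.leadingCoeff‖ * δ ^ T.natDegree) {t : ℂ} (ht : ‖t‖ ≤ τ)
    (hsep : ∀ c : ℂ, (derivative T).eval c = 0 → ∀ r ∈ T.roots, δ ≤ ‖(T.eval c + t) - r‖) :
    ∀ c : ℂ, (derivative (T + C t)).eval c = 0 → Esc (T + C t) c := by
  set a := ‖T.leadingCoeff‖ with ha
  have ha0 : 0 ≤ a := norm_nonneg _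
  obtain ⟨k, hk⟩ : ∃ k, T.natDegree = k + 1 := ⟨T.natDegree - 1, by omega⟩
  set R : ℝ := 2 * (ρ + τ) with hR
  have hR0 : 0 < R := by rw [hR]; linarith
  have hk6 : 6 ≤ a * (ρ + τ) ^ k := by
    have h1 : δ ^ k ≤ (ρ + τ) ^ k := pow_le_pow_left₀ hδ0.le (by linarith) k
    have h2 : 6 * δ ≤ (a * δ ^ k) * δ := by
      calc 6 * δ ≤ 6 * (ρ + τ) := by linarith
        _ ≤ a * δ ^ T.natDegree := h
        _ = _ := by rw [hk, pow_succ]; ring
    have h3 : 6 ≤ a * δ ^ k := le_of_mul_le_mul_right h2 hδ0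
    exact h3.trans (mul_le_mul_of_nonneg_left h1 ha0)
  have hgrow : ∀ z : ℂ, R ≤ ‖z‖ → 2 * ‖z‖ ≤ ‖(T + C t).eval z‖ := by
    intro z hz
    rw [eval_add, eval_C]
    have hz2 : ρ + τ ≤ ‖z‖ / 2 := by rw [hR] at hz; linarith
    have h1 : a * (‖z‖ / 2) ^ T.natDegree ≤ ‖T.eval z‖ := by
      apply roots_lower (by positivity)
      intro r hr
      have h2 := norm_sub_norm_le z r
      have h3 := hρ r hr
      linarith
    have h4 : 6 ≤ a * (‖z‖ / 2) ^ k :=
      hk6.trans (mul_le_mul_of_nonneg_left (pow_le_pow_left₀ (by linarith) hz2 k) ha0)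
    have h5 : 3 * ‖z‖ ≤ a * (‖z‖ / 2) ^ T.natDegree := by
      calc 3 * ‖z‖ = 6 * (‖z‖ / 2) := by ring
        _ ≤ (a * (‖z‖ / 2) ^ k) * (‖z‖ / 2) := by
          apply mul_le_mul_of_nonneg_right h4 (by positivity)
        _ = _ := by rw [hk, pow_succ]; ring
    have h6 := norm_sub_le (T.eval z + t) t
    rw [add_sub_cancel_right] at h6
    linarith
  intro c hc
  rw [derivative_add, derivative_C, add_zero] at hc
  apply esc_of_image
  have hw : (T + C t).eval c = T.eval c + t := by rw [eval_add, eval_C]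
  by_cases hbig : R ≤ ‖(T + C t).eval c‖
  · exact esc_of_growth hR0 hgrow hbig
  · apply esc_of_image
    apply esc_of_growth hR0 hgrow
    have h1 : a * δ ^ T.natDegree ≤ ‖T.eval ((T + C t).eval c)‖ := by
      apply roots_lower hδ0.le
      intro r hr
      rw [hw]
      exact hsep c hc r hr
    have h2 : (T + C t).eval ((T + C t).eval c) = T.eval ((T + C t).eval c) + t := by
      rw [eval_add, eval_C]
    rw [h2]
    have h3 := norm_sub_le (T.eval ((T + C t).eval c) + t) t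
    rw [add_sub_cancel_right] at h3
    rw [hR]
    linarith

/-- The exceptional translations are covered by few small discs. -/
theorem cover {T : ℂ[X]} (hd2 : 2 ≤ T.natDegree) {ρ : ℝ} (hρ : ∀ r : ℂ, T.eval r = 0 → ‖r‖ ≤ ρ)
    {τ δ : ℝ} (hδ0 : 0 < δ) (hδτ : δ ≤ τ)
    (h : 6 * (ρ + τ) ≤ ‖T.leadingCoeff‖ * δ ^ T.natDegree) :
    ∃ F : Finset ℂ, F.card ≤ (T.natDegree - 1) * T.natDegree ∧ ∀ t : ℂ, ‖t‖ ≤ τ →
      (∀ p ∈ F, δ ≤ ‖t - p‖) →
      ∀ c : ℂ, (derivative (T + C t)).eval c = 0 → Esc (T + C t) c := by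
  classical
  have hT0 : T ≠ 0 := by rintro rfl; simp at hd2
  have hT' : derivative T ≠ 0 := by
    intro h
    have := Polynomial.derivative_eq_zero.1 h
    omega
  have hρ' : ∀ r ∈ T.roots, ‖r‖ ≤ ρ := fun r hr => hρ r ((mem_roots hT0).1 hr)
  have hρ0 : 0 ≤ ρ := by
    obtain ⟨r, hr⟩ := IsAlgClosed.exists_root T
      (by rw [degree_eq_natDegree hT0]; exact_mod_cast (by omega : T.natDegree ≠ 0))
    exact (norm_nonneg r).trans (hρ r hr)
  refine ⟨((derivative T).roots.toFinset ×ˢ T.roots.toFinset).image fun p => p.2 - T.eval p.1,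
    ?_, ?_⟩
  · refine Finset.card_image_le.trans ?_
    rw [Finset.card_product]
    apply Nat.mul_le_mul
    · refine (Multiset.toFinset_card_le _).trans ((card_roots' _).trans ?_)
      rw [natDegree_derivative]
    · exact (Multiset.toFinset_card_le _).trans (card_roots' _)
  · intro t ht hsep
    apply escape_of_sep hd2 hρ0 hρ' hδ0 hδτ h ht
    intro c hc r hr
    have h1 := hsep (r - T.eval c) (Finset.mem_image.2 ⟨(c, r), Finset.mem_product.2
      ⟨Multiset.mem_toFinset.2 ((mem_roots hT').2 hc), Multiset.mem_toFinset.2 hr⟩, rfl⟩)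
    have h2 : t - (r - T.eval c) = T.eval c + t - r := by ring
    rwa [h2] at h1

/-- Few small discs do not cover a larger disc. -/
theorem exists_outside {F : Finset ℂ} {N : ℕ} (hF : F.card ≤ N) {ε δ : ℝ} (hδ0 : 0 < δ)
    (hδ : δ * (2 * N + 1) ≤ ε) : ∃ t : ℂ, ‖t‖ < ε ∧ ∀ p ∈ F, δ ≤ ‖t - p‖ := by
  have hgood : ∃ j ∈ Finset.range (N + 1), ∀ p ∈ F, δ ≤ ‖((2 * δ * j : ℝ) : ℂ) - p‖ := by
    by_contra hno
    push Not at hno
    choose! g hg1 hg2 using hno
    obtain ⟨i, hi, j, hj, hij, hgij⟩ := Finset.exists_ne_map_eq_of_card_lt_of_maps_to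
      (s := Finset.range (N + 1)) (t := F) (by rw [Finset.card_range]; omega) hg1
    have a1 := hg2 i hi
    have a2 := hg2 j hj
    rw [hgij] at a1
    have a3 : ‖((2 * δ * i - 2 * δ * j : ℝ) : ℂ)‖ < 2 * δ := by
      have e : ((2 * δ * i - 2 * δ * j : ℝ) : ℂ) =
          (((2 * δ * i : ℝ) : ℂ) - g j) - (((2 * δ * j : ℝ) : ℂ) - g j) := by
        push_cast; ring
      rw [e]
      exact (norm_sub_le _ _).trans_lt (by linarith)
    rw [Complex.norm_real, Real.norm_eq_abs, ← mul_sub, abs_mul,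
      abs_of_pos (by positivity : 0 < 2 * δ)] at a3
    have a4 : (1 : ℝ) ≤ |(i : ℝ) - j| := by
      have : (1 : ℤ) ≤ |(i : ℤ) - j| := by
        apply Int.one_le_abs
        intro h
        apply hij
        omega
      exact_mod_cast this
    nlinarith
  obtain ⟨j, hj, hgj⟩ := hgood
  refine ⟨((2 * δ * j : ℝ) : ℂ), ?_, hgj⟩
  rw [Complex.norm_real, Real.norm_eq_abs, abs_of_nonneg (by positivity)]
  have h1 : (j : ℝ) ≤ N := by
    have := Finset.mem_range.1 hj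
    exact_mod_cast Nat.lt_succ_iff.1 this
  have h2 : 2 * δ * j ≤ 2 * δ * N := by gcongr
  nlinarith

theorem near_escape {T : ℂ[X]} (hd2 : 2 ≤ T.natDegree) {ρ : ℝ}
    (hρ : ∀ r : ℂ, T.eval r = 0 → ‖r‖ ≤ ρ) {ε : ℝ} (hε : 0 < ε)
    (h : 6 * (2 * (T.natDegree : ℝ) ^ 2) ^ T.natDegree * (ρ + ε) ≤
      ‖T.leadingCoeff‖ * ε ^ T.natDegree) :
    ∃ t : ℂ, ‖t‖ < ε ∧ ∀ c : ℂ, (derivative (T + C t)).eval c = 0 → Esc (T + C t) c := by
  have hd : (2:ℝ) ≤ T.natDegree := by exact_mod_cast hd2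
  set L : ℝ := 2 * (T.natDegree : ℝ) ^ 2 with hL
  have hL1 : 1 ≤ L := by rw [hL]; nlinarith
  have hL0 : 0 < L := by linarith
  set δ : ℝ := ε / L with hδ
  have hδ0 : 0 < δ := by positivity
  have hδε : δ ≤ ε := div_le_self hε.le hL1
  have hcond : 6 * (ρ + ε) ≤ ‖T.leadingCoeff‖ * δ ^ T.natDegree := by
    rw [hδ, div_pow, ← mul_div_assoc, le_div_iff₀ (by positivity)]
    calc 6 * (ρ + ε) * L ^ T.natDegree = 6 * L ^ T.natDegree * (ρ + ε) := by ring
      _ ≤ _ := h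
  obtain ⟨F, hF, hF2⟩ := cover hd2 hρ hδ0 hδε hcond
  obtain ⟨t, ht1, ht2⟩ := exists_outside (F := F) (N := (T.natDegree - 1) * T.natDegree) hF
    (ε := ε) hδ0 (by
      have h1 : (((T.natDegree - 1) * T.natDegree : ℕ) : ℝ) =
          ((T.natDegree : ℝ) - 1) * T.natDegree := by
        rw [Nat.cast_mul, Nat.cast_sub (by omega)]; simp
      rw [h1, hδ, div_mul_eq_mul_div, div_le_iff₀ hL0]
      apply mul_le_mul_of_nonneg_left _ hε.le
      rw [hL]
      nlinarith)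
  exact ⟨t, ht1, hF2 t ht1.le ht2⟩

end Pool.Agent.H597R3.NearInf
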