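import Mathlib

set_option autoImplicit false

namespace Pool.Agent.H597R3.Pt

/-- Thue–Morse sequence -/
def tm (k : ℕ) : Bool := (Nat.digits 2 k).sum.bodd

lemma tm_even (k : ℕ) : tm (2 * k) = tm k := by
  unfold tm
  rcases Nat.eq_zero_or_pos k with rfl | hk
  · simp
  · rw [Nat.digits_def' (by norm_num) (by omega)]
    have h1 : 2 * k % 2 = 0 := by omega
    have h2 : 2 * k / 2 = k := by omega
    rw [h1, h2, List.sum_cons, zero_add]

lemma tm_odd (k : ℕ) : tm (2 * k + 1) = !tm k := by
  unfold tm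
  rw [Nat.digits_def' (by norm_num) (by omega)]
  have h1 : (2 * k + 1) % 2 = 1 := by omega
  have h2 : (2 * k + 1) / 2 = k := by omega
  rw [h1, h2, List.sum_cons, Nat.bodd_add]
  simp

lemma no3 (n : ℕ) (h1 : tm n = tm (n + 1)) (h2 : tm (n + 1) = tm (n + 2)) : False := by
  rcases Nat.even_or_odd' n with ⟨k, rfl | rfl⟩
  · rw [tm_even, tm_odd] at h1
    cases h : tm k <;> simp [h] at h1
  · have e1 : 2 * k + 1 + 1 = 2 * (k + 1) := by ring
    have e2 : 2 * k + 1 + 2 = 2 * (k + 1) + 1 := by ring
    rw [e1, e2, tm_even, tm_odd] at h2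
    cases h : tm (k + 1) <;> simp [h] at h2

/-- mismatch count -/
def cnt (p A L : ℕ) : ℕ := ((Finset.Ico A (A + L)).filter (fun k => tm k ≠ tm (k + p))).card

lemma card_double (P P' : ℕ → Prop) [DecidablePred P] [DecidablePred P']
    (h0 : ∀ k, P' (2 * k) ↔ P k) (h1 : ∀ k, P' (2 * k + 1) ↔ P k) (a n : ℕ) :
    ((Finset.Ico (2 * a) (2 * a + 2 * n)).filter P').card =
      2 * ((Finset.Ico a (a + n)).filter P).card := by
  induction n with
  | zero => simp
  | succ n ih =>
    have e1 : 2 * a + 2 * (n + 1) = 2 * (a + n) + 1 + 1 := by ring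
    have e2 : a + (n + 1) = (a + n) + 1 := by ring
    have e3 : 2 * a + 2 * n = 2 * (a + n) := by ring
    rw [e1, e2, Nat.Ico_succ_right_eq_insert_Ico (by omega),
      Nat.Ico_succ_right_eq_insert_Ico (by omega),
      Nat.Ico_succ_right_eq_insert_Ico (by omega), Finset.filter_insert, Finset.filter_insert,
      Finset.filter_insert]
    rw [e3] at ih
    by_cases hP : P (a + n)
    · rw [if_pos ((h1 _).2 hP), if_pos ((h0 _).2 hP), if_pos hP, Finset.card_insert_of_notMem,
        Finset.card_insert_of_notMem, Finset.card_insert_of_notMem, ih]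
      · ring
      · simp
      · simp
      · simp
    · rw [if_neg (fun h => hP ((h1 _).1 h)), if_neg (fun h => hP ((h0 _).1 h)), if_neg hP, ih]

lemma cnt_aligned (p : ℕ) (hp : 1 ≤ p) :
    ∃ e : ℕ, ∀ A : ℕ, 2 ^ e ≤ cnt p (A * (4 * 2 ^ e)) (4 * 2 ^ e) := by
  induction p using Nat.strong_induction_on with
  | _ p ih =>
    rcases Nat.even_or_odd' p with ⟨l, rfl | rfl⟩
    · obtain ⟨e, he⟩ := ih l (by omega) (by omega)
      refine ⟨e + 1, fun A => ?_⟩
      have h := he A
      unfold cnt at h ⊢
      have e1 : A * (4 * 2 ^ (e + 1)) = 2 * (A * (4 * 2 ^ e)) := by ring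
      have e2 : 4 * 2 ^ (e + 1) = 2 * (4 * 2 ^ e) := by ring
      rw [e1, e2, card_double (fun k => tm k ≠ tm (k + l))]
      · rw [pow_succ]
        omega
      · intro k
        have : 2 * k + 2 * l = 2 * (k + l) := by ring
        rw [this, tm_even, tm_even]
      · intro k
        have : 2 * k + 1 + 2 * l = 2 * (k + l) + 1 := by ring
        rw [this, tm_odd, tm_odd]
        simp
    · refine ⟨0, fun A => ?_⟩
      unfold cnt
      simp only [pow_zero, mul_one]
      rw [Nat.one_le_iff_ne_zero, ← Nat.pos_iff_ne_zero, Finset.card_pos]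
      by_contra hcon
      rw [Finset.not_nonempty_iff_eq_empty, Finset.filter_eq_empty_iff] at hcon
      have f : ∀ r, r < 4 → tm (A * 4 + r) = tm (A * 4 + r + (2 * l + 1)) := by
        intro r hr
        have := hcon (x := A * 4 + r) (by rw [Finset.mem_Ico]; omega)
        simpa using this
      have f0 := f 0 (by norm_num)
      have f1 := f 1 (by norm_num)
      have f2 := f 2 (by norm_num)
      have f3 := f 3 (by norm_num)
      have g0 : tm (2 * A) = !tm (2 * A + l) := by
        have a1 : A * 4 + 0 = 2 * (2 * A) := by ring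
        have a2 : A * 4 + 0 + (2 * l + 1) = 2 * (2 * A + l) + 1 := by ring
        rw [a2, a1, tm_even, tm_odd (2 * A + l)] at f0
        exact f0
      have g1 : (!tm (2 * A)) = tm (2 * A + l + 1) := by
        have a1 : A * 4 + 1 = 2 * (2 * A) + 1 := by ring
        have a2 : A * 4 + 1 + (2 * l + 1) = 2 * (2 * A + l + 1) := by ring
        rw [a2, a1, tm_even, tm_odd (2 * A)] at f1
        exact f1
      have g2 : tm (2 * A + 1) = !tm (2 * A + l + 1) := by
        have a1 : A * 4 + 2 = 2 * (2 * A + 1) := by ring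
        have a2 : A * 4 + 2 + (2 * l + 1) = 2 * (2 * A + l + 1) + 1 := by ring
        rw [a2, a1, tm_even, tm_odd (2 * A + l + 1)] at f2
        exact f2
      have g3 : (!tm (2 * A + 1)) = tm (2 * A + l + 2) := by
        have a1 : A * 4 + 3 = 2 * (2 * A + 1) + 1 := by ring
        have a2 : A * 4 + 3 + (2 * l + 1) = 2 * (2 * A + l + 2) := by ring
        rw [a2, a1, tm_even, tm_odd (2 * A + 1)] at f3
        exact f3
      apply no3 (2 * A + l)
      · rw [← g1, g0, Bool.not_not]
      · rw [← g3, g2, Bool.not_not]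

lemma cnt_add (p A L M : ℕ) : cnt p A (L + M) = cnt p A L + cnt p (A + L) M := by
  unfold cnt
  rw [← Finset.card_union_of_disjoint, ← Finset.filter_union]
  · congr 2
    rw [Finset.Ico_union_Ico_eq_Ico (by omega) (by omega), add_assoc]
  · apply Finset.disjoint_filter_filter
    exact Finset.Ico_disjoint_Ico_consecutive _ _ _ |>.mono (le_refl _) (by
      rw [add_assoc])

lemma cnt_window (p : ℕ) (hp : 1 ≤ p) :
    ∃ e : ℕ, ∀ m A : ℕ, m * 2 ^ e ≤ cnt p A (m * (8 * 2 ^ e)) := by
  obtain ⟨e, he⟩ := cnt_aligned p hp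
  refine ⟨e, fun m => ?_⟩
  induction m with
  | zero => intro A; simp
  | succ m ih =>
    intro A
    have h1 : 2 ^ e ≤ cnt p A (8 * 2 ^ e) := by
      set W := 4 * 2 ^ e with hW
      have hWpos : 0 < W := by positivity
      have h2 := he (A / W + 1)
      refine h2.trans ?_
      unfold cnt
      apply Finset.card_le_card
      apply Finset.filter_subset_filter
      have h3 := Nat.div_add_mod A W
      have h4 := Nat.mod_lt A hWpos
      have h5 : (A / W + 1) * W = W * (A / W) + W := by ring
      have h6 : 8 * 2 ^ e = 2 * W := by rw [hW]; ring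
      apply Finset.Ico_subset_Ico
      · omega
      · rw [h6]
        omega
    have h7 := ih (A + 8 * 2 ^ e)
    have h8 : (m + 1) * (8 * 2 ^ e) = 8 * 2 ^ e + m * (8 * 2 ^ e) := by ring
    rw [h8, cnt_add]
    have h9 : (m + 1) * 2 ^ e = 2 ^ e + m * 2 ^ e := by ring
    omega

end Pool.Agent.H597R3.Pt
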