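import Pool.Agent.H597R3.Pt9

set_option autoImplicit false

open Polynomial
open scoped goldenRatio

namespace Pool.Agent.H597R3.Pt

open Pool.Agent.H597R3.PtDefs

lemma fib_compat : Compatible randomFibonacci := by
  intro a u hu v hv b
  fin_cases a
  · simp [randomFibonacci, fibReal] at hu hv
    rcases hu with rfl | rfl <;> rcases hv with rfl | rfl <;> fin_cases b <;> decide
  · simp [randomFibonacci, fibReal] at hu hv
    subst hu
    subst hv
    rfl

/-- the substitution matrix -/
def MM : Matrix (Fin 2) (Fin 2) ℕ := !![1, 1; 1, 0]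

lemma MM_isMat : IsSubstitutionMatrix randomFibonacci MM := by
  intro a b u hu
  fin_cases b
  · simp [randomFibonacci, fibReal] at hu
    rcases hu with rfl | rfl <;> fin_cases a <;> decide
  · simp [randomFibonacci, fibReal] at hu
    subst hu
    fin_cases a <;> decide

lemma MM_prim : ∃ k : ℕ, ∀ a b, 0 < (MM ^ k) a b := by
  refine ⟨2, ?_⟩
  intro a b
  rw [pow_two, Matrix.mul_apply, Fin.sum_univ_two]
  fin_cases a <;> fin_cases b <;> simp [MM]

lemma charpoly_eq {R : Type*} [CommRing R] [Nontrivial R] :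
    (MM.map (fun n : ℕ => (n : R))).charpoly = X ^ 2 - X - 1 := by
  rw [Matrix.charpoly_fin_two]
  simp [MM, Matrix.trace_fin_two, Matrix.det_fin_two]
  ring

lemma irr : Irreducible (X ^ 2 - X - 1 : ℚ[X]) := by
  have hdeg : (X ^ 2 - X - 1 : ℚ[X]).natDegree = 2 := by compute_degree!
  apply (Polynomial.irreducible_iff_roots_eq_zero_of_degree_le_three (by rw [hdeg])
    (by rw [hdeg]; norm_num)).2
  rw [Multiset.eq_zero_iff_forall_notMem]
  intro r hr
  have h0 : (X ^ 2 - X - 1 : ℚ[X]) ≠ 0 := by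
    intro h
    rw [h] at hdeg
    simp at hdeg
  rw [mem_roots h0] at hr
  simp only [IsRoot.def, eval_sub, eval_pow, eval_X, eval_one] at hr
  have h1 : (2 * r - 1) ^ 2 = 5 := by linear_combination 4 * hr
  have h2 : ((2 * (r : ℝ) - 1)) ^ 2 = 5 := by exact_mod_cast h1
  have h3 : Irrational (√5) := by
    have := Nat.Prime.irrational_sqrt (show Nat.Prime 5 by norm_num)
    exact_mod_cast this
  apply h3
  refine ⟨|2 * r - 1|, ?_⟩
  push_cast
  rw [← Real.sqrt_sq_eq_abs, h2]

lemma fib_pisot : IrreduciblePisot randomFibonacci := by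
  refine ⟨MM, MM_isMat, MM_prim, ?_, φ, Real.one_lt_goldenRatio, ?_, ?_⟩
  · rw [charpoly_eq]
    exact irr
  · rw [charpoly_eq]
    simp only [IsRoot.def, eval_sub, eval_pow, eval_X, eval_one]
    have := Real.goldenRatio_sq
    have h : ((φ : ℝ) : ℂ) ^ 2 = (φ : ℂ) + 1 := by exact_mod_cast this
    rw [h]
    ring
  · intro z hz hne
    rw [charpoly_eq] at hz
    simp only [IsRoot.def, eval_sub, eval_pow, eval_X, eval_one] at hz
    have h1 : ((φ : ℝ) : ℂ) + (ψ : ℂ) = 1 := by exact_mod_cast Real.goldenRatio_add_goldenConj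
    have h2 : ((φ : ℝ) : ℂ) * (ψ : ℂ) = -1 := by exact_mod_cast Real.goldenRatio_mul_goldenConj
    have h3 : (z - φ) * (z - ψ) = 0 := by
      linear_combination hz - z * h1 + h2
    rcases mul_eq_zero.1 h3 with h | h
    · exact absurd (sub_eq_zero.1 h) hne
    · rw [sub_eq_zero.1 h, Complex.norm_real, Real.norm_eq_abs]
      exact psi_abs

end Pool.Agent.H597R3.Pt
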