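import Mathlib

set_option autoImplicit false

open scoped goldenRatio

namespace Pool.Agent.H597R3.Pt

open Real

/-- lower Wythoff sequence -/
noncomputable def u (k : ℕ) : ℕ := ⌊(k : ℝ) * φ⌋₊

lemma u_le (k : ℕ) : (u k : ℝ) ≤ k * φ := by
  unfold u
  exact Nat.floor_le (by have := goldenRatio_pos; positivity)

lemma lt_u (k : ℕ) : (k : ℝ) * φ < u k + 1 := by
  unfold u
  exact Nat.lt_floor_add_one _

lemma phi_gt : (1.618 : ℝ) < φ := by
  have h : φ ^ 2 = φ + 1 := goldenRatio_sq
  have := goldenRatio_pos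
  nlinarith

lemma phi_lt : φ < (1.6181 : ℝ) := by
  have h : φ ^ 2 = φ + 1 := goldenRatio_sq
  have := goldenRatio_pos
  nlinarith

lemma u_ne (k m : ℕ) (hk : 1 ≤ k) : (k : ℝ) * φ ≠ m := by
  intro h
  have hk' : (k : ℝ) ≠ 0 := by
    have : 0 < k := by omega
    exact_mod_cast this.ne'
  have h1 : φ = (m : ℝ) / k := by
    rw [eq_div_iff hk', ← h]
    ring
  apply goldenRatio_irrational
  refine ⟨(m : ℚ) / k, ?_⟩
  rw [h1]
  push_cast
  rfl

lemma u_lt' (k : ℕ) (hk : 1 ≤ k) : (u k : ℝ) < k * φ :=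
  lt_of_le_of_ne (u_le k) (fun h => u_ne k (u k) hk h.symm)

lemma u_lt_iff (k m : ℕ) : u k < m ↔ (k : ℝ) * φ < m := by
  unfold u
  exact Nat.floor_lt (by have := goldenRatio_pos; positivity)

lemma le_u_iff (k m : ℕ) : m ≤ u k ↔ (m : ℝ) ≤ k * φ := by
  unfold u
  exact Nat.le_floor_iff (by have := goldenRatio_pos; positivity)

/-- the duality -/
lemma dual (k m : ℕ) (hk : 1 ≤ k) : u k < m ↔ k + m ≤ u m := by
  rw [u_lt_iff, le_u_iff]
  have h : φ ^ 2 = φ + 1 := goldenRatio_sq
  have hp := phi_gt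
  push_cast
  constructor
  · intro h1
    nlinarith
  · intro h1
    have h2 : (k : ℝ) * φ ≤ m := by nlinarith
    exact lt_of_le_of_ne h2 (u_ne k m hk)

lemma u_succ_ge (k : ℕ) : u k + 1 ≤ u (k + 1) := by
  rw [le_u_iff]
  push_cast
  have h1 := u_le k
  have h2 := phi_gt
  linarith

lemma u_succ_le (k : ℕ) : u (k + 1) ≤ u k + 2 := by
  have : u (k + 1) < u k + 3 := by
    rw [u_lt_iff]
    push_cast
    have h1 := lt_u k
    have h2 := phi_lt
    linarith
  omega

lemma u_strictMono : StrictMono u := strictMono_nat_of_lt_succ (fun k => u_succ_ge k)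

lemma u_zero : u 0 = 0 := by unfold u; simp

lemma u_one : u 1 = 1 := by
  have h1 : 1 ≤ u 1 := by
    rw [le_u_iff]
    have := phi_gt
    push_cast
    linarith
  have h2 : u 1 < 2 := by
    rw [u_lt_iff]
    have := phi_lt
    push_cast
    linarith
  omega

lemma u_two : u 2 = 3 := by
  have h1 : 3 ≤ u 2 := by
    rw [le_u_iff]
    have := phi_gt
    push_cast
    linarith
  have h2 : u 2 < 4 := by
    rw [u_lt_iff]
    have := phi_lt
    push_cast
    linarith
  omega

lemma u_ge (n : ℕ) : n + 1 ≤ u (n + 1) := by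
  rw [le_u_iff]
  push_cast
  have := phi_gt
  nlinarith

lemma u_ge2 (n : ℕ) (hn : 1 ≤ n) : n + 2 ≤ u (n + 1) := by
  rw [le_u_iff]
  push_cast
  have := phi_gt
  have h : (1 : ℝ) ≤ n := by exact_mod_cast hn
  nlinarith

lemma eta_exists (G : ℕ) : ∃ η : ℝ, 0 < η ∧ ∀ g : ℕ, 1 ≤ g → g < G → ∀ m : ℤ,
    η ≤ |(g : ℝ) * φ - m| := by
  induction G with
  | zero => exact ⟨1, one_pos, fun g h1 h2 => by omega⟩
  | succ G ih =>
    obtain ⟨η, hη, h⟩ := ih
    rcases Nat.eq_zero_or_pos G with rfl | hG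
    · exact ⟨1, one_pos, fun g h1 h2 => by omega⟩
    set x : ℝ := (G : ℝ) * φ with hx
    have hpos : 0 < |x - round x| := by
      rw [abs_pos, sub_ne_zero]
      intro h1
      have h3 : φ = ((round x : ℤ) : ℝ) / G := by
        have hG' : (G : ℝ) ≠ 0 := by exact_mod_cast hG.ne'
        rw [← h1, hx]
        field_simp
      apply goldenRatio_irrational
      refine ⟨(round x : ℚ) / G, ?_⟩
      rw [h3]
      push_cast
      rfl
    refine ⟨min η |x - round x|, lt_min hη hpos, fun g h1 h2 m => ?_⟩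
    rcases Nat.lt_succ_iff_lt_or_eq.1 h2 with h3 | rfl
    · exact (min_le_left _ _).trans (h g h1 h3 m)
    · exact (min_le_right _ _).trans (round_le x m)

/-- bad indices for the approximate period `fib j` -/
def Bad (j k : ℕ) : Prop := u (k + Nat.fib j) ≠ u k + Nat.fib (j + 1)

lemma fib_phi (j : ℕ) : (Nat.fib j : ℝ) * φ = Nat.fib (j + 1) - ψ ^ j := by
  have := fib_succ_sub_goldenRatio_mul_fib j
  linarith

lemma bad_near {j k : ℕ} (hk : 1 ≤ k) (h : Bad j k) :
    ∃ m : ℤ, (k : ℝ) * φ - m ∈ Set.Icc (min 0 (ψ ^ j)) (max 0 (ψ ^ j)) := by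
  have hpos : (0 : ℝ) ≤ (k : ℝ) * φ := by have := goldenRatio_pos; positivity
  rcases lt_trichotomy (u (k + Nat.fib j)) (u k + Nat.fib (j + 1)) with h1 | h1 | h1
  · -- floor dropped
    rw [u_lt_iff] at h1
    push_cast at h1
    have h2 := fib_phi j
    have h3 : (k : ℝ) * φ - (u k : ℤ) < ψ ^ j := by
      push_cast
      nlinarith
    have h4 : 0 ≤ (k : ℝ) * φ - (u k : ℤ) := by
      push_cast
      linarith [u_le k]
    exact ⟨u k, (min_le_left _ _).trans h4, h3.le.trans (le_max_right _ _)⟩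
  · exact absurd h1 h
  · have h2 : u k + Nat.fib (j + 1) + 1 ≤ u (k + Nat.fib j) := h1
    rw [le_u_iff] at h2
    push_cast at h2
    have h3 := fib_phi j
    refine ⟨u k + 1, ?_, ?_⟩
    · refine (min_le_right _ _).trans ?_
      push_cast
      nlinarith
    · refine le_trans ?_ (le_max_left _ _)
      push_cast
      linarith [lt_u k]

lemma bad_gap {G : ℕ} {η : ℝ} (hη : ∀ g : ℕ, 1 ≤ g → g < G → ∀ m : ℤ, η ≤ |(g : ℝ) * φ - m|)
    {j : ℕ} (hj : |ψ ^ j| < η) {k k' : ℕ} (hk : 1 ≤ k) (hkk : k < k') (h : Bad j k)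
    (h' : Bad j k') : G ≤ k' - k := by
  by_contra hcon
  push Not at hcon
  obtain ⟨m, hm1, hm2⟩ := bad_near hk h
  obtain ⟨m', hm1', hm2'⟩ := bad_near (hk.trans hkk.le) h'
  have h1 := hη (k' - k) (by omega) hcon (m' - m)
  rw [Nat.cast_sub hkk.le] at h1
  push_cast at h1
  have h2 : |((k' : ℝ) - k) * φ - (m' - m)| ≤ |ψ ^ j| := by
    rw [abs_le]
    rcases le_total 0 (ψ ^ j) with h3 | h3
    · rw [min_eq_left h3] at hm1 hm1'
      rw [max_eq_right h3] at hm2 hm2'
      rw [abs_of_nonneg h3]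
      constructor <;> nlinarith
    · rw [min_eq_right h3] at hm1 hm1'
      rw [max_eq_left h3] at hm2 hm2'
      rw [abs_of_nonpos h3]
      constructor <;> nlinarith
  linarith

open Classical in
/-- the number of bad indices in a long window -/
lemma bad_count {G : ℕ} (hG : 1 ≤ G) {η : ℝ}
    (hη : ∀ g : ℕ, 1 ≤ g → g < G → ∀ m : ℤ, η ≤ |(g : ℝ) * φ - m|)
    {j : ℕ} (hj : |ψ ^ j| < η) (A m : ℕ) (hA : 1 ≤ A) :
    ((Finset.Ico A (A + G * m)).filter (fun k => Bad j k)).card ≤ m := by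
  -- the map k ↦ (k - A)/G is injective on the bad set
  have h1 : ((Finset.Ico A (A + G * m)).filter (fun k => Bad j k)).card ≤
      (Finset.range m).card := by
    apply Finset.card_le_card_of_injOn (fun k => (k - A) / G)
    · intro k hk
      simp only [Finset.coe_filter, Finset.mem_Ico, Set.mem_ofPred_eq] at hk
      simp only [Finset.coe_range, Set.mem_Iio]
      rw [Nat.div_lt_iff_lt_mul (by omega)]
      have : m * G = G * m := mul_comm _ _
      omega
    · intro k hk k' hk' he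
      simp only [Finset.coe_filter, Finset.mem_Ico, Set.mem_ofPred_eq] at hk hk'
      simp only at he
      have d1 := Nat.div_add_mod (k - A) G
      have d2 := Nat.div_add_mod (k' - A) G
      have m1 := Nat.mod_lt (k - A) (show G > 0 by omega)
      have m2 := Nat.mod_lt (k' - A) (show G > 0 by omega)
      rw [he] at d1
      rcases lt_trichotomy k k' with h | h | h
      · have := bad_gap hη hj (by omega) h hk.2 hk'.2
        omega
      · exact h
      · have := bad_gap hη hj (by omega) h hk'.2 hk.2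
        omega
  rwa [Finset.card_range] at h1

end Pool.Agent.H597R3.Pt
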