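import Pool.Agent.H597R3.Pt1
import Pool.Agent.H597R3.Pt2

set_option autoImplicit false

open scoped goldenRatio

namespace Pool.Agent.H597R3.Pt

open Real

/-- position of the k-th swapped letter: `bp k = k + u k` -/
noncomputable def bp (k : ℕ) : ℕ := k + u k

lemma bp_succ_ge (k : ℕ) : bp k + 2 ≤ bp (k + 1) := by
  have := u_succ_ge k
  unfold bp
  omega

lemma bp_succ_le (k : ℕ) : bp (k + 1) ≤ bp k + 3 := by
  have := u_succ_le k
  unfold bp
  omega

lemma bp_strictMono : StrictMono bp := strictMono_nat_of_lt_succ (fun k => by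
  have := bp_succ_ge k
  omega)

lemma bp_gap {k k' : ℕ} (h : k < k') : bp k + 2 ≤ bp k' :=
  (bp_succ_ge k).trans (bp_strictMono.monotone h)

/-- the choice bit -/
def cb (k : ℕ) : ℕ := if tm k then 1 else 0

lemma cb_le (k : ℕ) : cb k ≤ 1 := by unfold cb; split_ifs <;> norm_num

open Classical in
/-- the sequence x -/
noncomputable def xs (i : ℕ) : Fin 2 := if ∃ k : ℕ, 1 ≤ k ∧ i + 1 + cb k = bp k then 1 else 0

lemma xs_one {i k : ℕ} (hk : 1 ≤ k) (h : i + 1 + cb k = bp k) : xs i = 1 := by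
  unfold xs
  rw [if_pos ⟨k, hk, h⟩]

lemma xs_zero {i : ℕ} (h : ∀ k : ℕ, 1 ≤ k → i + 1 + cb k ≠ bp k) : xs i = 0 := by
  unfold xs
  rw [if_neg]
  rintro ⟨k, hk, h1⟩
  exact h k hk h1

/-- near the k-th position the sequence is determined by the choice bit -/
lemma xs_near {i k : ℕ} (hk : 1 ≤ k) (h : i + 1 = bp k ∨ i + 2 = bp k) :
    xs i = if i + 1 + cb k = bp k then 1 else 0 := by
  split_ifs with h1
  · exact xs_one hk h1
  · apply xs_zero
    intro k' _ h2
    rcases lt_trichotomy k k' with h3 | h3 | h3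
    · have := bp_gap h3
      have := cb_le k'
      omega
    · subst h3
      exact h1 h2
    · have := bp_gap h3
      have := cb_le k'
      omega

open Classical in
/-- the Fibonacci word -/
noncomputable def gs (i : ℕ) : Fin 2 := if ∃ k : ℕ, 1 ≤ k ∧ u k = i + 1 then 0 else 1

/-- start of the i-th tile -/
noncomputable def PP (n : ℕ) : ℕ := u (n + 1) - 1

lemma PP_add (n : ℕ) : PP n + 1 = u (n + 1) := by
  have := u_ge n
  unfold PP
  omega

lemma gs_PP (n : ℕ) : gs (PP n) = 0 := by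
  unfold gs
  rw [if_pos ⟨n + 1, by omega, (PP_add n).symm⟩]

lemma gs_eq_zero_iff (i : ℕ) : gs i = 0 ↔ ∃ k : ℕ, 1 ≤ k ∧ u k = i + 1 := by
  unfold gs
  split_ifs with h
  · simp [h]
  · simp only [h, iff_false]
    decide

lemma gs_cases (i : ℕ) : gs i = 0 ∨ gs i = 1 := by
  unfold gs
  split_ifs <;> simp

/-- if the n-th tile is of type 0 -/
lemma tile_zero {n : ℕ} (h : gs n = 0) :
    ∃ k : ℕ, 1 ≤ k ∧ u k = n + 1 ∧ u (n + 1) = k + n ∧ u (n + 2) = k + n + 2 := by
  rw [gs_eq_zero_iff] at h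
  obtain ⟨k, hk, hu⟩ := h
  have h1 : ¬ (k + (n + 1) ≤ u (n + 1)) := by
    rw [← dual k (n + 1) hk]
    omega
  have h2 : k + (n + 2) ≤ u (n + 2) := by
    rw [← dual k (n + 2) hk]
    omega
  have h3 : k - 1 + (n + 1) ≤ u (n + 1) := by
    rcases Nat.lt_or_ge 1 k with h4 | h4
    · rw [← dual (k - 1) (n + 1) (by omega)]
      have : u (k - 1) < u k := u_strictMono (by omega)
      omega
    · have : k = 1 := by omega
      subst this
      have := u_ge n
      omega
  have h5 := u_succ_le (n + 1)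
  refine ⟨k, hk, hu, ?_, ?_⟩
  · omega
  · have : u (n + 1 + 1) = u (n + 2) := rfl
    omega

/-- if the n-th tile is of type 1 -/
lemma tile_one {n : ℕ} (h : gs n = 1) :
    u (n + 2) = u (n + 1) + 1 ∧ ∀ k : ℕ, 1 ≤ k → bp k ≠ u (n + 1) ∧ bp k ≠ u (n + 1) + 1 ∨ bp k < u (n + 1) := by
  have hno : ∀ k : ℕ, 1 ≤ k → u k ≠ n + 1 := by
    intro k hk hu
    have : gs n = 0 := (gs_eq_zero_iff n).2 ⟨k, hk, hu⟩
    rw [this] at h
    exact absurd h (by decide)
  -- set N = u (n+1) - (n+1), the number of k with u k ≤ n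
  have hu1 := u_ge n
  set N := u (n + 1) - (n + 1) with hN
  have hle : ∀ k, 1 ≤ k → (k ≤ N ↔ u k < n + 1) := by
    intro k hk
    rw [dual k (n + 1) hk]
    omega
  have hgt : n + 1 < u (N + 1) := by
    have h1 : ¬ (u (N + 1) < n + 1) := by
      rw [← hle (N + 1) (by omega)]
      omega
    have h2 := hno (N + 1) (by omega)
    omega
  have h3 : ¬ (u (N + 1) < n + 2) := by omega
  rw [dual (N + 1) (n + 2) (by omega)] at h3
  have h4 := u_succ_ge (n + 1)
  have h5 : u (n + 1 + 1) = u (n + 2) := rfl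
  refine ⟨by omega, fun k hk => ?_⟩
  by_cases hkN : k ≤ N
  · right
    have := (hle k hk).1 hkN
    unfold bp
    omega
  · left
    have h6 : u (N + 1) ≤ u k := u_strictMono.monotone (by omega)
    unfold bp
    omega

end Pool.Agent.H597R3.Pt
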