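import Mathlib

set_option autoImplicit false

open MeasureTheory

namespace Pool.Agent.H597R3.PtDefs

/-- A random substitution on the alphabet `Fin d` (realisation probabilities play no role): every
letter has a finite non-empty set of realisations, which are non-empty words. -/
structure RandomSubstitution (d : ℕ) where
  /-- the realisations of a letter -/
  real : Fin d → Finset (List (Fin d))
  nonempty : ∀ a, (real a).Nonempty
  ne_nil : ∀ a, ∀ u ∈ real a, u ≠ []

variable {d : ℕ}

/-- The set `ϑ(w)` of realisations of a word `w`. -/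
def onWord (θ : RandomSubstitution d) : List (Fin d) → Set (List (Fin d))
  | [] => {[]}
  | a :: w => {z | ∃ u ∈ θ.real a, ∃ v ∈ onWord θ w, z = u ++ v}

/-- The set `ϑ^n(a)`. -/
def power (θ : RandomSubstitution d) : ℕ → Fin d → Set (List (Fin d))
  | 0, a => {[a]}
  | n + 1, a => {z | ∃ w ∈ power θ n a, z ∈ onWord θ w}

/-- A word is legal if it is a subword of some element of `ϑ^n(a)`, `n ≥ 1`. -/
def Legal (θ : RandomSubstitution d) (w : List (Fin d)) : Prop :=
  ∃ n : ℕ, 1 ≤ n ∧ ∃ a : Fin d, ∃ z ∈ power θ n a, w <:+: z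

/-- The subshift `X_ϑ` of all bi-infinite sequences all of whose finite subwords are legal. -/
def subshift (θ : RandomSubstitution d) : Set (ℤ → Fin d) :=
  {x | ∀ (i : ℤ) (n : ℕ), Legal θ (List.ofFn fun j : Fin n => x (i + (j : ℕ)))}

/-- `ϑ` is compatible: all realisations of a letter have the same letter counts. -/
def Compatible (θ : RandomSubstitution d) : Prop :=
  ∀ a, ∀ u ∈ θ.real a, ∀ v ∈ θ.real a, ∀ b, u.count b = v.count b

/-- `M` is the substitution matrix: `M a b` is the number of `a` in any realisation of `b`. -/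
def IsSubstitutionMatrix (θ : RandomSubstitution d) (M : Matrix (Fin d) (Fin d) ℕ) : Prop :=
  ∀ a b, ∀ u ∈ θ.real b, M a b = u.count a

/-- The substitution matrix is primitive, its characteristic polynomial is irreducible over the
rationals and its Perron-Frobenius eigenvalue is a Pisot number (a real root `l > 1` of the
characteristic polynomial such that all other complex roots have modulus less than one). -/
def IrreduciblePisot (θ : RandomSubstitution d) : Prop :=
  ∃ M : Matrix (Fin d) (Fin d) ℕ, IsSubstitutionMatrix θ M ∧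
    (∃ k : ℕ, ∀ a b, 0 < (M ^ k) a b) ∧
    Irreducible (M.map (fun n : ℕ => (n : ℚ))).charpoly ∧
    ∃ l : ℝ, 1 < l ∧ (M.map (fun n : ℕ => (n : ℂ))).charpoly.IsRoot (l : ℂ) ∧
      ∀ z : ℂ, (M.map (fun n : ℕ => (n : ℂ))).charpoly.IsRoot z → z ≠ (l : ℂ) → ‖z‖ < 1

/-- The left shift. -/
def shift (x : ℤ → Fin d) : ℤ → Fin d := fun i => x (i + 1)

/-- `Y` is a minimal subsystem of `(X, shift)`. -/
def IsMinimalSubsystem (X Y : Set (ℤ → Fin d)) : Prop :=
  Y ⊆ X ∧ Y.Nonempty ∧ IsClosed Y ∧ shift '' Y = Y ∧
    ∀ Z ⊆ Y, Z.Nonempty → IsClosed Z → shift '' Z = Z → Z = Y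

/-- `g` is an eigenfunction, with eigenvalue `c`, of the Koopman operator `f ↦ f ∘ shift` on
`L²(μ)` (the zero function is allowed). -/
def IsEigenfunction (μ : Measure (ℤ → Fin d)) (c : ℂ) (g : (ℤ → Fin d) → ℂ) : Prop :=
  MemLp g 2 μ ∧ (fun x => g (shift x)) =ᵐ[μ] fun x => c * g x

/-- The Koopman operator of the shift on `L²(μ)` has pure point spectrum: every `f` in `L²(μ)` can
be approximated in `L²(μ)` by finite sums of eigenfunctions. -/
def HasPurePointSpectrum (μ : Measure (ℤ → Fin d)) : Prop :=
  ∀ f : (ℤ → Fin d) → ℂ, MemLp f 2 μ → ∀ ε : ENNReal, 0 < ε →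
    ∃ (n : ℕ) (c : Fin n → ℂ) (g : Fin n → (ℤ → Fin d) → ℂ),
      (∀ i, IsEigenfunction μ (c i) (g i)) ∧ eLpNorm (fun x => f x - ∑ i, g i x) 2 μ < ε

/-- `(Y, shift)` is a pure point system: the Koopman operator has pure point spectrum for every
shift-invariant Borel probability measure on `Y`. -/
def IsPurePointSystem (Y : Set (ℤ → Fin d)) : Prop :=
  ∀ μ : Measure (ℤ → Fin d), IsProbabilityMeasure μ → μ Yᶜ = 0 →
    MeasurePreserving shift μ μ → HasPurePointSpectrum μ

/-- The realisations of the random Fibonacci substitution. -/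
def fibReal : Fin 2 → Finset (List (Fin 2)) := ![{[0, 1], [1, 0]}, {[0]}]

lemma fibReal_nonempty (a : Fin 2) : (fibReal a).Nonempty := by
  fin_cases a <;> simp [fibReal]

lemma fibReal_ne_nil (a : Fin 2) (u : List (Fin 2)) (hu : u ∈ fibReal a) : u ≠ [] := by
  fin_cases a
  · simp [fibReal] at hu
    rcases hu with rfl | rfl <;> simp
  · simp [fibReal] at hu
    subst hu
    simp

/-- The random Fibonacci substitution `0 ↦ {01, 10}`, `1 ↦ {0}`. -/
def randomFibonacci : RandomSubstitution 2 where
  real := fibReal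
  nonempty := fibReal_nonempty
  ne_nil := fibReal_ne_nil

end Pool.Agent.H597R3.PtDefs
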