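import Pool.Agent.H597R3.Pt3
import Pool.Agent.H597R3.PtDefs

set_option autoImplicit false

open scoped goldenRatio

namespace Pool.Agent.H597R3.Pt

open Pool.Agent.H597R3.PtDefs

lemma onWord_append (θ : RandomSubstitution 2) (w w' z z' : List (Fin 2)) (h : z ∈ onWord θ w)
    (h' : z' ∈ onWord θ w') : z ++ z' ∈ onWord θ (w ++ w') := by
  induction w generalizing z with
  | nil =>
    simp only [onWord, Set.mem_singleton_iff] at h
    subst h
    simpa using h'
  | cons a w ih =>
    obtain ⟨u, hu, v, hv, rfl⟩ := h
    refine ⟨u, hu, v ++ z', ih v hv, ?_⟩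
    rw [List.append_assoc]

lemma onWord_single (θ : RandomSubstitution 2) (a : Fin 2) (u : List (Fin 2)) (hu : u ∈ θ.real a) :
    u ∈ onWord θ [a] := by
  refine ⟨u, hu, [], rfl, ?_⟩
  simp

lemma PP_succ_zero {n : ℕ} (h : gs n = 0) : PP (n + 1) = PP n + 2 := by
  obtain ⟨k, _, _, h1, h2⟩ := tile_zero h
  have h3 : u (n + 1 + 1) = u (n + 2) := rfl
  have := u_ge n
  unfold PP
  omega

lemma PP_succ_one {n : ℕ} (h : gs n = 1) : PP (n + 1) = PP n + 1 := by
  have h1 := (tile_one h).1
  have h3 : u (n + 1 + 1) = u (n + 2) := rfl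
  have := u_ge n
  unfold PP
  omega

lemma gs_PP_succ {n : ℕ} (h : gs n = 0) : gs (PP n + 1) = 1 := by
  rcases gs_cases (PP n + 1) with h1 | h1
  · rw [gs_eq_zero_iff] at h1
    obtain ⟨k, hk, hu⟩ := h1
    have h2 := PP_add n
    have h3 := PP_add (n + 1)
    rw [PP_succ_zero h] at h3
    have h4 : u (n + 1) < u k := by omega
    have h5 : u k < u (n + 1 + 1) := by omega
    have h6 := u_strictMono.lt_iff_lt.1 h4
    have h7 := u_strictMono.lt_iff_lt.1 h5
    omega
  · exact h1

/-- prefixes -/
noncomputable def gl (n : ℕ) : List (Fin 2) := (List.range n).map gs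
noncomputable def xl (n : ℕ) : List (Fin 2) := (List.range n).map xs

lemma gl_succ (n : ℕ) : gl (n + 1) = gl n ++ [gs n] := by
  unfold gl
  rw [List.range_succ, List.map_append, List.map_singleton]

lemma xl_succ (n : ℕ) : xl (n + 1) = xl n ++ [xs n] := by
  unfold xl
  rw [List.range_succ, List.map_append, List.map_singleton]

lemma gl_mem (n : ℕ) : gl (PP n) ∈ onWord randomFibonacci (gl n) := by
  induction n with
  | zero =>
    have : PP 0 = 0 := by
      unfold PP
      rw [u_one]
    rw [this]
    rfl
  | succ n ih =>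
    rw [gl_succ n]
    rcases gs_cases n with h | h
    · rw [PP_succ_zero h, gl_succ, gl_succ, List.append_assoc, gs_PP, gs_PP_succ h, h]
      apply onWord_append _ _ _ _ _ ih
      apply onWord_single
      simp [randomFibonacci, fibReal]
    · rw [PP_succ_one h, gl_succ, gs_PP, h]
      apply onWord_append _ _ _ _ _ ih
      apply onWord_single
      simp [randomFibonacci, fibReal]

lemma xl_mem (n : ℕ) : xl (PP n) ∈ onWord randomFibonacci (gl n) := by
  induction n with
  | zero =>
    have : PP 0 = 0 := by
      unfold PP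
      rw [u_one]
    rw [this]
    rfl
  | succ n ih =>
    rw [gl_succ n]
    rcases gs_cases n with h | h
    · rw [PP_succ_zero h, xl_succ, xl_succ, List.append_assoc, h]
      apply onWord_append _ _ _ _ _ ih
      apply onWord_single
      obtain ⟨k, hk, hu, h1, h2⟩ := tile_zero h
      have h3 := PP_add n
      have hb : bp k = PP n + 2 := by
        unfold bp
        omega
      have e1 := xs_near (i := PP n) hk (by omega)
      have e2 := xs_near (i := PP n + 1) hk (by omega)
      rcases Nat.lt_or_ge 0 (cb k) with hc | hc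
      · have hc1 : cb k = 1 := by
          have := cb_le k
          omega
        rw [if_pos (by omega)] at e1
        rw [if_neg (by omega)] at e2
        rw [e1, e2]
        simp [randomFibonacci, fibReal]
      · rw [if_neg (by omega)] at e1
        rw [if_pos (by omega)] at e2
        rw [e1, e2]
        simp [randomFibonacci, fibReal]
    · rw [PP_succ_one h, xl_succ, h]
      apply onWord_append _ _ _ _ _ ih
      apply onWord_single
      have h3 := PP_add n
      have e : xs (PP n) = 0 := by
        apply xs_zero
        intro k hk h4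
        have := (tile_one h).2 k hk
        have := cb_le k
        rcases Nat.lt_or_ge 0 (cb k) with hc | hc <;> omega
      rw [e]
      simp [randomFibonacci, fibReal]

lemma exists_power (m : ℕ) : ∃ n : ℕ, m + 1 ≤ n ∧ gl n ∈ power randomFibonacci m 0 := by
  induction m with
  | zero =>
    refine ⟨1, le_refl _, ?_⟩
    have h1 : gs 0 = 0 := by
      rw [gs_eq_zero_iff]
      exact ⟨1, le_refl _, u_one⟩
    have : gl 1 = [0] := by
      rw [gl_succ]
      simp [gl, h1]
    rw [this]
    rfl
  | succ m ih =>
    obtain ⟨n, hn, h⟩ := ih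
    refine ⟨PP n, ?_, gl n, h, gl_mem n⟩
    have := u_ge2 n (by omega)
    unfold PP
    omega

lemma legal_window (i n : ℕ) :
    Legal randomFibonacci (List.ofFn fun j : Fin n => xs (i + (j : ℕ))) := by
  obtain ⟨N, hN, h⟩ := exists_power (i + n)
  refine ⟨i + n + 1, by omega, 0, xl (PP N), ⟨gl N, h, xl_mem N⟩, ?_⟩
  have hle : i + n ≤ PP N := by
    have := u_ge2 N (by omega)
    unfold PP
    omega
  have h1 : List.ofFn (fun j : Fin n => xs (i + (j : ℕ))) = ((xl (PP N)).drop i).take n := by
    apply List.ext_getElem
    · simp [xl]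
      omega
    · intro j h2 h3
      simp [xl]
  rw [h1]
  exact (List.take_prefix _ _).isInfix.trans (List.drop_suffix _ _).isInfix

end Pool.Agent.H597R3.Pt
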