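import Pool.Agent.H597R3.Pt4

set_option autoImplicit false

open scoped goldenRatio

namespace Pool.Agent.H597R3.Pt

open Pool.Agent.H597R3.PtDefs Real

/-- value of x next to the k-th swapped position -/
lemma xs_bp {k : ℕ} (hk : 1 ≤ k) : xs (bp k - 1) = if tm k then 0 else 1 := by
  have h1 : 1 ≤ bp k := by unfold bp; omega
  rw [xs_near (i := bp k - 1) hk (by omega)]
  unfold cb
  cases h : tm k
  · rw [if_pos (by simp; omega)]
    simp
  · rw [if_neg (by simp; omega)]
    simp

lemma bp_shift {j k : ℕ} (h : ¬ Bad j k) : bp (k + Nat.fib j) = bp k + Nat.fib (j + 2) := by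
  unfold Bad at h
  push Not at h
  unfold bp
  rw [h, Nat.fib_add_two]
  ring

lemma xs_shift {j k : ℕ} (hk : 1 ≤ k) (h : ¬ Bad j k) :
    xs (bp k - 1 + Nat.fib (j + 2)) = if tm (k + Nat.fib j) then 0 else 1 := by
  have h1 : 1 ≤ bp k := by unfold bp; omega
  rw [← xs_bp (by omega : 1 ≤ k + Nat.fib j), bp_shift h]
  congr 1
  omega

lemma bp_add_le (k n : ℕ) : bp (k + n) ≤ bp k + 3 * n := by
  induction n with
  | zero => simp
  | succ n ih =>
    have := bp_succ_le (k + n)
    have h : bp (k + (n + 1)) = bp (k + n + 1) := rfl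
    omega

/-- for every position there is a swapped position just after it -/
lemma exists_bp (A : ℕ) : ∃ k : ℕ, 1 ≤ k ∧ A ≤ bp k - 1 ∧ bp k - 1 ≤ A + 2 := by
  induction A with
  | zero =>
    refine ⟨1, le_refl _, Nat.zero_le _, ?_⟩
    unfold bp
    rw [u_one]
    norm_num
  | succ A ih =>
    obtain ⟨k, hk, h1, h2⟩ := ih
    rcases Nat.lt_or_ge A (bp k - 1) with h | h
    · exact ⟨k, hk, by omega, by omega⟩
    · have h3 := bp_succ_ge k
      have h4 := bp_succ_le k
      exact ⟨k + 1, by omega, by omega, by omega⟩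

/-- the sequence x differs from its shift by `fib (j+2)` in at least 1/48 of the positions of every
window of a certain length, uniformly -/
lemma mismatch {η : ℝ} (hη : ∀ g : ℕ, 1 ≤ g → g < 32 → ∀ m : ℤ, η ≤ |(g : ℝ) * φ - m|)
    {j l : ℕ} (hj : |ψ ^ j| < η) (hl : |ψ ^ l| < η) (hfib : Nat.fib j < Nat.fib l) :
    ∃ V : ℕ, 0 < V ∧ ∀ A : ℕ, V ≤ 48 * ((Finset.Ico A (A + V)).filter
      (fun i => xs (i + Nat.fib (j + 2)) ≠ xs (i + Nat.fib (l + 2)))).card := by
  classical
  obtain ⟨e, he⟩ := cnt_window (Nat.fib l - Nat.fib j) (by omega)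
  set W := 8 * 2 ^ e with hW
  refine ⟨3 * (32 * W), by positivity, fun A => ?_⟩
  obtain ⟨k0, hk0, h1, h2⟩ := exists_bp A
  -- the set of good indices
  set S := ((Finset.Ico k0 (k0 + 32 * W)).filter
    (fun k => tm (k + Nat.fib j) ≠ tm (k + Nat.fib l))) with hS
  set B1 := ((Finset.Ico k0 (k0 + 32 * W)).filter (fun k => Bad j k)) with hB1
  set B2 := ((Finset.Ico k0 (k0 + 32 * W)).filter (fun k => Bad l k)) with hB2
  have c1 : B1.card ≤ W := bad_count (by norm_num) hη hj k0 W hk0
  have c2 : B2.card ≤ W := bad_count (by norm_num) hη hl k0 W hk0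
  have c3 : 32 * 2 ^ e ≤ S.card := by
    have h3 := he 32 (k0 + Nat.fib j)
    refine h3.trans ?_
    unfold cnt
    apply Finset.card_le_card_of_injOn (fun k => k - Nat.fib j)
    · intro k hk
      simp only [Finset.coe_filter, Finset.mem_Ico, Set.mem_ofPred_eq] at hk
      rw [hS]
      simp only [Finset.coe_filter, Finset.mem_Ico, Set.mem_ofPred_eq]
      have e1 : k - Nat.fib j + Nat.fib j = k := by omega
      have e2 : k - Nat.fib j + Nat.fib l = k + (Nat.fib l - Nat.fib j) := by omega
      rw [e1, e2]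
      refine ⟨by omega, hk.2⟩
    · intro k hk k' hk' h
      simp only [Finset.coe_filter, Finset.mem_Ico, Set.mem_ofPred_eq] at hk hk' h
      omega
  have c4 : 16 * 2 ^ e ≤ (S \ (B1 ∪ B2)).card := by
    have h3 := Finset.le_card_sdiff (B1 ∪ B2) S
    have h4 := Finset.card_union_le B1 B2
    omega
  have c5 : (S \ (B1 ∪ B2)).card ≤ ((Finset.Ico A (A + 3 * (32 * W))).filter
      (fun i => xs (i + Nat.fib (j + 2)) ≠ xs (i + Nat.fib (l + 2)))).card := by
    apply Finset.card_le_card_of_injOn (fun k => bp k - 1)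
    · intro k hk
      simp only [Finset.coe_sdiff, Set.mem_sdiff, Finset.mem_coe, Finset.mem_union, not_or] at hk
      obtain ⟨hk1, hk2, hk3⟩ := hk
      rw [hS, Finset.mem_filter, Finset.mem_Ico] at hk1
      have hb1 : ¬ Bad j k := by
        intro hb
        apply hk2
        rw [hB1, Finset.mem_filter, Finset.mem_Ico]
        exact ⟨hk1.1, hb⟩
      have hb2 : ¬ Bad l k := by
        intro hb
        apply hk3
        rw [hB2, Finset.mem_filter, Finset.mem_Ico]
        exact ⟨hk1.1, hb⟩
      have hkk : 1 ≤ k := by omega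
      simp only [Finset.coe_filter, Finset.mem_Ico, Set.mem_ofPred_eq]
      refine ⟨⟨?_, ?_⟩, ?_⟩
      · have := bp_strictMono.monotone hk1.1.1
        omega
      · obtain ⟨n, rfl⟩ := Nat.exists_eq_add_of_le hk1.1.1
        have := bp_add_le k0 n
        omega
      · rw [xs_shift hkk hb1, xs_shift hkk hb2]
        have := hk1.2
        cases h5 : tm (k + Nat.fib j) <;> cases h6 : tm (k + Nat.fib l) <;> simp_all
    · intro k hk k' hk' h
      simp only [Finset.coe_sdiff, Set.mem_sdiff, Finset.mem_coe] at hk hk'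
      have hk1 := hk.1
      have hk1' := hk'.1
      rw [hS, Finset.mem_filter, Finset.mem_Ico] at hk1 hk1'
      simp only at h
      have h5 : 1 ≤ bp k := by unfold bp; omega
      have h6 : 1 ≤ bp k' := by unfold bp; omega
      exact bp_strictMono.injective (by omega)
  omega

end Pool.Agent.H597R3.Pt
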