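import Pool.Agent.H597R3.Pt5

set_option autoImplicit false

open scoped goldenRatio
open MeasureTheory Filter Topology

namespace Pool.Agent.H597R3.Pt

open Pool.Agent.H597R3.PtDefs

/-- hull of x -/
def HH : Set (ℤ → Fin 2) :=
  {y | ∀ (i : ℤ) (n : ℕ), ∃ m : ℕ, ∀ j : Fin n, y (i + (j : ℕ)) = xs (m + (j : ℕ))}

lemma cyl_clopen (i : ℤ) (n : ℕ) (W : Set (Fin n → Fin 2)) :
    IsClopen {y : ℤ → Fin 2 | (fun j : Fin n => y (i + (j : ℕ))) ∈ W} := by
  have h : Continuous (fun y : ℤ → Fin 2 => (fun j : Fin n => y (i + (j : ℕ)))) := by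
    fun_prop
  exact (isClopen_discrete W).preimage h

lemma win_clopen (i : ℤ) (n : ℕ) :
    IsClopen {y : ℤ → Fin 2 | ∃ m : ℕ, ∀ j : Fin n, y (i + (j : ℕ)) = xs (m + (j : ℕ))} := by
  have h := cyl_clopen i n {w | ∃ m : ℕ, ∀ j : Fin n, w j = xs (m + (j : ℕ))}
  exact h

lemma HH_closed : IsClosed HH := by
  have : HH = ⋂ (i : ℤ), ⋂ (n : ℕ),
      {y : ℤ → Fin 2 | ∃ m : ℕ, ∀ j : Fin n, y (i + (j : ℕ)) = xs (m + (j : ℕ))} := by
    ext y
    simp only [HH, Set.mem_ofPred_eq, Set.mem_iInter]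
  rw [this]
  exact isClosed_iInter (fun i => isClosed_iInter (fun n => (win_clopen i n).isClosed))

lemma HH_nonempty : HH.Nonempty := by
  have h := IsCompact.nonempty_iInter_of_sequence_nonempty_isCompact_isClosed
    (fun N : ℕ => {y : ℤ → Fin 2 | ∃ m : ℕ, ∀ j : Fin (2 * N + 1),
      y (-(N : ℤ) + (j : ℕ)) = xs (m + (j : ℕ))})
    (by
      intro N y hy
      obtain ⟨m, hm⟩ := hy
      refine ⟨m + 1, fun j => ?_⟩
      have := hm ⟨j + 1, by omega⟩
      simp only at this
      have e1 : -((N + 1 : ℕ) : ℤ) + ((j + 1 : ℕ) : ℤ) = -(N : ℤ) + (j : ℕ) := by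
        push_cast
        ring
      rw [e1] at this
      rw [this]
      congr 1
      ring)
    (by
      intro N
      refine ⟨fun i => xs (i + N).toNat, 0, fun j => ?_⟩
      simp only
      congr 1
      omega)
    ((win_clopen _ _).isClosed.isCompact)
    (fun N => (win_clopen _ _).isClosed)
  obtain ⟨y, hy⟩ := h
  refine ⟨y, fun i n => ?_⟩
  rw [Set.mem_iInter] at hy
  obtain ⟨m, hm⟩ := hy (i.natAbs + n)
  refine ⟨m + (i + (i.natAbs + n)).toNat, fun j => ?_⟩
  have h0 : 0 ≤ i + (i.natAbs + n) := by omega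
  have h1 := hm ⟨(i + (i.natAbs + n)).toNat + j, by omega⟩
  simp only at h1
  have e1 : -((i.natAbs + n : ℕ) : ℤ) + (((i + (i.natAbs + n)).toNat + (j : ℕ) : ℕ) : ℤ) =
      i + (j : ℕ) := by
    omega
  rw [e1] at h1
  rw [h1, add_assoc]

lemma shift_bij : Function.Bijective (shift : (ℤ → Fin 2) → (ℤ → Fin 2)) := by
  constructor
  · intro x y h
    funext i
    have := congrFun h (i - 1)
    simpa [shift] using this
  · intro y
    refine ⟨fun i => y (i - 1), ?_⟩
    funext i
    simp [shift]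

lemma inv_iff (Z : Set (ℤ → Fin 2)) : shift '' Z = Z ↔ ∀ y, shift y ∈ Z ↔ y ∈ Z := by
  constructor
  · intro h y
    constructor
    · intro hy
      rw [← h] at hy
      obtain ⟨z, hz, hzy⟩ := hy
      rwa [← shift_bij.1 hzy]
    · intro hy
      rw [← h]
      exact ⟨y, hy, rfl⟩
  · intro h
    ext y
    constructor
    · rintro ⟨z, hz, rfl⟩
      exact (h z).2 hz
    · intro hy
      obtain ⟨z, rfl⟩ := shift_bij.2 y
      exact ⟨z, (h z).1 hy, rfl⟩

lemma HH_inv : shift '' HH = HH := by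
  rw [inv_iff]
  intro y
  constructor
  · intro h i n
    obtain ⟨m, hm⟩ := h (i - 1) n
    refine ⟨m, fun j => ?_⟩
    rw [← hm j]
    simp only [shift]
    congr 1
    ring
  · intro h i n
    obtain ⟨m, hm⟩ := h (i + 1) n
    refine ⟨m, fun j => ?_⟩
    rw [← hm j]
    simp only [shift]
    congr 1
    ring

lemma HH_sub : HH ⊆ subshift randomFibonacci := by
  intro y hy i n
  obtain ⟨m, hm⟩ := hy i n
  have : (fun j : Fin n => y (i + (j : ℕ))) = fun j : Fin n => xs (m + (j : ℕ)) := by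
    funext j
    exact hm j
  rw [this]
  exact legal_window m n

lemma exists_minimal : ∃ Y : Set (ℤ → Fin 2), IsMinimalSubsystem HH Y := by
  obtain ⟨Y, hY1, hY2⟩ := zorn_superset_nonempty
    {Z : Set (ℤ → Fin 2) | Z ⊆ HH ∧ Z.Nonempty ∧ IsClosed Z ∧ shift '' Z = Z}
    (by
      intro c hc hchain hne
      refine ⟨⋂₀ c, ⟨?_, ?_, ?_, ?_⟩, fun s hs => Set.sInter_subset_of_mem hs⟩
      · obtain ⟨s, hs⟩ := hne
        exact (Set.sInter_subset_of_mem hs).trans (hc hs).1
      · haveI : Nonempty c := hne.to_subtype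
        apply IsCompact.nonempty_sInter_of_directed_nonempty_isCompact_isClosed
        · intro a ha b hb
          rcases hchain.total ha hb with h | h
          · exact ⟨a, ha, le_refl _, h⟩
          · exact ⟨b, hb, h, le_refl _⟩
        · intro s hs
          exact (hc hs).2.1
        · intro s hs
          exact (hc hs).2.2.1.isCompact
        · intro s hs
          exact (hc hs).2.2.1
      · exact isClosed_sInter (fun s hs => (hc hs).2.2.1)
      · rw [inv_iff]
        intro y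
        simp only [Set.mem_sInter]
        constructor
        · intro h s hs
          exact ((inv_iff s).1 (hc hs).2.2.2 y).1 (h s hs)
        · intro h s hs
          exact ((inv_iff s).1 (hc hs).2.2.2 y).2 (h s hs))
    HH ⟨le_refl _, HH_nonempty, HH_closed, HH_inv⟩
  refine ⟨Y, hY1, hY2.1.2.1, hY2.1.2.2.1, hY2.1.2.2.2, ?_⟩
  intro Z hZ h1 h2 h3
  exact Set.Subset.antisymm hZ (hY2.2 ⟨hZ.trans hY1, h1, h2, h3⟩ hZ)

lemma HH_mismatch {V a b : ℕ} (hV : ∀ A : ℕ, V ≤ 48 * ((Finset.Ico A (A + V)).filter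
      (fun i => xs (i + a) ≠ xs (i + b))).card) {y : ℤ → Fin 2} (hy : y ∈ HH) :
    V ≤ 48 * ((Finset.range V).filter (fun i : ℕ => y ((i : ℤ) + a) ≠ y ((i : ℤ) + b))).card := by
  obtain ⟨m, hm⟩ := hy 0 (V + a + b)
  refine (hV m).trans ?_
  apply Nat.mul_le_mul_left
  apply Finset.card_le_card_of_injOn (fun i => i - m)
  · intro i hi
    simp only [Finset.coe_filter, Finset.mem_Ico, Set.mem_ofPred_eq] at hi
    simp only [Finset.coe_filter, Finset.mem_range, Set.mem_ofPred_eq]
    refine ⟨by omega, ?_⟩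
    have h1 := hm ⟨i - m + a, by omega⟩
    have h2 := hm ⟨i - m + b, by omega⟩
    simp only [zero_add] at h1 h2
    push_cast at h1 h2
    rw [h1, h2]
    have e1 : m + (i - m + a) = i + a := by omega
    have e2 : m + (i - m + b) = i + b := by omega
    rw [e1, e2]
    exact hi.2
  · intro i hi i' hi' h
    simp only [Finset.coe_filter, Finset.mem_Ico, Set.mem_ofPred_eq] at hi hi' h
    omega

end Pool.Agent.H597R3.Pt
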