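import Pool.Agent.H597R3.Pt6

set_option autoImplicit false

open MeasureTheory Filter Topology

namespace Pool.Agent.H597R3.Pt

open Pool.Agent.H597R3.PtDefs

lemma shift_cont : Continuous (shift : (ℤ → Fin 2) → (ℤ → Fin 2)) := by
  unfold shift
  fun_prop

lemma shift_meas : Measurable (shift : (ℤ → Fin 2) → (ℤ → Fin 2)) := shift_cont.measurable

/-- empirical measures -/
noncomputable def emp (y : ℤ → Fin 2) (N : ℕ) : Measure (ℤ → Fin 2) :=
  ((N + 1 : ℕ) : ENNReal)⁻¹ • ∑ n ∈ Finset.range (N + 1), Measure.dirac (shift^[n] y)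

instance (y : ℤ → Fin 2) (N : ℕ) : IsProbabilityMeasure (emp y N) := by
  constructor
  unfold emp
  rw [Measure.smul_apply, Measure.finset_sum_apply]
  simp only [measure_univ, Finset.sum_const, Finset.card_range, nsmul_eq_mul, mul_one, smul_eq_mul]
  apply ENNReal.inv_mul_cancel
  · simp
  · exact ENNReal.natCast_ne_top _

lemma emp_integral (y : ℤ → Fin 2) (N : ℕ) (f : BoundedContinuousFunction (ℤ → Fin 2) ℝ) :
    ∫ x, f x ∂(emp y N) = ((N : ℝ) + 1)⁻¹ * ∑ n ∈ Finset.range (N + 1), f (shift^[n] y) := by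
  unfold emp
  rw [integral_smul_measure, integral_finset_sum_measure]
  · simp only [integral_dirac, smul_eq_mul]
    congr 1
    rw [ENNReal.toReal_inv, ENNReal.toReal_natCast]
    push_cast
    rfl
  · intro n _
    exact f.integrable _

/-- existence of invariant measures -/
lemma exists_inv {Y : Set (ℤ → Fin 2)} (hcl : IsClosed Y) (hne : Y.Nonempty)
    (hinv : shift '' Y = Y) :
    ∃ μ : Measure (ℤ → Fin 2), IsProbabilityMeasure μ ∧ μ Yᶜ = 0 ∧ MeasurePreserving shift μ μ := by
  obtain ⟨y, hy⟩ := hne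
  have hmem : ∀ n, shift^[n] y ∈ Y := by
    intro n
    induction n with
    | zero => exact hy
    | succ n ih =>
      rw [Function.iterate_succ']
      exact ((inv_iff Y).1 hinv _).2 ih
  let ν : ℕ → ProbabilityMeasure (ℤ → Fin 2) := fun N => ⟨emp y N, inferInstance⟩
  let U : Ultrafilter ℕ := Filter.hyperfilter ℕ
  obtain ⟨μ, hμ⟩ : ∃ μ : ProbabilityMeasure (ℤ → Fin 2), Tendsto ν U (𝓝 μ) := by
    have h := (isCompact_univ (X := ProbabilityMeasure (ℤ → Fin 2))).ultrafilter_le_nhds
      (U.map ν) (by simp)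
    obtain ⟨μ, _, hμ⟩ := h
    exact ⟨μ, hμ⟩
  refine ⟨μ, inferInstance, ?_, ?_⟩
  · have h1 := ProbabilityMeasure.le_liminf_measure_open_of_tendsto hμ hcl.isOpen_compl
    have h2 : ∀ N, (ν N : Measure (ℤ → Fin 2)) Yᶜ = 0 := by
      intro N
      change emp y N Yᶜ = 0
      unfold emp
      rw [Measure.smul_apply, Measure.finset_sum_apply]
      have : ∑ n ∈ Finset.range (N + 1), (Measure.dirac (shift^[n] y)) Yᶜ = 0 := by
        apply Finset.sum_eq_zero
        intro n _
        rw [Measure.dirac_apply' _ hcl.measurableSet.compl]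
        simp [hmem n]
      rw [this]
      simp
    simp only [h2, liminf_const] at h1
    exact nonpos_iff_eq_zero.1 h1
  · refine ⟨shift_meas, ?_⟩
    haveI : IsProbabilityMeasure (Measure.map shift (μ : Measure (ℤ → Fin 2))) :=
      Measure.isProbabilityMeasure_map shift_meas.aemeasurable
    apply ext_of_forall_integral_eq_of_IsFiniteMeasure
    intro f
    rw [integral_map shift_meas.aemeasurable f.continuous.aestronglyMeasurable]
    rw [ProbabilityMeasure.tendsto_iff_forall_integral_tendsto] at hμ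
    have t1 := hμ f
    have t2 := hμ (f.compContinuous ⟨shift, shift_cont⟩)
    have t3 := t2.sub t1
    have hU : (U : Filter ℕ) ≤ atTop := Nat.hyperfilter_le_atTop
    have t4 : Tendsto (fun N : ℕ => ∫ x, (f.compContinuous ⟨shift, shift_cont⟩) x ∂(ν N : Measure (ℤ → Fin 2)) -
        ∫ x, f x ∂(ν N : Measure (ℤ → Fin 2))) U (𝓝 0) := by
      have t5 : Tendsto (fun N : ℕ => (2 * ‖f‖) * ((N : ℝ) + 1)⁻¹) U (𝓝 0) := by
        have t6 : Tendsto (fun N : ℕ => (2 * ‖f‖) * ((N : ℝ) + 1)⁻¹) atTop (𝓝 (2 * ‖f‖ * 0)) := by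
          apply Tendsto.const_mul
          apply tendsto_inv_atTop_zero.comp
          exact tendsto_atTop_add_const_right _ _ tendsto_natCast_atTop_atTop
        rw [mul_zero] at t6
        exact t6.mono_left hU
      apply squeeze_zero_norm _ t5
      intro N
      change ‖∫ x, (f.compContinuous ⟨shift, shift_cont⟩) x ∂(emp y N) - ∫ x, f x ∂(emp y N)‖ ≤ _
      rw [emp_integral, emp_integral, ← mul_sub, ← Finset.sum_sub_distrib]
      have h6 : ∑ n ∈ Finset.range (N + 1),
          ((f.compContinuous ⟨shift, shift_cont⟩) (shift^[n] y) - f (shift^[n] y)) =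
          f (shift^[N + 1] y) - f y := by
        have h7 : ∀ n ∈ Finset.range (N + 1),
            ((f.compContinuous ⟨shift, shift_cont⟩) (shift^[n] y) - f (shift^[n] y)) =
            f (shift^[n + 1] y) - f (shift^[n] y) := by
          intro n _
          rw [Function.iterate_succ']
          rfl
        rw [Finset.sum_congr rfl h7, Finset.sum_range_sub (fun n => f (shift^[n] y))]
        rfl
      rw [h6, norm_mul, norm_inv]
      have h8 : ‖(N : ℝ) + 1‖ = (N : ℝ) + 1 := by
        rw [Real.norm_of_nonneg (by positivity)]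
      rw [h8, mul_comm]
      apply mul_le_mul_of_nonneg_right _ (by positivity)
      refine (norm_sub_le _ _).trans ?_
      have := f.norm_coe_le_norm (shift^[N + 1] y)
      have := f.norm_coe_le_norm y
      linarith
    have h5 := tendsto_nhds_unique t3 t4
    have h6 : ∫ x, (f.compContinuous ⟨shift, shift_cont⟩) x ∂(μ : Measure (ℤ → Fin 2)) =
        ∫ x, f (shift x) ∂(μ : Measure (ℤ → Fin 2)) := rfl
    rw [h6] at h5
    linarith

end Pool.Agent.H597R3.Pt
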