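import Pool.Agent.H597R3.Pt7

set_option autoImplicit false

open MeasureTheory Filter Topology
open scoped ENNReal

namespace Pool.Agent.H597R3.Pt

open Pool.Agent.H597R3.PtDefs

lemma shift_iter (n : ℕ) (y : ℤ → Fin 2) (k : ℤ) : (shift^[n] y) k = y (k + n) := by
  induction n generalizing y with
  | zero => simp
  | succ n ih =>
    rw [Function.iterate_succ_apply, ih]
    simp only [shift]
    congr 1
    push_cast
    ring

lemma meas_ne (a b : ℤ) : MeasurableSet {y : ℤ → Fin 2 | y a ≠ y b} := by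
  have h : IsOpen {y : ℤ → Fin 2 | y a ≠ y b} := by
    apply isOpen_ne_fun <;> fun_prop
  exact h.measurableSet

lemma measure_lower {μ : Measure (ℤ → Fin 2)} [IsProbabilityMeasure μ] (h0 : μ HHᶜ = 0)
    (hp : MeasurePreserving shift μ μ) {V a b : ℕ} (hVpos : 0 < V)
    (hV : ∀ A : ℕ, V ≤ 48 * ((Finset.Ico A (A + V)).filter
      (fun i => xs (i + a) ≠ xs (i + b))).card) :
    (1 / 48 : ℝ) ≤ μ.real {y | y (a : ℤ) ≠ y (b : ℤ)} := by
  set D : Set (ℤ → Fin 2) := {y | y (a : ℤ) ≠ y (b : ℤ)} with hD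
  have hDm : MeasurableSet D := meas_ne _ _
  have hi : ∀ i : ℕ, shift^[i] ⁻¹' D = {y | y ((i : ℤ) + a) ≠ y ((i : ℤ) + b)} := by
    intro i
    ext y
    simp only [hD, Set.mem_preimage, Set.mem_ofPred_eq, shift_iter]
    rw [add_comm (a : ℤ), add_comm (b : ℤ)]
  have hm : ∀ i : ℕ, μ (shift^[i] ⁻¹' D) = μ D := fun i =>
    (hp.iterate i).measure_preimage hDm.nullMeasurableSet
  have h1 : (V : ℝ≥0∞) ≤ 48 * (V * μ D) := by
    have e1 : (V : ℝ≥0∞) * μ D = ∑ i ∈ Finset.range V, μ (shift^[i] ⁻¹' D) := by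
      simp [hm]
    have e2 : ∑ i ∈ Finset.range V, μ (shift^[i] ⁻¹' D) =
        ∫⁻ y, ∑ i ∈ Finset.range V, (shift^[i] ⁻¹' D).indicator 1 y ∂μ := by
      rw [lintegral_finsetSum]
      · apply Finset.sum_congr rfl
        intro i _
        rw [lintegral_indicator_one]
        rw [hi]
        exact meas_ne _ _
      · intro i _
        apply measurable_one.indicator
        rw [hi]
        exact meas_ne _ _
    rw [e1, e2, ← lintegral_const_mul']
    · have e3 : (V : ℝ≥0∞) = ∫⁻ _ : (ℤ → Fin 2), (V : ℝ≥0∞) ∂μ := by simp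
      rw [e3]
      apply lintegral_mono_ae
      have hae : ∀ᵐ y ∂μ, y ∈ HH := by
        rw [ae_iff]
        exact h0
      filter_upwards [hae] with y hy
      have h2 := HH_mismatch hV hy
      have h3 : ∑ i ∈ Finset.range V, (shift^[i] ⁻¹' D).indicator (1 : (ℤ → Fin 2) → ℝ≥0∞) y =
          (((Finset.range V).filter (fun i : ℕ => y ((i : ℤ) + a) ≠ y ((i : ℤ) + b))).card : ℝ≥0∞) := by
        rw [Finset.card_filter]
        push_cast
        apply Finset.sum_congr rfl
        intro i _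
        rw [hi]
        simp only [Set.indicator_apply, Set.mem_ofPred_eq, Pi.one_apply]
      rw [h3]
      exact_mod_cast h2
    · norm_num
  have hDt : μ D ≠ ⊤ := measure_ne_top _ _
  have h4 := (ENNReal.toReal_le_toReal (by simp)
    (ENNReal.mul_ne_top (by norm_num) (ENNReal.mul_ne_top (by simp) hDt))).2 h1
  simp only [ENNReal.toReal_natCast, ENNReal.toReal_mul, ENNReal.toReal_ofNat] at h4
  have hVr : (0 : ℝ) < V := by exact_mod_cast hVpos
  rw [measureReal_def]
  nlinarith

end Pool.Agent.H597R3.Pt
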