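import Pool.Agent.H597R3.Pt8

set_option autoImplicit false

open MeasureTheory Filter Topology
open scoped ENNReal goldenRatio Pointwise

namespace Pool.Agent.H597R3.Pt

open Pool.Agent.H597R3.PtDefs

lemma span_compact {E : Type*} [NormedAddCommGroup E] [NormedSpace ℂ E] (U : E →ₗᵢ[ℂ] E) {g : E}
    (hg : g ∈ Submodule.span ℂ {f : E | ∃ c : ℂ, U f = c • f}) :
    ∃ C : Set E, IsCompact C ∧ ∀ n : ℕ, (⇑U)^[n] g ∈ C := by
  induction hg using Submodule.span_induction with
  | mem x hx =>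
    obtain ⟨c, hc⟩ := hx
    by_cases hx0 : x = 0
    · refine ⟨{0}, isCompact_singleton, fun n => ?_⟩
      subst hx0
      rw [Set.mem_singleton_iff]
      induction n with
      | zero => rfl
      | succ n ih => rw [Function.iterate_succ_apply', ih, map_zero]
    · have hc1 : ‖c‖ = 1 := by
        have h1 : ‖U x‖ = ‖x‖ := U.norm_map x
        rw [hc, norm_smul] at h1
        have h2 : ‖x‖ ≠ 0 := norm_ne_zero_iff.2 hx0
        exact mul_right_cancel₀ h2 (by rw [h1, one_mul])
      refine ⟨(fun z : ℂ => z • x) '' Metric.sphere (0 : ℂ) 1, ?_, fun n => ?_⟩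
      · exact (isCompact_sphere 0 1).image (by fun_prop)
      · refine ⟨c ^ n, by simp [hc1], ?_⟩
        induction n with
        | zero => simp
        | succ n ih =>
          rw [Function.iterate_succ_apply', ← ih]
          simp only [map_smul, hc, pow_succ, mul_smul]
  | zero =>
    refine ⟨{0}, isCompact_singleton, fun n => ?_⟩
    rw [Set.mem_singleton_iff]
    induction n with
    | zero => rfl
    | succ n ih => rw [Function.iterate_succ_apply', ih, map_zero]
  | add x y _ _ hx hy =>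
    obtain ⟨C, hC, h1⟩ := hx
    obtain ⟨D, hD, h2⟩ := hy
    refine ⟨C + D, hC.add hD, fun n => ?_⟩
    rw [iterate_map_add]
    exact Set.add_mem_add (h1 n) (h2 n)
  | smul c x _ hx =>
    obtain ⟨C, hC, h1⟩ := hx
    refine ⟨(fun z : E => c • z) '' C, hC.image (by fun_prop), fun n => ?_⟩
    refine ⟨_, h1 n, ?_⟩
    induction n with
    | zero => rfl
    | succ n ih =>
      rw [Function.iterate_succ_apply', Function.iterate_succ_apply', ← ih]
      simp only [map_smul]

lemma not_pp {E : Type*} [NormedAddCommGroup E] [NormedSpace ℂ E] (U : E →ₗᵢ[ℂ] E) {f : E}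
    {δ : ℝ} (hδ : 0 < δ) (n : ℕ → ℕ)
    (hsep : ∀ j l, j < l → δ ≤ dist ((⇑U)^[n j] f) ((⇑U)^[n l] f)) :
    (Submodule.span ℂ {f : E | ∃ c : ℂ, U f = c • f}).topologicalClosure ≠ ⊤ := by
  intro htop
  have hf : f ∈ (Submodule.span ℂ {f : E | ∃ c : ℂ, U f = c • f}).topologicalClosure := by
    rw [htop]
    trivial
  rw [← SetLike.mem_coe, Submodule.topologicalClosure_coe] at hf
  obtain ⟨g, hg, hfg⟩ := Metric.mem_closure_iff.1 hf (δ / 4) (by positivity)
  obtain ⟨C, hC, hCg⟩ := span_compact U hg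
  obtain ⟨a, _, r, hr, hφt⟩ := hC.tendsto_subseq (fun j => hCg (n j))
  have hcs := hφt.cauchySeq
  rw [Metric.cauchySeq_iff] at hcs
  obtain ⟨N, hN⟩ := hcs (δ / 4) (by positivity)
  have h1 := hN N (le_refl _) (N + 1) (Nat.le_succ _)
  have h2 := hsep (r N) (r (N + 1)) (hr (Nat.lt_succ_self N))
  have hiso : ∀ k : ℕ, ∀ x y : E, dist ((⇑U)^[k] x) ((⇑U)^[k] y) = dist x y := by
    intro k x y
    induction k with
    | zero => rfl
    | succ k ih => rw [Function.iterate_succ_apply', Function.iterate_succ_apply', U.dist_map, ih]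
  simp only [Function.comp] at h1
  have h3 : dist ((⇑U)^[n (r N)] f) ((⇑U)^[n (r (N + 1))] f) ≤
      dist ((⇑U)^[n (r N)] f) ((⇑U)^[n (r N)] g) +
      dist ((⇑U)^[n (r N)] g) ((⇑U)^[n (r (N + 1))] g) +
      dist ((⇑U)^[n (r (N + 1))] g) ((⇑U)^[n (r (N + 1))] f) := dist_triangle4 _ _ _ _
  rw [hiso, hiso, dist_comm g f] at h3
  linarith

lemma ms (n : ℤ) : MeasurableSet {y : ℤ → Fin 2 | y n = 1} :=
  ((isClopen_discrete ({1} : Set (Fin 2))).preimage
          (continuous_apply (n : ℤ))).isClosed.measurableSet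

/-- indicator function of a coordinate -/
noncomputable def ind (μ : Measure (ℤ → Fin 2)) [IsProbabilityMeasure μ] (n : ℤ) : Lp ℂ 2 μ :=
  indicatorConstLp 2 (ms n) (measure_ne_top _ _) (1 : ℂ)

lemma iter_ind {μ : Measure (ℤ → Fin 2)} [IsProbabilityMeasure μ]
    (hp : MeasurePreserving shift μ μ) (n : ℕ) :
    (⇑(Lp.compMeasurePreservingₗᵢ (E := ℂ) (p := 2) ℂ shift hp))^[n] (ind μ 0) = ind μ n := by
  induction n with
  | zero => rfl
  | succ n ih =>
    rw [Function.iterate_succ_apply', ih]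
    change Lp.compMeasurePreserving shift hp (ind μ n) = _
    unfold ind
    rw [Lp.indicatorConstLp_compMeasurePreserving]
    rfl

lemma psi_abs : |ψ| < 1 := by
  rw [abs_lt]
  exact ⟨Real.neg_one_lt_goldenConj, Real.goldenConj_neg.trans one_pos⟩

/-- the span of eigenvectors is not dense -/
lemma not_dense {μ : Measure (ℤ → Fin 2)} [IsProbabilityMeasure μ] (h0 : μ HHᶜ = 0)
    (hp : MeasurePreserving shift μ μ) :
    (Submodule.span ℂ {f : Lp ℂ 2 μ | ∃ c : ℂ,
      Lp.compMeasurePreservingₗᵢ (E := ℂ) (p := 2) ℂ shift hp f = c • f}).topologicalClosure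
        ≠ ⊤ := by
  obtain ⟨η, hη0, hη⟩ := eta_exists 32
  have hlim : Tendsto (fun j : ℕ => |ψ ^ j|) atTop (𝓝 0) := by
    have := (tendsto_pow_atTop_nhds_zero_of_abs_lt_one psi_abs).abs
    simpa using this
  obtain ⟨J, hJ⟩ := (hlim.eventually (gt_mem_nhds hη0)).exists_forall_of_atTop
  apply not_pp (Lp.compMeasurePreservingₗᵢ (E := ℂ) (p := 2) ℂ shift hp)
    (f := ind μ 0)
    (δ := 1 / 7) (by norm_num) (fun j => Nat.fib (J + j + 2 + 2))
  intro j l hjl
  rw [iter_ind, iter_ind]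
  unfold ind
  rw [dist_indicatorConstLp_eq_norm, norm_indicatorConstLp (by norm_num)
    (by norm_num)]
  obtain ⟨V, hV0, hV⟩ := mismatch (j := J + j + 2) (l := J + l + 2) hη (hJ _ (by omega))
    (hJ _ (by omega)) (Nat.fib_add_two_strictMono (by omega))
  have h1 := measure_lower h0 hp hV0 hV
  have h2 : symmDiff {y : ℤ → Fin 2 | y ((Nat.fib (J + j + 2 + 2) : ℕ) : ℤ) = 1}
      {y : ℤ → Fin 2 | y ((Nat.fib (J + l + 2 + 2) : ℕ) : ℤ) = 1} =
      {y : ℤ → Fin 2 | y ((Nat.fib (J + j + 2 + 2) : ℕ) : ℤ) ≠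
        y ((Nat.fib (J + l + 2 + 2) : ℕ) : ℤ)} := by
    ext y
    simp only [Set.mem_symmDiff, Set.mem_ofPred_eq]
    generalize y ((Nat.fib (J + j + 2 + 2) : ℕ) : ℤ) = p
    generalize y ((Nat.fib (J + l + 2 + 2) : ℕ) : ℤ) = q
    revert p q
    decide
  rw [h2, norm_one, one_mul]
  simp only [ENNReal.toReal_ofNat]
  rw [← Real.sqrt_eq_rpow]
  apply Real.le_sqrt_of_sq_le
  norm_num
  norm_num at h1
  linarith

/-- no invariant measure on the hull has pure point spectrum -/
lemma not_pure {μ : Measure (ℤ → Fin 2)} [IsProbabilityMeasure μ] (h0 : μ HHᶜ = 0)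
    (hp : MeasurePreserving shift μ μ) : ¬ HasPurePointSpectrum μ := by
  intro hpp
  apply not_dense h0 hp
  rw [eq_top_iff]
  intro f _
  rw [← SetLike.mem_coe, Submodule.topologicalClosure_coe, EMetric.mem_closure_iff]
  intro ε hε
  obtain ⟨n, c, g, hg, hn⟩ := hpp f (Lp.memLp f) ε hε
  refine ⟨∑ i, (hg i).1.toLp (g i), ?_, ?_⟩
  · apply Submodule.sum_mem
    intro i _
    apply Submodule.subset_span
    refine ⟨c i, ?_⟩
    change Lp.compMeasurePreserving shift hp _ = _
    rw [Lp.toLp_compMeasurePreserving, ← MemLp.toLp_const_smul]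
    rw [MemLp.toLp_eq_toLp_iff]
    exact (hg i).2
  · have h1 : (∑ i, (hg i).1.toLp (g i) : Lp ℂ 2 μ) =
        (memLp_finsetSum Finset.univ (fun i _ => (hg i).1)).toLp (fun x => ∑ i, g i x) := by
      apply Lp.ext
      refine Filter.EventuallyEq.trans ?_ (MemLp.coeFn_toLp _).symm
      refine (Lp.coeFn_finsetSum _ _).trans ?_
      have h2 : ∀ᵐ x ∂μ, ∀ i : Fin n, ((hg i).1.toLp (g i) : Lp ℂ 2 μ) x = g i x := by
        rw [ae_all_iff]
        intro i
        exact MemLp.coeFn_toLp _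
      filter_upwards [h2] with x hx
      simp [hx]
    have h3 : f = (Lp.memLp f).toLp f := (Lp.toLp_coeFn f _).symm
    rw [h1]
    nth_rewrite 1 [h3]
    rw [Lp.edist_toLp_toLp]
    exact hn

end Pool.Agent.H597R3.Pt
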