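import Mathlib

/-!
# Polynomials `z ^ m * P (z ^ n)`, `m ≥ 1`: hyperbolicity for large `n`
-/

set_option autoImplicit false

open Set Filter Topology Polynomial Bornology

namespace Pool.Agent.H597R3.Sym

/-- The map given by a polynomial. -/
noncomputable def mp (T : ℂ[X]) : ℂ → ℂ := fun w => T.eval w

/-- The orbit of `z` escapes. -/
def Esc (T : ℂ[X]) (z : ℂ) : Prop := Tendsto (fun k : ℕ => ‖(mp T)^[k] z‖) atTop atTop

/-- The orbit of `z` converges to an attracting fixed point. -/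
def Att (T : ℂ[X]) (z : ℂ) : Prop :=
  ∃ x : ℂ, T.eval x = x ∧ ‖deriv (mp T) x‖ < 1 ∧
    Tendsto (fun k : ℕ => (mp T)^[k] z) atTop (𝓝 x)

def OK (T : ℂ[X]) (z : ℂ) : Prop := Esc T z ∨ Att T z

theorem ok_of_image {T : ℂ[X]} {z : ℂ} (h : OK T (T.eval z)) : OK T z := by
  have e : ∀ k : ℕ, (mp T)^[k + 1] z = (mp T)^[k] (T.eval z) := fun k => by
    rw [Function.iterate_succ_apply]; rfl
  rcases h with h | ⟨x, h1, h2, h3⟩
  · left
    unfold Esc at *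
    rw [← tendsto_add_atTop_iff_nat 1]
    simpa only [e] using h
  · right
    refine ⟨x, h1, h2, ?_⟩
    rw [← tendsto_add_atTop_iff_nat 1]
    simpa only [e] using h3

theorem esc_of_growth {T : ℂ[X]} {s : ℝ} (hs : 0 < s)
    (h : ∀ z : ℂ, s ≤ ‖z‖ → 2 * ‖z‖ ≤ ‖T.eval z‖) {z : ℂ} (hz : s ≤ ‖z‖) : Esc T z := by
  have key : ∀ k : ℕ, s ≤ ‖(mp T)^[k] z‖ ∧ 2 ^ k * s ≤ ‖(mp T)^[k] z‖ := by
    intro k
    induction k with
    | zero => simp [hz]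
    | succ k ih =>
      obtain ⟨h1, h2⟩ := ih
      rw [Function.iterate_succ_apply']
      have h3 := h _ h1
      have h4 : ‖mp T ((mp T)^[k] z)‖ = ‖T.eval ((mp T)^[k] z)‖ := rfl
      rw [h4]
      refine ⟨by linarith, ?_⟩
      rw [pow_succ]
      linarith
  refine tendsto_atTop_mono (fun k => (key k).2) ?_
  exact (tendsto_pow_atTop_atTop_of_one_lt one_lt_two).atTop_mul_const hs

/-- The polynomial `z ^ m * P (z ^ n)`. -/
noncomputable def Tn (P : ℂ[X]) (m n : ℕ) : ℂ[X] := X ^ m * expand ℂ n P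

theorem eval_Tn (P : ℂ[X]) (m n : ℕ) (z : ℂ) : (Tn P m n).eval z = z ^ m * P.eval (z ^ n) := by
  simp [Tn, expand_eval]

theorem norm_Tn (P : ℂ[X]) (m n : ℕ) (z : ℂ) :
    ‖(Tn P m n).eval z‖ = ‖z‖ ^ m * ‖P.eval (z ^ n)‖ := by
  rw [eval_Tn, norm_mul, norm_pow]

theorem bound_of_degree_le {P Q : ℂ[X]} (h : P.degree ≤ Q.degree) :
    ∃ C : ℝ, 0 < C ∧ ∃ R : ℝ, ∀ w : ℂ, R ≤ ‖w‖ → ‖P.eval w‖ ≤ C * ‖Q.eval w‖ := by
  obtain ⟨C, hC, h1⟩ := (isBigO_cobounded_of_degree_le h).exists_pos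
  obtain ⟨R, -, hR⟩ := hasBasis_cobounded_norm.eventually_iff.1 h1.bound
  exact ⟨C, hC, R, fun w hw => hR hw⟩

theorem growth {P : ℂ[X]} (hP : 1 ≤ P.natDegree) :
    ∃ c : ℝ, 0 < c ∧ ∃ R : ℝ, ∀ w : ℂ, R ≤ ‖w‖ → c * ‖w‖ ≤ ‖P.eval w‖ := by
  obtain ⟨C, hC, R, hR⟩ := bound_of_degree_le (P := (X : ℂ[X])) (Q := P) (by
    rw [degree_X, degree_eq_natDegree (by rintro rfl; simp at hP)]
    exact_mod_cast hP)
  refine ⟨C⁻¹, inv_pos.2 hC, R, fun w hw => ?_⟩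
  have := hR w hw
  rw [eval_X] at this
  rw [inv_mul_le_iff₀ hC]
  exact this

/-- All points of modulus close to `ρ` are fine for all large `n`. -/
def Gd (P : ℂ[X]) (m : ℕ) (ρ : ℝ) : Prop :=
  ∃ δ : ℝ, 0 < δ ∧ ∀ᶠ n : ℕ in atTop, ∀ w : ℂ, |‖w‖ - ρ| ≤ δ → OK (Tn P m n) w

theorem esc_uniform {P : ℂ[X]} (hP : 1 ≤ P.natDegree) {s : ℝ} (hs1 : 1 < s) :
    ∀ᶠ n : ℕ in atTop, ∀ m : ℕ, ∀ w : ℂ, s ≤ ‖w‖ → Esc (Tn P m n) w := by
  obtain ⟨c, hc, R, hR⟩ := growth hP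
  have h1 : Tendsto (fun n : ℕ => s ^ n) atTop atTop := tendsto_pow_atTop_atTop_of_one_lt hs1
  filter_upwards [h1.eventually_ge_atTop R, h1.eventually_ge_atTop (2 * s / c),
    eventually_ge_atTop 1] with n h2 h3 h4 m w hw
  apply esc_of_growth (s := s) (by linarith) _ hw
  intro z hz
  rw [norm_Tn]
  have hz1 : 1 < ‖z‖ := by linarith
  have h5 : s ^ n ≤ ‖z ^ n‖ := by rw [norm_pow]; exact pow_le_pow_left₀ (by linarith) hz n
  have h6 := hR (z ^ n) (h2.trans h5)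
  have h7 : 1 ≤ ‖z‖ ^ m := one_le_pow₀ hz1.le
  obtain ⟨k, rfl⟩ : ∃ k, n = k + 1 := ⟨n - 1, by omega⟩
  have h8 : 2 ≤ c * s ^ k := by
    rw [div_le_iff₀ hc, pow_succ] at h3
    have : 2 * s ≤ (c * s ^ k) * s := by linarith
    exact le_of_mul_le_mul_right this (by linarith)
  have h9 : s ^ k ≤ ‖z‖ ^ k := pow_le_pow_left₀ (by linarith) hz k
  have h10 : ‖z ^ (k + 1)‖ = ‖z‖ ^ k * ‖z‖ := by rw [norm_pow, pow_succ]
  have h11 : 2 * ‖z‖ ≤ c * ‖z ^ (k + 1)‖ := by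
    rw [h10]
    have h12 : c * s ^ k ≤ c * ‖z‖ ^ k := mul_le_mul_of_nonneg_left h9 hc.le
    calc 2 * ‖z‖ ≤ (c * ‖z‖ ^ k) * ‖z‖ := mul_le_mul_of_nonneg_right (by linarith) (by linarith)
      _ = _ := by ring
  have h12 : 0 ≤ ‖P.eval (z ^ (k + 1))‖ := norm_nonneg _
  nlinarith

theorem gd_big {P : ℂ[X]} (hP : 1 ≤ P.natDegree) (m : ℕ) {ρ : ℝ} (hρ : 1 < ρ) : Gd P m ρ := by
  refine ⟨(ρ - 1) / 2, by linarith, ?_⟩
  filter_upwards [esc_uniform hP (s := (1 + ρ) / 2) (by linarith)] with n h w hw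
  have := (abs_le.1 hw).1
  exact Or.inl (h m w (by linarith))

/-- A disc on which `z ^ m * P (z ^ n)` decreases the modulus. -/
theorem att_zero {P : ℂ[X]} {m n : ℕ} (hm : 1 ≤ m) {σ κ : ℝ} (hσ : 0 < σ) (hκ0 : 0 ≤ κ)
    (h5 : κ < 1) (key : ∀ z : ℂ, ‖z‖ ≤ σ → ‖(Tn P m n).eval z‖ ≤ κ * ‖z‖) {w : ℂ}
    (hw : ‖w‖ ≤ σ) : Att (Tn P m n) w := by
  have hT0 : (Tn P m n).eval 0 = 0 := by rw [eval_Tn, zero_pow (by omega), zero_mul]
  refine ⟨0, hT0, ?_, ?_⟩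
  · refine lt_of_le_of_lt (norm_deriv_le_of_lip' (C := κ) hκ0 ?_) h5
    filter_upwards [Metric.ball_mem_nhds (0:ℂ) hσ] with x hx
    rw [mem_ball_zero_iff] at hx
    have := key x hx.le
    have e0 : mp (Tn P m n) 0 = 0 := hT0
    rw [e0, sub_zero, sub_zero]
    exact this
  · have it : ∀ k : ℕ, ‖(mp (Tn P m n))^[k] w‖ ≤ κ ^ k * ‖w‖ ∧
        ‖(mp (Tn P m n))^[k] w‖ ≤ σ := by
      intro k
      induction k with
      | zero => simpa using hw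
      | succ k ih =>
        obtain ⟨i1, i2⟩ := ih
        rw [Function.iterate_succ_apply']
        have i3 : ‖mp (Tn P m n) ((mp (Tn P m n))^[k] w)‖ ≤ κ * ‖(mp (Tn P m n))^[k] w‖ :=
          key _ i2
        refine ⟨?_, ?_⟩
        · calc _ ≤ κ * ‖(mp (Tn P m n))^[k] w‖ := i3
            _ ≤ κ * (κ ^ k * ‖w‖) := by gcongr
            _ = _ := by ring
        · calc _ ≤ κ * ‖(mp (Tn P m n))^[k] w‖ := i3
            _ ≤ 1 * ‖(mp (Tn P m n))^[k] w‖ := by gcongr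
            _ ≤ σ := by rw [one_mul]; exact i2
    rw [tendsto_zero_iff_norm_tendsto_zero]
    refine squeeze_zero (fun k => norm_nonneg _) (fun k => (it k).1) ?_
    simpa using (tendsto_pow_atTop_nhds_zero_of_lt_one hκ0 h5).mul_const ‖w‖

/-- For large `m` every disc of radius smaller than `1` is attracted by `0`. -/
theorem att_large (P : ℂ[X]) {σ : ℝ} (h0 : 0 < σ) (h1 : σ < 1) :
    ∀ᶠ m : ℕ in atTop, ∀ n : ℕ, ∀ w : ℂ, ‖w‖ ≤ σ → Att (Tn P m n) w := by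
  obtain ⟨B, hB⟩ := (isCompact_closedBall (0 : ℂ) 1).exists_bound_of_continuousOn
    (f := fun y : ℂ => P.eval y) (by fun_prop)
  have h2 : Tendsto (fun m : ℕ => σ ^ (m - 1) * B) atTop (𝓝 0) := by
    have := ((tendsto_pow_atTop_nhds_zero_of_lt_one h0.le h1).comp
      (tendsto_sub_atTop_nat 1)).mul_const B
    simpa using this
  filter_upwards [h2.eventually_lt_const (by norm_num : (0:ℝ) < 1 / 2), eventually_ge_atTop 1]
    with m h3 h4 n w hw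
  refine att_zero h4 h0 (κ := 1 / 2) (by norm_num) (by norm_num) ?_ hw
  intro z hz
  rw [norm_Tn]
  have b1 : ‖P.eval (z ^ n)‖ ≤ B := by
    apply hB
    rw [mem_closedBall_zero_iff, norm_pow]
    exact pow_le_one₀ (norm_nonneg _) (by linarith)
  have a2 : ‖z‖ ^ (m - 1) ≤ σ ^ (m - 1) := pow_le_pow_left₀ (norm_nonneg _) hz _
  have a3 : ‖z‖ ^ m = ‖z‖ ^ (m - 1) * ‖z‖ := by rw [← pow_succ]; congr 1; omega
  have hB0 : 0 ≤ B := (norm_nonneg _).trans b1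
  calc ‖z‖ ^ m * ‖P.eval (z ^ n)‖ ≤ ‖z‖ ^ m * B := by gcongr
    _ = ‖z‖ ^ (m - 1) * B * ‖z‖ := by rw [a3]; ring
    _ ≤ σ ^ (m - 1) * B * ‖z‖ := by gcongr
    _ ≤ 1 / 2 * ‖z‖ := by gcongr

theorem small_pow (P : ℂ[X]) {σ δ : ℝ} (h0 : 0 ≤ σ) (h1 : σ < 1) (hδ : 0 < δ) :
    ∀ᶠ n : ℕ in atTop, ∀ w : ℂ, ‖w‖ ≤ σ → ‖P.eval (w ^ n) - P.eval 0‖ ≤ δ := by
  have hc : ContinuousAt (fun y : ℂ => P.eval y) 0 := P.continuous.continuousAt
  obtain ⟨η, hη, h2⟩ := Metric.continuousAt_iff.1 hc δ hδ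
  have h3 := (tendsto_pow_atTop_nhds_zero_of_lt_one h0 h1).eventually_lt_const hη
  filter_upwards [h3] with n hn w hw
  have h4 : dist (w ^ n) 0 < η := by
    rw [dist_zero_right, norm_pow]
    exact (pow_le_pow_left₀ (norm_nonneg _) hw n).trans_lt hn
  have := h2 h4
  rw [dist_eq_norm] at this
  exact this.le

theorem gd_small {P : ℂ[X]} {m : ℕ} (hm : 1 ≤ m) {ρ : ℝ} (h0 : 0 ≤ ρ) (h1 : ρ < 1)
    (h2 : ρ ^ (m - 1) * ‖P.eval 0‖ < 1) : Gd P m ρ := by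
  have h3 : ∀ᶠ δ : ℝ in 𝓝 0, (ρ + δ) ^ (m - 1) * (‖P.eval 0‖ + δ) < 1 := by
    have hcont : ContinuousAt (fun δ : ℝ => (ρ + δ) ^ (m - 1) * (‖P.eval 0‖ + δ)) 0 := by fun_prop
    apply hcont.eventually_lt continuousAt_const
    simpa using h2
  have h4 : ∀ᶠ δ : ℝ in 𝓝 0, ρ + δ < 1 := by
    apply (by fun_prop : ContinuousAt (fun δ : ℝ => ρ + δ) 0).eventually_lt continuousAt_const
    simpa using h1
  have h34 : ∀ᶠ δ : ℝ in 𝓝[>] 0, ((ρ + δ) ^ (m - 1) * (‖P.eval 0‖ + δ) < 1 ∧ ρ + δ < 1) ∧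
      0 < δ := by
    have := (h3.and h4).filter_mono (nhdsWithin_le_nhds (s := Ioi (0:ℝ)))
    exact this.and self_mem_nhdsWithin
  obtain ⟨δ, ⟨h5, h6⟩, h7⟩ := h34.exists
  set κ : ℝ := (ρ + δ) ^ (m - 1) * (‖P.eval 0‖ + δ) with hκ
  have hκ0 : 0 ≤ κ := by rw [hκ]; positivity
  refine ⟨δ, h7, ?_⟩
  filter_upwards [small_pow P (σ := ρ + δ) (by linarith) h6 h7] with n hn w hw
  right
  have key : ∀ z : ℂ, ‖z‖ ≤ ρ + δ → ‖(Tn P m n).eval z‖ ≤ κ * ‖z‖ := by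
    intro z hz
    rw [norm_Tn]
    have a1 : ‖P.eval (z ^ n)‖ ≤ ‖P.eval 0‖ + δ := by
      have b1 := hn z hz
      have b2 := norm_sub_norm_le (P.eval (z ^ n)) (P.eval 0)
      linarith
    have a2 : ‖z‖ ^ (m - 1) ≤ (ρ + δ) ^ (m - 1) := pow_le_pow_left₀ (norm_nonneg _) hz _
    have a3 : ‖z‖ ^ m = ‖z‖ ^ (m - 1) * ‖z‖ := by
      rw [← pow_succ]; congr 1; omega
    have a4 : 0 ≤ ‖P.eval 0‖ + δ := by positivity
    calc ‖z‖ ^ m * ‖P.eval (z ^ n)‖ ≤ ‖z‖ ^ m * (‖P.eval 0‖ + δ) := by gcongr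
      _ = ‖z‖ ^ (m - 1) * (‖P.eval 0‖ + δ) * ‖z‖ := by rw [a3]; ring
      _ ≤ (ρ + δ) ^ (m - 1) * (‖P.eval 0‖ + δ) * ‖z‖ := by gcongr
      _ = _ := by rw [hκ]
  have := (abs_le.1 hw).2
  exact att_zero hm (by linarith) hκ0 h5 key (by linarith)

theorem tendsto_n_pow {r : ℝ} (hr0 : 0 < r) (hr1 : r < 1) :
    Tendsto (fun n : ℕ => (n : ℝ) * r ^ (n - 1)) atTop (𝓝 0) := by
  have h1 := (tendsto_pow_const_mul_const_pow_of_lt_one 1 hr0.le hr1).const_mul r⁻¹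
  rw [mul_zero] at h1
  refine h1.congr' ?_
  filter_upwards [eventually_ge_atTop 1] with n hn
  obtain ⟨m, rfl⟩ : ∃ m, n = m + 1 := ⟨n - 1, by omega⟩
  rw [Nat.add_sub_cancel, pow_succ r m]
  field_simp

/-- A contraction of a closed disc. -/
theorem disc_contraction {H : ℂ → ℂ} {r q : ℝ} (hq0 : 0 ≤ q) (hq : q < 1)
    (hm : ∀ x : ℂ, ‖x‖ ≤ r → ‖H x‖ ≤ r)
    (hl : ∀ x y : ℂ, ‖x‖ ≤ r → ‖y‖ ≤ r → ‖H x - H y‖ ≤ q * ‖x - y‖) {w : ℂ} (hw : ‖w‖ ≤ r) :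
    ∃ p : ℂ, ‖p‖ ≤ r ∧ H p = p ∧ Tendsto (fun k : ℕ => H^[k] w) atTop (𝓝 p) := by
  have hmaps : MapsTo H (Metric.closedBall (0 : ℂ) r) (Metric.closedBall (0 : ℂ) r) := by
    intro x hx
    rw [mem_closedBall_zero_iff] at hx ⊢
    exact hm x hx
  have hcomp : IsComplete (Metric.closedBall (0 : ℂ) r) := (Metric.isClosed_closedBall).isComplete
  have hK : ContractingWith (⟨q, hq0⟩ : NNReal) (hmaps.restrict H _ _) := by
    refine ⟨by exact_mod_cast hq, ?_⟩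
    refine LipschitzWith.of_dist_le_mul ?_
    intro x y
    have hx := mem_closedBall_zero_iff.1 x.2
    have hy := mem_closedBall_zero_iff.1 y.2
    rw [Subtype.dist_eq, Subtype.dist_eq, dist_eq_norm, dist_eq_norm]
    exact hl _ _ hx hy
  obtain ⟨p, hp, hfix, hpt, -⟩ := ContractingWith.exists_fixedPoint' hcomp hmaps hK
    (x := w) (mem_closedBall_zero_iff.2 hw) (edist_ne_top _ _)
  exact ⟨p, mem_closedBall_zero_iff.1 hp, hfix, hpt⟩

theorem gd_small_zero {P : ℂ[X]} {ρ : ℝ} (h1 : ρ < 1) (h2 : ‖P.eval 0‖ < 1) : Gd P 0 ρ := by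
  obtain ⟨r, hr1, hr2⟩ := exists_between (max_lt h1 h2)
  have hρr : ρ < r := (le_max_left _ _).trans_lt hr1
  have har : ‖P.eval 0‖ < r := (le_max_right _ _).trans_lt hr1
  have hr0 : 0 < r := (norm_nonneg _).trans_lt har
  obtain ⟨L, hL⟩ := (isCompact_closedBall (0 : ℂ) 1).exists_bound_of_continuousOn
    (f := fun y : ℂ => (derivative P).eval y) (by fun_prop)
  have hL0 : 0 ≤ L := (norm_nonneg _).trans (hL 0 (by simp))
  have ht := (tendsto_n_pow hr0 hr2).mul_const L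
  rw [zero_mul] at ht
  refine ⟨r - ρ, by linarith, ?_⟩
  filter_upwards [small_pow P hr0.le hr2 (by linarith : 0 < (r - ‖P.eval 0‖) / 2),
    ht.eventually_lt_const (by norm_num : (0:ℝ) < 1 / 2), eventually_ge_atTop 1]
    with n hn1 hn2 hn3 w hw
  right
  set T := Tn P 0 n with hT
  have hTe : ∀ z : ℂ, T.eval z = P.eval (z ^ n) := fun z => by rw [hT, eval_Tn]; simp
  have hmaps : ∀ x : ℂ, ‖x‖ ≤ r → ‖T.eval x‖ < r := by
    intro x hx
    have b1 := hn1 x hx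
    have b2 := norm_sub_norm_le (P.eval (x ^ n)) (P.eval 0)
    rw [hTe]
    linarith
  have hder : ∀ x : ℂ, ‖x‖ ≤ r → ‖deriv (fun z : ℂ => T.eval z) x‖ ≤ 1 / 2 := by
    intro x hx
    rw [Polynomial.deriv, hT, Tn, pow_zero, one_mul, derivative_expand]
    simp only [eval_mul, expand_eval, eval_natCast, eval_pow, eval_X]
    have c1 : ‖(derivative P).eval (x ^ n)‖ ≤ L := by
      apply hL
      rw [mem_closedBall_zero_iff, norm_pow]
      exact pow_le_one₀ (norm_nonneg _) (by linarith)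
    have c2 : ‖x‖ ^ (n - 1) ≤ r ^ (n - 1) := pow_le_pow_left₀ (norm_nonneg _) hx _
    rw [norm_mul, norm_mul, norm_pow, Complex.norm_natCast]
    calc ‖(derivative P).eval (x ^ n)‖ * (n * ‖x‖ ^ (n - 1)) ≤ L * (n * r ^ (n - 1)) := by gcongr
      _ = n * r ^ (n - 1) * L := by ring
      _ ≤ 1 / 2 := hn2.le
  have hlip : ∀ x y : ℂ, ‖x‖ ≤ r → ‖y‖ ≤ r → ‖T.eval x - T.eval y‖ ≤ 1 / 2 * ‖x - y‖ := by
    intro x y hx hy
    exact (convex_closedBall (0 : ℂ) r).norm_image_sub_le_of_norm_deriv_le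
      (f := fun y => T.eval y) (fun x _ => T.differentiableAt)
      (fun x hx => hder x (mem_closedBall_zero_iff.1 hx))
      (mem_closedBall_zero_iff.2 hy) (mem_closedBall_zero_iff.2 hx)
  have hwr : ‖w‖ ≤ r := by have := (abs_le.1 hw).2; linarith
  obtain ⟨p, hp, hfix, hpt⟩ := disc_contraction (H := mp T) (q := 1 / 2) (by norm_num)
    (by norm_num) (fun x hx => (hmaps x hx).le) hlip hwr
  refine ⟨p, hfix, ?_, hpt⟩
  exact lt_of_le_of_lt (hder p hp) (by norm_num)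

theorem gd_step {P : ℂ[X]} {m : ℕ} {ρ : ℝ} (h0 : 0 ≤ ρ) (h1 : ρ < 1)
    (h : Gd P m (‖P.eval 0‖ * ρ ^ m)) : Gd P m ρ := by
  obtain ⟨δ', hδ', h2⟩ := h
  have hcont : ContinuousAt (fun q : ℝ × ℝ => q.1 ^ m * q.2) (ρ, ‖P.eval 0‖) := by fun_prop
  obtain ⟨η, hη, h3⟩ := Metric.continuousAt_iff.1 hcont δ' hδ'
  refine ⟨min (η / 2) ((1 - ρ) / 2), lt_min (by linarith) (by linarith), ?_⟩
  filter_upwards [h2, small_pow P (σ := (1 + ρ) / 2) (by linarith) (by linarith) (half_pos hη)]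
    with n h4 h5 w hw
  have hw1 := hw.trans (min_le_left _ _)
  have hw2 := (abs_le.1 (hw.trans (min_le_right _ _))).2
  apply ok_of_image
  apply h4
  rw [norm_Tn]
  have a1 := h5 w (by linarith)
  have a2 : |‖P.eval (w ^ n)‖ - ‖P.eval 0‖| ≤ η / 2 := (abs_norm_sub_norm_le _ _).trans a1
  have a3 : dist ((‖w‖, ‖P.eval (w ^ n)‖) : ℝ × ℝ) (ρ, ‖P.eval 0‖) < η := by
    rw [Prod.dist_eq, max_lt_iff, Real.dist_eq, Real.dist_eq]
    exact ⟨by linarith, by linarith⟩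
  have a4 := h3 a3
  rw [Real.dist_eq] at a4
  rw [mul_comm ‖P.eval 0‖]
  exact a4.le

theorem gd_orbit {P : ℂ[X]} (hP : 1 ≤ P.natDegree) (m : ℕ) : ∀ k : ℕ, ∀ ρ : ℝ, 0 ≤ ρ →
    1 < (fun x : ℝ => ‖P.eval 0‖ * x ^ m)^[k] ρ →
    (∀ j : ℕ, (fun x : ℝ => ‖P.eval 0‖ * x ^ m)^[j] ρ ≠ 1) → Gd P m ρ := by
  intro k
  induction k with
  | zero => intro ρ _ h _; exact gd_big hP m h
  | succ k ih =>
    intro ρ h0 h h2
    rcases lt_trichotomy ρ 1 with h3 | h3 | h3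
    · apply gd_step h0 h3
      apply ih _ (by positivity)
      · rwa [Function.iterate_succ_apply] at h
      · intro j
        have := h2 (j + 1)
        rwa [Function.iterate_succ_apply] at this
    · exact absurd h3 (h2 0)
    · exact gd_big hP m h3

theorem gd_generic {P : ℂ[X]} (hP : 1 ≤ P.natDegree) {m : ℕ} {ρ : ℝ} (h0 : 0 < ρ)
    (h1 : ‖P.eval 0‖ ^ 1 * ρ ^ (m - 1) ≠ 1)
    (h2 : ∀ j : ℕ, (fun x : ℝ => ‖P.eval 0‖ * x ^ m)^[j] ρ ≠ 1) : Gd P m ρ := by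
  rw [pow_one] at h1
  rcases Nat.eq_zero_or_pos m with rfl | hm
  · rw [Nat.zero_sub, pow_zero, mul_one] at h1
    rcases lt_or_gt_of_ne (h2 0) with h3 | h3
    · rcases lt_or_gt_of_ne h1 with h4 | h4
      · exact gd_small_zero h3 h4
      · apply gd_step h0.le h3
        rw [pow_zero, mul_one]
        exact gd_big hP 0 h4
    · exact gd_big hP 0 h3
  rcases lt_trichotomy ρ 1 with h3 | h3 | h3
  · rcases lt_or_gt_of_ne h1 with h4 | h4
    · exact gd_small hm h0.le h3 (by rwa [mul_comm])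
    · set q : ℝ := ‖P.eval 0‖ * ρ ^ (m - 1) with hq
      have key : ∀ k : ℕ, q ^ k * ρ ≤ (fun x : ℝ => ‖P.eval 0‖ * x ^ m)^[k] ρ := by
        intro k
        induction k with
        | zero => simp
        | succ k ih =>
          rw [Function.iterate_succ_apply']
          set y := (fun x : ℝ => ‖P.eval 0‖ * x ^ m)^[k] ρ with hy
          have hq1 : 1 ≤ q ^ k := one_le_pow₀ h4.le
          have hρy : ρ ≤ y := by nlinarith
          have e1 : ‖P.eval 0‖ * y ^ m = (‖P.eval 0‖ * y ^ (m - 1)) * y := by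
            rw [mul_assoc, ← pow_succ]; congr 2; omega
          have e2 : q ≤ ‖P.eval 0‖ * y ^ (m - 1) := by
            rw [hq]; gcongr
          show q ^ (k + 1) * ρ ≤ ‖P.eval 0‖ * y ^ m
          rw [e1]
          calc q ^ (k + 1) * ρ = q * (q ^ k * ρ) := by ring
            _ ≤ q * y := by gcongr
            _ ≤ _ := by gcongr; linarith
      have ht : Tendsto (fun k : ℕ => q ^ k * ρ) atTop atTop :=
        (tendsto_pow_atTop_atTop_of_one_lt h4).atTop_mul_const h0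
      obtain ⟨k, hk⟩ := (ht.eventually_gt_atTop 1).exists
      exact gd_orbit hP m k ρ h0.le (hk.trans_le (key k)) h2
  · exact absurd h3 (h2 0)
  · exact gd_big hP m h3

theorem iter_form (m : ℕ) (k : ℕ) : ∃ e f : ℕ, 1 ≤ e + f ∧ ∀ α ρ : ℝ,
    (fun x : ℝ => α * x ^ m)^[k] ρ = α ^ e * ρ ^ f := by
  induction k with
  | zero => exact ⟨0, 1, le_rfl, by simp⟩
  | succ k ih =>
    obtain ⟨e, f, hf, h⟩ := ih
    refine ⟨1 + e * m, f * m, by omega, fun α ρ => ?_⟩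
    rw [Function.iterate_succ_apply', h]
    ring

end Pool.Agent.H597R3.Sym
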