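import Pool.Agent.H597R3.Sym

/-!
# Polynomials `z ^ m * P (z ^ n)`: critical points
-/

set_option autoImplicit false

open Set Filter Topology Polynomial Bornology

namespace Pool.Agent.H597R3.Sym

/-- The marked values of `P`: the value at `0` and the critical values. -/
def V (P : ℂ[X]) : Set ℂ :=
  insert (P.eval 0) ((fun y => P.eval y) '' {y | (derivative P).eval y = 0})

theorem derivative_ne {P : ℂ[X]} (hP : 1 ≤ P.natDegree) : derivative P ≠ 0 := by
  intro h
  have := natDegree_eq_zero_of_derivative_eq_zero h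
  omega

theorem V_finite {P : ℂ[X]} (hP : 1 ≤ P.natDegree) : (V P).Finite := by
  apply Set.Finite.insert
  apply Set.Finite.image
  exact finite_setOfPred_isRoot (derivative_ne hP)

theorem degree_X_mul_derivative {P : ℂ[X]} (hP : 1 ≤ P.natDegree) :
    P.degree ≤ (X * derivative P).degree ∧ 1 ≤ (X * derivative P).natDegree := by
  have h0 : X * derivative P ≠ 0 := mul_ne_zero X_ne_zero (derivative_ne hP)
  have h1 : (X * derivative P).natDegree = P.natDegree := by
    rw [natDegree_mul X_ne_zero (derivative_ne hP), natDegree_X, natDegree_derivative]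
    omega
  refine ⟨?_, by omega⟩
  rw [degree_eq_natDegree h0, degree_eq_natDegree (by rintro rfl; simp at hP), h1]

theorem near_mark {P : ℂ[X]} (hP : 1 ≤ P.natDegree) (m : ℕ) : ∃ R : ℝ, 1 ≤ R ∧
    ∀ δ : ℝ, 0 < δ → ∀ᶠ n : ℕ in atTop, ∀ y : ℂ,
      (m : ℂ) * P.eval y + n * (y * (derivative P).eval y) = 0 →
      ‖y‖ ≤ R ∧ ∃ v ∈ V P, |‖P.eval y‖ - ‖v‖| < δ := by
  obtain ⟨hd1, hd2⟩ := degree_X_mul_derivative hP
  obtain ⟨C, hC, R₁, hR₁⟩ := bound_of_degree_le hd1
  obtain ⟨c, hc, R₂, hR₂⟩ := growth hd2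
  set R : ℝ := max 1 (max R₁ R₂) with hR
  refine ⟨R, le_max_left _ _, fun δ hδ => ?_⟩
  have hnorm : ∀ n : ℕ, ∀ y : ℂ, (m : ℂ) * P.eval y + n * (y * (derivative P).eval y) = 0 →
      (n : ℝ) * ‖y * (derivative P).eval y‖ = m * ‖P.eval y‖ := by
    intro n y hy
    have h1 : (n : ℂ) * (y * (derivative P).eval y) = -((m : ℂ) * P.eval y) := by
      linear_combination hy
    have h2 := congrArg norm h1
    rw [norm_neg, norm_mul, norm_mul (m : ℂ), Complex.norm_natCast, Complex.norm_natCast] at h2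
    exact h2
  -- the bound
  have hb : ∀ᶠ n : ℕ in atTop, ∀ y : ℂ,
      (m : ℂ) * P.eval y + n * (y * (derivative P).eval y) = 0 → ‖y‖ ≤ R := by
    have h1 : Tendsto (fun n : ℕ => (n : ℝ)) atTop atTop := tendsto_natCast_atTop_atTop
    filter_upwards [h1.eventually_gt_atTop (m * C)] with n hn y hy
    by_contra hcon
    push Not at hcon
    have h2 : 1 < ‖y‖ := (le_max_left _ _).trans_lt hcon
    have h3 : R₁ ≤ ‖y‖ := ((le_max_left R₁ R₂).trans (le_max_right 1 _)).trans hcon.le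
    have h4 : R₂ ≤ ‖y‖ := ((le_max_right R₁ R₂).trans (le_max_right 1 _)).trans hcon.le
    have h5 := hR₁ y h3
    have h6 := hR₂ y h4
    rw [eval_mul, eval_X] at h5 h6
    have h7 : 0 < ‖y * (derivative P).eval y‖ := by
      have : 0 < c * ‖y‖ := by positivity
      linarith
    have h8 := hnorm n y hy
    have h9 : (m : ℝ) * ‖P.eval y‖ ≤ m * (C * ‖y * (derivative P).eval y‖) := by gcongr
    nlinarith
  -- the compact set
  set K : Set ℂ := {y | ‖y‖ ≤ R ∧ ∀ v ∈ V P, δ ≤ |‖P.eval y‖ - ‖v‖|} with hK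
  have hKc : IsCompact K := by
    apply (isCompact_closedBall (0 : ℂ) R).of_isClosed_subset
    · have h1 : K = {y | ‖y‖ ≤ R} ∩ ⋂ v ∈ V P, {y : ℂ | δ ≤ |‖P.eval y‖ - ‖v‖|} := by
        ext y; simp [hK]
      rw [h1]
      apply (isClosed_le continuous_norm continuous_const).inter
      apply isClosed_biInter
      intro v _
      exact isClosed_le continuous_const (by fun_prop)
    · intro y hy
      simpa using hy.1
  have hK0 : ∀ y ∈ K, 0 < ‖y * (derivative P).eval y‖ := by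
    intro y hy
    rw [norm_pos_iff]
    intro h0
    rcases mul_eq_zero.1 h0 with h | h
    · have := hy.2 (P.eval 0) (mem_insert _ _)
      rw [h, sub_self, abs_zero] at this
      linarith
    · have := hy.2 (P.eval y) (mem_insert_of_mem _ ⟨y, h, rfl⟩)
      rw [sub_self, abs_zero] at this
      linarith
  have hfar : ∀ᶠ n : ℕ in atTop, ∀ y ∈ K,
      (m : ℂ) * P.eval y + n * (y * (derivative P).eval y) ≠ 0 := by
    rcases K.eq_empty_or_nonempty with h | h
    · rw [h]; simp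
    · obtain ⟨y₀, hy₀, hmin⟩ := hKc.exists_isMinOn h
        (f := fun y : ℂ => ‖y * (derivative P).eval y‖) (by fun_prop)
      obtain ⟨B, hB⟩ := hKc.exists_bound_of_continuousOn
        (f := fun y : ℂ => P.eval y) (by fun_prop)
      have h1 : Tendsto (fun n : ℕ => (n : ℝ)) atTop atTop := tendsto_natCast_atTop_atTop
      filter_upwards [h1.eventually_gt_atTop (m * B / ‖y₀ * (derivative P).eval y₀‖)]
        with n hn y hy heq
      rw [div_lt_iff₀ (hK0 y₀ hy₀)] at hn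
      have h2 := hnorm n y heq
      have h3 : ‖y₀ * (derivative P).eval y₀‖ ≤ ‖y * (derivative P).eval y‖ := hmin hy
      have h4 : (n : ℝ) * ‖y₀ * (derivative P).eval y₀‖ ≤ n * ‖y * (derivative P).eval y‖ := by
        gcongr
      have h5 : (m : ℝ) * ‖P.eval y‖ ≤ m * B := by
        gcongr; exact hB y hy
      linarith
  filter_upwards [hb, hfar] with n h1 h2 y hy
  refine ⟨h1 y hy, ?_⟩
  by_contra hcon
  push Not at hcon
  exact h2 y ⟨h1 y hy, hcon⟩ hy

theorem pow_upper (m : ℕ) {R δ : ℝ} (hδ : 0 < δ) :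
    ∀ᶠ n : ℕ in atTop, ∀ x : ℝ, 0 ≤ x → x ^ n ≤ R → x ^ m ≤ 1 + δ := by
  have h := (tendsto_pow_atTop_atTop_of_one_lt (by linarith : 1 < 1 + δ)).eventually_gt_atTop
    (R ^ m)
  filter_upwards [h] with n hn x hx hxn
  by_contra hcon
  push Not at hcon
  have h1 : (1 + δ) ^ n ≤ (x ^ m) ^ n := pow_le_pow_left₀ (by linarith) hcon.le n
  have h2 : (x ^ m) ^ n = (x ^ n) ^ m := by rw [← pow_mul, ← pow_mul, mul_comm]
  have h3 : (x ^ n) ^ m ≤ R ^ m := pow_le_pow_left₀ (by positivity) hxn m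
  linarith

theorem pow_lower (m : ℕ) {c δ : ℝ} (hc : 0 < c) :
    ∀ᶠ n : ℕ in atTop, 0 < δ → ∀ x : ℝ, 0 ≤ x → c ≤ n * x ^ n → 1 - δ ≤ x ^ m := by
  rcases le_or_gt δ 0 with h0 | h0
  · exact Eventually.of_forall fun n h => absurd h (not_lt.2 h0)
  rcases le_or_gt 1 δ with h | h
  · exact Eventually.of_forall fun n _ x hx _ => by have := pow_nonneg hx m; linarith
  have h1 := (tendsto_pow_const_mul_const_pow_of_lt_one m (by linarith : 0 ≤ 1 - δ)
    (by linarith)).eventually_lt_const (pow_pos hc m)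
  filter_upwards [h1] with n hn _ x hx hxn
  by_contra hcon
  push Not at hcon
  have h2 : (x ^ m) ^ n ≤ (1 - δ) ^ n := pow_le_pow_left₀ (by positivity) hcon.le n
  have h3 : c ^ m ≤ (n * x ^ n) ^ m := pow_le_pow_left₀ hc.le hxn m
  have h4 : ((n : ℝ) * x ^ n) ^ m = n ^ m * (x ^ m) ^ n := by
    rw [mul_pow]; congr 1; rw [← pow_mul, ← pow_mul, mul_comm]
  have h5 : (n : ℝ) ^ m * (x ^ m) ^ n ≤ n ^ m * (1 - δ) ^ n := by gcongr
  linarith

theorem deriv_Tn (P : ℂ[X]) {m n : ℕ} (hm : 1 ≤ m) (hn : 1 ≤ n) (z : ℂ) :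
    z * (derivative (Tn P m n)).eval z = z ^ m * ((m : ℂ) * P.eval (z ^ n) +
      n * (z ^ n * (derivative P).eval (z ^ n))) := by
  obtain ⟨m, rfl⟩ : ∃ k, m = k + 1 := ⟨m - 1, by omega⟩
  obtain ⟨n, rfl⟩ : ∃ k, n = k + 1 := ⟨n - 1, by omega⟩
  rw [Tn, derivative_mul, derivative_X_pow, derivative_expand]
  simp only [eval_add, eval_mul, eval_C, eval_pow, eval_X, expand_eval, eval_natCast,
    Nat.add_sub_cancel, Nat.cast_add, Nat.cast_one, eval_one]
  ring

theorem att_of_fixed_crit {T : ℂ[X]} {z : ℂ} (h0 : T.eval z = z)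
    (hz : (derivative T).eval z = 0) : Att T z := by
  refine ⟨z, h0, ?_, ?_⟩
  · have : deriv (mp T) z = (derivative T).eval z := Polynomial.deriv _
    rw [this, hz, norm_zero]
    exact one_pos
  · have : ∀ k : ℕ, (mp T)^[k] z = z := fun k => Function.iterate_fixed h0 k
    simp only [this]
    exact tendsto_const_nhds

theorem hyp_of_gd {P : ℂ[X]} (hP : 1 ≤ P.natDegree) {m : ℕ}
    (hv : ∀ v ∈ V P, v ≠ 0 ∧ Gd P m ‖v‖) :
    ∀ᶠ n : ℕ in atTop, ∀ c : ℂ, (derivative (Tn P m n)).eval c = 0 → OK (Tn P m n) c := by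
  have hfin := V_finite hP
  choose! δv hδv hG using fun v (h : v ∈ V P) => (hv v h).2
  rcases Nat.eq_zero_or_pos m with rfl | hm
  · have hGall := (eventually_all_finite hfin).2 hG
    filter_upwards [hGall, eventually_ge_atTop 1] with n h1 h2 z hz
    apply ok_of_image
    have hval : (Tn P 0 n).eval z ∈ V P := by
      rw [eval_Tn, pow_zero, one_mul]
      rw [Tn, pow_zero, one_mul, derivative_expand, eval_mul, mul_eq_zero, expand_eval] at hz
      rcases hz with h3 | h3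
      · exact mem_insert_of_mem _ ⟨z ^ n, h3, rfl⟩
      · simp only [eval_mul, eval_natCast, eval_pow, eval_X] at h3
        have h4 : z = 0 := by
          rcases mul_eq_zero.1 h3 with h5 | h5
          · have : n = 0 := by exact_mod_cast h5
            omega
          · exact eq_zero_of_pow_eq_zero h5
        rw [h4, zero_pow (by omega)]
        exact mem_insert _ _
    apply h1 _ hval
    rw [sub_self, abs_zero]
    exact (hδv _ hval).le
  -- a common `δ`
  have hδ : ∀ᶠ δ : ℝ in 𝓝[>] 0, (∀ v ∈ V P, δ < δv v ∧ δ < ‖v‖) ∧ 0 < δ := by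
    refine Filter.Eventually.and ?_ self_mem_nhdsWithin
    rw [eventually_all_finite hfin]
    intro v hvV
    have h1 : ∀ᶠ δ : ℝ in 𝓝 0, δ < δv v := gt_mem_nhds (hδv v hvV)
    have h2 : ∀ᶠ δ : ℝ in 𝓝 0, δ < ‖v‖ := gt_mem_nhds (norm_pos_iff.2 (hv v hvV).1)
    exact (h1.and h2).filter_mono nhdsWithin_le_nhds
  obtain ⟨δ, hδ1, hδ0⟩ := hδ.exists
  have hGall := (eventually_all_finite hfin).2 hG
  obtain ⟨R, hR1, hR⟩ := near_mark hP m
  obtain ⟨B, hB⟩ := (isCompact_closedBall (0 : ℂ) R).exists_bound_of_continuousOn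
    (f := fun y : ℂ => P.eval y) (by fun_prop)
  obtain ⟨B', hB'⟩ := (isCompact_closedBall (0 : ℂ) R).exists_bound_of_continuousOn
    (f := fun y : ℂ => (derivative P).eval y) (by fun_prop)
  have hB0 : 0 ≤ B := (norm_nonneg _).trans (hB 0 (by simp; linarith))
  have hB'0 : 0 ≤ B' := (norm_nonneg _).trans (hB' 0 (by simp; linarith))
  set δ₂ : ℝ := δ / (2 * (B + 1)) with hδ₂
  have hδ₂0 : 0 < δ₂ := by positivity
  have hm0 : (0 : ℝ) < m := by exact_mod_cast hm
  set c₀ : ℝ := m * (δ / 2) / (B' + 1) with hc₀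
  have hc₀0 : 0 < c₀ := by positivity
  filter_upwards [hGall, hR (δ / 2) (half_pos hδ0), pow_upper m (R := R) hδ₂0,
    pow_lower m (c := c₀) (δ := δ₂) hc₀0, eventually_ge_atTop 1] with n h1 h2 h3 h4 h5 z hz
  by_cases hz0 : z = 0
  · -- the critical point `0`
    subst hz0
    right
    have hT0 : (Tn P m n).eval 0 = 0 := by rw [eval_Tn, zero_pow (by omega), zero_mul]
    exact att_of_fixed_crit hT0 hz
  · have hy := deriv_Tn P hm h5 z
    rw [hz, mul_zero] at hy
    have hy' := (mul_eq_zero.1 hy.symm).resolve_left (pow_ne_zero _ hz0)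
    set y := z ^ n with hyn
    obtain ⟨hyR, v, hvV, hvy⟩ := h2 y hy'
    have hymem : y ∈ Metric.closedBall (0 : ℂ) R := by simpa using hyR
    have hPy := hB y hymem
    have hDy := hB' y hymem
    obtain ⟨hd1, hd2⟩ := hδ1 v hvV
    have hvy' := abs_lt.1 hvy
    have hxn : ‖z‖ ^ n = ‖y‖ := by rw [hyn, norm_pow]
    have hup : ‖z‖ ^ m ≤ 1 + δ₂ := h3 ‖z‖ (norm_nonneg _) (by rw [hxn]; exact hyR)
    have hlow : 1 - δ₂ ≤ ‖z‖ ^ m := by
      apply h4 hδ₂0 ‖z‖ (norm_nonneg _)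
      rw [hxn, hc₀, div_le_iff₀ (by positivity)]
      have e1 : (n : ℂ) * (y * (derivative P).eval y) = -((m : ℂ) * P.eval y) := by
        linear_combination hy'
      have e2 := congrArg norm e1
      rw [norm_neg, norm_mul, norm_mul (m : ℂ), Complex.norm_natCast, Complex.norm_natCast,
        norm_mul] at e2
      have e3 : (m : ℝ) * (δ / 2) ≤ m * ‖P.eval y‖ := by
        gcongr
        linarith [hvy'.1]
      have e4 : (n : ℝ) * (‖y‖ * ‖(derivative P).eval y‖) ≤ n * ‖y‖ * (B' + 1) := by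
        rw [mul_assoc]
        gcongr
        linarith
      linarith
    apply ok_of_image
    apply h1 v hvV
    rw [norm_Tn]
    have e5 : |‖z‖ ^ m - 1| ≤ δ₂ := abs_le.2 ⟨by linarith, by linarith⟩
    have e6 : ‖z‖ ^ m * ‖P.eval y‖ - ‖v‖ = (‖z‖ ^ m - 1) * ‖P.eval y‖ + (‖P.eval y‖ - ‖v‖) := by
      ring
    have e7 : |(‖z‖ ^ m - 1) * ‖P.eval y‖| ≤ δ / 2 := by
      rw [abs_mul, abs_norm]
      calc |‖z‖ ^ m - 1| * ‖P.eval y‖ ≤ δ₂ * (B + 1) := by
            apply mul_le_mul e5 (by linarith) (norm_nonneg _) hδ₂0.le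
        _ = δ / 2 := by rw [hδ₂]; field_simp
    show |‖z‖ ^ m * ‖P.eval (z ^ n)‖ - ‖v‖| ≤ δv v
    rw [← hyn, e6]
    calc _ ≤ |(‖z‖ ^ m - 1) * ‖P.eval y‖| + |‖P.eval y‖ - ‖v‖| := abs_add_le _ _
      _ ≤ δ / 2 + δ / 2 := by linarith
      _ ≤ δv v := by linarith

end Pool.Agent.H597R3.Sym
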