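import Pool.Agent.H597R3.SymB

/-!
# Polynomials `z ^ m * P (z ^ n)`: generic perturbations, uniformly in `m`
-/

set_option autoImplicit false

open Set Filter Topology Polynomial Bornology

namespace Pool.Agent.H597R3.Sym

/-- All critical points of `z ^ m * P (z ^ n)` escape or are attracted. -/
def HypT (P : ℂ[X]) (m n : ℕ) : Prop :=
  ∀ c : ℂ, (derivative (Tn P m n)).eval c = 0 → OK (Tn P m n) c

theorem finite_exc (a v : ℂ) (e f : ℕ) (h : 1 ≤ e + f) :
    {t : ℝ | ‖a + t‖ ^ e * ‖v + t‖ ^ f = 1}.Finite := by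
  set q : ℂ → ℝ[X] := fun u => X ^ 2 + C (2 * u.re) * X + C (‖u‖ ^ 2) with hq
  have hev : ∀ u : ℂ, ∀ t : ℝ, (q u).eval t = ‖u + t‖ ^ 2 := by
    intro u t
    simp only [hq, eval_add, eval_mul, eval_pow, eval_X, eval_C]
    rw [← Complex.normSq_eq_norm_sq, ← Complex.normSq_eq_norm_sq, Complex.normSq_apply,
      Complex.normSq_apply]
    simp only [Complex.add_re, Complex.ofReal_re, Complex.add_im, Complex.ofReal_im, add_zero]
    ring
  have hdeg : ∀ u, (q u).natDegree = 2 := by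
    intro u; simp only [hq]; compute_degree!
  have hmon : ∀ u, (q u).Monic := by
    intro u; simp only [hq]; monicity!
  have hne : q a ^ e * q v ^ f - 1 ≠ 0 := by
    intro h0
    have h1 : q a ^ e * q v ^ f = 1 := sub_eq_zero.1 h0
    have h2 := congrArg natDegree h1
    rw [natDegree_one, ((hmon a).pow e).natDegree_mul ((hmon v).pow f),
      (hmon a).natDegree_pow, (hmon v).natDegree_pow, hdeg, hdeg] at h2
    omega
  refine (finite_setOfPred_isRoot hne).subset ?_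
  intro t ht
  rw [Set.mem_ofPred_eq] at ht
  show (q a ^ e * q v ^ f - 1).IsRoot t
  rw [IsRoot.def, eval_sub, eval_mul, eval_pow, eval_pow, hev, hev, eval_one]
  have : (‖a + (t:ℂ)‖ ^ 2) ^ e * (‖v + (t:ℂ)‖ ^ 2) ^ f =
      (‖a + (t:ℂ)‖ ^ e * ‖v + (t:ℂ)‖ ^ f) ^ 2 := by ring
  rw [this, ht]
  norm_num

theorem V_add {P : ℂ[X]} {t v : ℂ} (hv : v ∈ V (P + C t)) : ∃ u ∈ V P, v = u + t := by
  rcases hv with rfl | ⟨y, hy, rfl⟩
  · exact ⟨P.eval 0, mem_insert _ _, by simp⟩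
  · rw [Set.mem_ofPred_eq, derivative_add, derivative_C, add_zero] at hy
    exact ⟨P.eval y, mem_insert_of_mem _ ⟨y, hy, rfl⟩, by simp⟩

theorem exc_countable {P : ℂ[X]} (hP : 1 ≤ P.natDegree) (m : ℕ) :
    {t : ℝ | ¬ ∀ᶠ n : ℕ in atTop, HypT (P + C (t : ℂ)) m n}.Countable := by
  choose e f hef hform using iter_form m
  have hU : (⋃ v ∈ V P, ({t : ℝ | v + t = 0} ∪
      {t : ℝ | ‖P.eval 0 + t‖ ^ 1 * ‖v + t‖ ^ (m - 1) = 1} ∪
      ⋃ j : ℕ, {t : ℝ | ‖P.eval 0 + t‖ ^ e j * ‖v + t‖ ^ f j = 1})).Countable := by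
    apply (V_finite hP).countable.biUnion
    intro v _
    refine ((Set.Subsingleton.countable ?_).union ((finite_exc _ _ _ _ (by omega)).countable)).union
      (countable_iUnion fun j => (finite_exc _ _ _ _ (hef j)).countable)
    intro t ht s hs
    rw [Set.mem_ofPred_eq] at ht hs
    have : (t : ℂ) = s := by linear_combination ht - hs
    exact_mod_cast this
  refine hU.mono ?_
  intro t ht
  by_contra hcon
  apply ht
  have hnd : 1 ≤ (P + C (t : ℂ)).natDegree := by rwa [natDegree_add_C]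
  apply hyp_of_gd hnd
  intro v hv
  obtain ⟨u, hu, rfl⟩ := V_add hv
  simp only [mem_iUnion, not_exists, mem_union, not_or] at hcon
  obtain ⟨⟨h1, h2⟩, h3⟩ := hcon u hu
  have hev : (P + C (t : ℂ)).eval 0 = P.eval 0 + t := by simp
  refine ⟨h1, gd_generic hnd (norm_pos_iff.2 h1) ?_ ?_⟩
  · rw [hev]; exact h2
  · intro j
    rw [hev, hform]
    exact h3 j

theorem perturb_fixed {P : ℂ[X]} (hP : 1 ≤ P.natDegree) (m : ℕ) {ε : ℝ} (hε : 0 < ε) :
    ∃ Q : ℂ[X], Q.natDegree = P.natDegree ∧ (∀ i, ‖Q.coeff i - P.coeff i‖ < ε) ∧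
      ∀ᶠ n : ℕ in atTop, HypT Q m n := by
  have hd := (exc_countable hP m).dense_compl ℝ
  obtain ⟨t, ht1, ht2⟩ := hd.exists_mem_open isOpen_Ioo (nonempty_Ioo.2 hε)
  rw [mem_compl_iff, Set.mem_ofPred_eq, not_not] at ht1
  refine ⟨P + C (t : ℂ), natDegree_add_C, fun i => ?_, ht1⟩
  rw [coeff_add, add_sub_cancel_left, coeff_C]
  split_ifs
  · rw [Complex.norm_real, Real.norm_eq_abs, abs_of_pos ht2.1]
    exact ht2.2
  · simpa using hε

/-- Gauss-Lucas. -/
theorem gl_bound {P : ℂ[X]} (hP : 1 ≤ P.natDegree) : ∃ R : ℝ, 1 ≤ R ∧ ∀ m n : ℕ, 1 ≤ n → ∀ z : ℂ,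
    (derivative (Tn P m n)).eval z = 0 → ‖z ^ n‖ ≤ R := by
  have hP0 : P ≠ 0 := by rintro rfl; simp at hP
  obtain ⟨R₀, hR₀⟩ := ((finite_setOfPred_isRoot hP0).isBounded).exists_norm_le
  refine ⟨max 1 R₀, le_max_left _ _, ?_⟩
  set R := max 1 R₀ with hR
  intro m n hn z hz
  have hR1 : 1 ≤ R := le_max_left _ _
  set ϱ : ℝ := R ^ ((n : ℝ)⁻¹) with hϱ
  have hϱ0 : 0 ≤ ϱ := by positivity
  have hϱn : ϱ ^ n = R := Real.rpow_inv_natCast_pow (by linarith) (by omega)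
  have hE : expand ℂ n P ≠ 0 := by
    rw [Ne, expand_eq_zero (by omega)]; exact hP0
  have hT0 : Tn P m n ≠ 0 := mul_ne_zero (pow_ne_zero _ X_ne_zero) hE
  have hdeg : (Tn P m n).natDegree = m + P.natDegree * n := by
    rw [Tn, natDegree_mul (pow_ne_zero _ X_ne_zero) hE, natDegree_X_pow, natDegree_expand]
  have hd1 : 1 ≤ (Tn P m n).natDegree := by
    rw [hdeg]
    have := Nat.mul_le_mul hP hn
    omega
  have hsub : (Tn P m n).rootSet ℂ ⊆ Metric.closedBall 0 ϱ := by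
    intro w hw
    rw [mem_rootSet, coe_aeval_eq_eval, eval_Tn] at hw
    rw [mem_closedBall_zero_iff]
    rcases mul_eq_zero.1 hw.2 with h | h
    · rw [eq_zero_of_pow_eq_zero h, norm_zero]; exact hϱ0
    · have h1 : ‖w ^ n‖ ≤ R := (hR₀ (w ^ n) h).trans (le_max_right _ _)
      by_contra hcon
      push Not at hcon
      have h2 : ϱ ^ n < ‖w‖ ^ n := pow_lt_pow_left₀ hcon hϱ0 (by omega)
      rw [norm_pow] at h1
      linarith
  have hder : derivative (Tn P m n) ≠ 0 := derivative_ne hd1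
  have hmem : z ∈ (derivative (Tn P m n)).rootSet ℂ := by
    rw [mem_rootSet, coe_aeval_eq_eval]
    exact ⟨hder, hz⟩
  have h1 := rootSet_derivative_subset_convexHull_rootSet
    (by rw [degree_eq_natDegree hT0]; exact_mod_cast hd1) hmem
  have h2 := convexHull_min hsub (convex_closedBall 0 ϱ) h1
  rw [mem_closedBall_zero_iff] at h2
  rw [norm_pow, ← hϱn]
  exact pow_le_pow_left₀ (norm_nonneg _) h2 n

end Pool.Agent.H597R3.Sym
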