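import Pool.Agent.H597R3.SymC

/-!
# Polynomials `z ^ m * P (z ^ n)`: `m → ∞`
-/

set_option autoImplicit false

open Set Filter Topology Polynomial Bornology

namespace Pool.Agent.H597R3.Sym

theorem crit_eq {P : ℂ[X]} {m n : ℕ} (hm : 1 ≤ m) (hn : 1 ≤ n) {z : ℂ} (hz0 : z ≠ 0)
    (hz : (derivative (Tn P m n)).eval z = 0) :
    (((m : ℝ) / n : ℝ) : ℂ) * P.eval (z ^ n) + z ^ n * (derivative P).eval (z ^ n) = 0 := by
  have hy := deriv_Tn P hm hn z
  rw [hz, mul_zero] at hy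
  have hy' := (mul_eq_zero.1 hy.symm).resolve_left (pow_ne_zero _ hz0)
  have hn0 : (n : ℂ) ≠ 0 := by exact_mod_cast (by omega : n ≠ 0)
  push_cast
  field_simp
  linear_combination hy'

theorem norm_crit {P : ℂ[X]} {m n : ℕ} (hn : 1 ≤ n) (z : ℂ) :
    ‖(Tn P m n).eval z‖ = ‖z ^ n‖ ^ ((m : ℝ) / n) * ‖P.eval (z ^ n)‖ := by
  rw [norm_Tn]
  congr 1
  have hn0 : (n : ℝ) ≠ 0 := by exact_mod_cast (by omega : n ≠ 0)
  rw [norm_pow, ← Real.rpow_natCast ‖z‖ n, ← Real.rpow_mul (norm_nonneg _),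
    mul_div_cancel₀ _ hn0, Real.rpow_natCast]

theorem hyp_limit {P : ℂ[X]} (hP : 1 ≤ P.natDegree) (𝒰 : Ultrafilter ℕ) (hU : (𝒰 : Filter ℕ) ≤ atTop)
    {m : ℕ → ℕ} (hm : Tendsto m 𝒰 atTop) {μ : ℝ} (hμ : 0 ≤ μ)
    (hlim : Tendsto (fun n : ℕ => (m n : ℝ) / n) 𝒰 (𝓝 μ))
    (hW : ∀ y : ℂ, (μ : ℂ) * P.eval y + y * (derivative P).eval y = 0 →
      ‖y‖ ^ μ * ‖P.eval y‖ ≠ 1) :
    ∀ᶠ n : ℕ in 𝒰, HypT P (m n) n := by
  by_contra hcon
  rw [← Ultrafilter.eventually_not] at hcon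
  have h1 : ∀ᶠ n : ℕ in 𝒰, ∃ z : ℂ, (derivative (Tn P (m n) n)).eval z = 0 ∧
      ¬ OK (Tn P (m n) n) z := by
    filter_upwards [hcon] with n hn
    unfold HypT at hn
    push Not at hn
    exact hn
  choose! z hz using fun n (h : ∃ z : ℂ, (derivative (Tn P (m n) n)).eval z = 0 ∧
      ¬ OK (Tn P (m n) n) z) => h
  have h2 : ∀ᶠ n : ℕ in 𝒰, (derivative (Tn P (m n) n)).eval (z n) = 0 ∧
      ¬ OK (Tn P (m n) n) (z n) := h1.mono fun n hn => hz n hn
  have hm1 : ∀ᶠ n : ℕ in 𝒰, 1 ≤ m n := hm.eventually_ge_atTop 1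
  have hn1 : ∀ᶠ n : ℕ in 𝒰, 1 ≤ n := hU (eventually_ge_atTop 1)
  -- `z ≠ 0`
  have hz0 : ∀ᶠ n : ℕ in 𝒰, z n ≠ 0 := by
    filter_upwards [h2, hm1] with n hn hmn h0
    apply hn.2
    right
    apply att_of_fixed_crit _ hn.1
    rw [h0, eval_Tn, zero_pow (by omega), zero_mul]
  -- the values tend to modulus `1`
  have hval : Tendsto (fun n : ℕ => ‖(Tn P (m n) n).eval (z n)‖) 𝒰 (𝓝 1) := by
    rw [Metric.tendsto_nhds]
    intro η hη
    set η' := min (η / 2) (1 / 2) with hη'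
    have hη'0 : 0 < η' := by rw [hη']; positivity
    have hη'1 : η' ≤ 1 / 2 := min_le_right _ _
    have hη'2 : η' ≤ η / 2 := min_le_left _ _
    have e1 := hU (esc_uniform hP (s := 1 + η') (by linarith))
    have e2 := hm.eventually (att_large P (σ := 1 - η') (by linarith) (by linarith))
    filter_upwards [h2, e1, e2] with n hn g1 g2
    rw [Real.dist_eq, abs_lt]
    constructor
    · by_contra hc
      push Not at hc
      exact hn.2 (ok_of_image (Or.inr (g2 n _ (by linarith))))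
    · by_contra hc
      push Not at hc
      exact hn.2 (ok_of_image (Or.inl (g1 (m n) _ (by linarith))))
  -- the limit of `z ^ n`
  obtain ⟨R, hR1, hR⟩ := gl_bound hP
  have hyR : ∀ᶠ n : ℕ in 𝒰, z n ^ n ∈ Metric.closedBall (0 : ℂ) R := by
    filter_upwards [h2, hn1] with n hn hn1
    rw [mem_closedBall_zero_iff]
    exact hR _ _ hn1 _ hn.1
  obtain ⟨y, -, hy⟩ := (isCompact_closedBall (0 : ℂ) R).ultrafilter_le_nhds
    (𝒰.map fun n => z n ^ n) (le_principal_iff.2 hyR)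
  have hyt : Tendsto (fun n : ℕ => z n ^ n) 𝒰 (𝓝 y) := hy
  have hPt : Tendsto (fun n : ℕ => P.eval (z n ^ n)) 𝒰 (𝓝 (P.eval y)) :=
    (P.continuous.tendsto y).comp hyt
  have hDt : Tendsto (fun n : ℕ => (derivative P).eval (z n ^ n)) 𝒰
      (𝓝 ((derivative P).eval y)) := ((derivative P).continuous.tendsto y).comp hyt
  have hmt : Tendsto (fun n : ℕ => (((m n : ℝ) / n : ℝ) : ℂ)) 𝒰 (𝓝 (μ : ℂ)) :=
    (Complex.continuous_ofReal.tendsto μ).comp hlim
  have hceq : ∀ᶠ n : ℕ in 𝒰, (((m n : ℝ) / n : ℝ) : ℂ) * P.eval (z n ^ n) +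
      z n ^ n * (derivative P).eval (z n ^ n) = 0 := by
    filter_upwards [h2, hm1, hn1, hz0] with n hn g1 g2 g3
    exact crit_eq g1 g2 g3 hn.1
  have hyW : (μ : ℂ) * P.eval y + y * (derivative P).eval y = 0 := by
    have h3 : Tendsto (fun n : ℕ => (((m n : ℝ) / n : ℝ) : ℂ) * P.eval (z n ^ n) +
      z n ^ n * (derivative P).eval (z n ^ n)) 𝒰
        (𝓝 ((μ : ℂ) * P.eval y + y * (derivative P).eval y)) :=
      (hmt.mul hPt).add (hyt.mul hDt)
    have h4 : Tendsto (fun n : ℕ => (((m n : ℝ) / n : ℝ) : ℂ) * P.eval (z n ^ n) +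
      z n ^ n * (derivative P).eval (z n ^ n)) 𝒰 (𝓝 0) :=
      tendsto_const_nhds.congr' (hceq.mono fun n hn => hn.symm)
    exact tendsto_nhds_unique h3 h4
  -- the limit of the modulus of the values
  have hval2 : Tendsto (fun n : ℕ => ‖z n ^ n‖ ^ ((m n : ℝ) / n) * ‖P.eval (z n ^ n)‖) 𝒰
      (𝓝 1) := by
    refine hval.congr' ?_
    filter_upwards [hn1] with n hn
    exact norm_crit hn _
  have hcase : y ≠ 0 ∨ 0 < μ → False := by
    intro hc
    have h3 : Tendsto (fun n : ℕ => ‖z n ^ n‖ ^ ((m n : ℝ) / n)) 𝒰 (𝓝 (‖y‖ ^ μ)) := by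
      apply hyt.norm.rpow hlim
      rcases hc with h | h
      · exact Or.inl (norm_ne_zero_iff.2 h)
      · exact Or.inr h
    exact hW y hyW (tendsto_nhds_unique (h3.mul hPt.norm) hval2)
  by_cases hc : y ≠ 0 ∨ 0 < μ
  · exact hcase hc
  push Not at hc
  obtain ⟨hy0, hμ0⟩ := hc
  have hμ' : μ = 0 := le_antisymm hμ0 hμ
  subst hy0
  subst hμ'
  have hW0 := hW 0 hyW
  rw [Real.rpow_zero, one_mul] at hW0
  -- upper bound
  have hup : ∀ᶠ n : ℕ in 𝒰, ‖z n ^ n‖ ^ ((m n : ℝ) / n) ≤ R ^ ((m n : ℝ) / n) := by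
    filter_upwards [hyR] with n hn
    rw [mem_closedBall_zero_iff] at hn
    exact Real.rpow_le_rpow (norm_nonneg _) hn (by positivity)
  have hRt : Tendsto (fun n : ℕ => R ^ ((m n : ℝ) / n)) 𝒰 (𝓝 1) := by
    have := (tendsto_const_nhds (x := R)).rpow hlim (Or.inl (by linarith))
    rwa [Real.rpow_zero] at this
  by_cases hP0 : P.eval 0 = 0
  · -- the values tend to `0`
    have h5 : Tendsto (fun n : ℕ => R ^ ((m n : ℝ) / n) * ‖P.eval (z n ^ n)‖) 𝒰 (𝓝 0) := by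
      have := hRt.mul hPt.norm
      rwa [hP0, norm_zero, mul_zero] at this
    have h6 : Tendsto (fun n : ℕ => ‖z n ^ n‖ ^ ((m n : ℝ) / n) * ‖P.eval (z n ^ n)‖) 𝒰
        (𝓝 0) := by
      refine tendsto_of_tendsto_of_tendsto_of_le_of_le' tendsto_const_nhds h5
        (Eventually.of_forall fun n => by positivity) ?_
      filter_upwards [hup] with n hn
      gcongr
    exact zero_ne_one (tendsto_nhds_unique h6 hval2)
  · have ha : 0 < ‖P.eval 0‖ := norm_pos_iff.2 hP0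
    set B := ‖(derivative P).eval 0‖ + 1 with hB
    have hB0 : 0 < B := by positivity
    set c := ‖P.eval 0‖ / 2 / B with hc
    have hc0 : 0 < c := by positivity
    have e1 : ∀ᶠ n : ℕ in 𝒰, ‖(derivative P).eval (z n ^ n)‖ < B :=
      hDt.norm.eventually_lt_const (by rw [hB]; linarith)
    have e2 : ∀ᶠ n : ℕ in 𝒰, ‖P.eval 0‖ / 2 < ‖P.eval (z n ^ n)‖ :=
      hPt.norm.eventually_const_lt (by linarith)
    have hlow : ∀ᶠ n : ℕ in 𝒰, (c * ((m n : ℝ) / n)) ^ ((m n : ℝ) / n) ≤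
        ‖z n ^ n‖ ^ ((m n : ℝ) / n) := by
      filter_upwards [e1, e2, hceq] with n g1 g2 g3
      apply Real.rpow_le_rpow (by positivity) _ (by positivity)
      have g4 : z n ^ n * (derivative P).eval (z n ^ n) =
          -((((m n : ℝ) / n : ℝ) : ℂ) * P.eval (z n ^ n)) := by linear_combination g3
      have g5 := congrArg norm g4
      rw [norm_neg, norm_mul, norm_mul, Complex.norm_real, Real.norm_eq_abs,
        abs_of_nonneg (by positivity : (0:ℝ) ≤ (m n : ℝ) / n)] at g5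
      rw [hc, div_mul_eq_mul_div, div_le_iff₀ hB0]
      calc ‖P.eval 0‖ / 2 * ((m n : ℝ) / n) ≤ ‖P.eval (z n ^ n)‖ * ((m n : ℝ) / n) := by gcongr
        _ = ‖z n ^ n‖ * ‖(derivative P).eval (z n ^ n)‖ := by rw [g5]; ring
        _ ≤ ‖z n ^ n‖ * B := by gcongr
    have hlt : Tendsto (fun n : ℕ => (c * ((m n : ℝ) / n)) ^ ((m n : ℝ) / n)) 𝒰 (𝓝 1) := by
      have h7 : Tendsto (fun x : ℝ => Real.exp (x * Real.log c + x * Real.log x)) (𝓝 0)
          (𝓝 1) := by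
        have hcont : Continuous fun x : ℝ => Real.exp (x * Real.log c + x * Real.log x) :=
          Real.continuous_exp.comp ((continuous_id.mul continuous_const).add
            Real.continuous_mul_log)
        have := hcont.tendsto 0
        simpa using this
      refine (h7.comp hlim).congr' ?_
      filter_upwards [hm1, hn1] with n g1 g2
      have g3 : (0 : ℝ) < (m n : ℝ) / n := by
        have a1 : (0:ℝ) < m n := by exact_mod_cast g1
        have a2 : (0:ℝ) < n := by exact_mod_cast g2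
        positivity
      rw [Function.comp_apply, Real.rpow_def_of_pos (by positivity),
        Real.log_mul hc0.ne' g3.ne']
      congr 1
      ring
    have hone : Tendsto (fun n : ℕ => ‖z n ^ n‖ ^ ((m n : ℝ) / n)) 𝒰 (𝓝 1) :=
      tendsto_of_tendsto_of_tendsto_of_le_of_le' hlt hRt hlow hup
    have h8 := hone.mul hPt.norm
    rw [one_mul] at h8
    exact hW0 (tendsto_nhds_unique h8 hval2)

end Pool.Agent.H597R3.Sym
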