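import Pool.Agent.H597R3.SymD

/-!
# Polynomials `z ^ m * P (z ^ n)`: uniform approximation
-/

set_option autoImplicit false

open Set Filter Topology Polynomial Bornology

namespace Pool.Agent.H597R3.Sym

theorem perturb_scale {P : ℂ[X]} (hP : 1 ≤ P.natDegree) {μ : ℝ} (hμ : 0 ≤ μ) {ε : ℝ}
    (hε : 0 < ε) : ∃ Q : ℂ[X], Q.natDegree = P.natDegree ∧ (∀ i, ‖Q.coeff i - P.coeff i‖ < ε) ∧
      ∀ y : ℂ, (μ : ℂ) * Q.eval y + y * (derivative Q).eval y = 0 → ‖y‖ ^ μ * ‖Q.eval y‖ ≠ 1 := by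
  have hP0 : P ≠ 0 := by rintro rfl; simp at hP
  set F : ℂ[X] := C (μ : ℂ) * P + X * derivative P with hF
  have hF0 : F ≠ 0 := by
    intro h0
    obtain ⟨k, hk⟩ : ∃ k, P.natDegree = k + 1 := ⟨P.natDegree - 1, by omega⟩
    have h1 := congrArg (fun A : ℂ[X] => A.coeff (k + 1)) h0
    simp only [hF, coeff_add, coeff_C_mul, coeff_X_mul, coeff_derivative, coeff_zero] at h1
    have h2 : P.coeff (k + 1) ≠ 0 := by rw [← hk]; exact leadingCoeff_ne_zero.2 hP0
    have h3 : P.coeff (k + 1) * ((μ + (k + 1) : ℝ) : ℂ) = 0 := by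
      push_cast; linear_combination h1
    rcases mul_eq_zero.1 h3 with h4 | h4
    · exact h2 h4
    · have h5 : μ + (k + 1) = 0 := by exact_mod_cast h4
      have h6 : (0 : ℝ) ≤ k := Nat.cast_nonneg k
      linarith
  have hWfin : {y : ℂ | F.IsRoot y}.Finite := finite_setOfPred_isRoot hF0
  have hbad : ((fun y : ℂ => (‖y‖ ^ μ * ‖P.eval y‖)⁻¹) '' {y : ℂ | F.IsRoot y}).Finite :=
    hWfin.image _
  set B : ℝ := ∑ i ∈ Finset.range (P.natDegree + 1), ‖P.coeff i‖ + 1 with hB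
  have hB0 : 0 < B := by positivity
  have hBi : ∀ i, ‖P.coeff i‖ ≤ B := by
    intro i
    rcases lt_or_ge i (P.natDegree + 1) with h | h
    · have := Finset.single_le_sum (f := fun i => ‖P.coeff i‖) (fun i _ => norm_nonneg _)
        (Finset.mem_range.2 h)
      linarith
    · rw [coeff_eq_zero_of_natDegree_lt (by omega), norm_zero]
      exact hB0.le
  set η : ℝ := min (1 / 2) (ε / B) with hη
  have hη0 : 0 < η := by rw [hη]; positivity
  obtain ⟨s, ⟨hs1, hs2⟩, hs3⟩ := (Set.Ioo_infinite (by linarith : 1 - η < 1)).exists_notMem_finite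
    hbad
  have hηh : η ≤ 1 / 2 := min_le_left _ _
  have hηε : η ≤ ε / B := min_le_right _ _
  have hs0 : 0 < s := by linarith
  have hsC : (s : ℂ) ≠ 0 := by exact_mod_cast hs0.ne'
  refine ⟨C (s : ℂ) * P, natDegree_C_mul hsC, fun i => ?_, ?_⟩
  · have e1 : (C (s : ℂ) * P).coeff i - P.coeff i = ((s - 1 : ℝ) : ℂ) * P.coeff i := by
      rw [coeff_C_mul]; push_cast; ring
    rw [e1, norm_mul, Complex.norm_real, Real.norm_eq_abs, abs_of_neg (by linarith)]
    calc -(s - 1) * ‖P.coeff i‖ ≤ -(s - 1) * B := by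
          apply mul_le_mul_of_nonneg_left (hBi i) (by linarith)
      _ < η * B := by
          apply mul_lt_mul_of_pos_right (by linarith) hB0
      _ ≤ ε := by
          rw [← le_div_iff₀ hB0]; exact hηε
  · intro y hy heq
    rw [derivative_C_mul, eval_mul, eval_mul, eval_C] at hy
    have hy1 : F.IsRoot y := by
      rw [IsRoot.def, hF, eval_add, eval_mul, eval_mul, eval_C, eval_X]
      have : (s : ℂ) * ((μ : ℂ) * P.eval y + y * (derivative P).eval y) = 0 := by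
        linear_combination hy
      exact (mul_eq_zero.1 this).resolve_left hsC
    apply hs3
    refine ⟨y, hy1, ?_⟩
    rw [eval_mul, eval_C, norm_mul, Complex.norm_real, Real.norm_eq_abs, abs_of_pos hs0] at heq
    show (‖y‖ ^ μ * ‖P.eval y‖)⁻¹ = s
    apply inv_eq_of_mul_eq_one_right
    linarith

theorem perturb_uniform {P : ℂ[X]} (hP : 1 ≤ P.natDegree) {ε : ℝ} (hε : 0 < ε) :
    ∀ᶠ n : ℕ in atTop, ∀ m : ℕ, m < n → ∃ Q : ℂ[X], Q.natDegree = P.natDegree ∧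
      (∀ i, ‖Q.coeff i - P.coeff i‖ < ε) ∧ HypT Q m n := by
  by_contra hcon
  rw [not_eventually] at hcon
  set S : Set ℕ := {n | ¬ ∀ m : ℕ, m < n → ∃ Q : ℂ[X], Q.natDegree = P.natDegree ∧
      (∀ i, ‖Q.coeff i - P.coeff i‖ < ε) ∧ HypT Q m n} with hS
  have : NeBot (atTop ⊓ 𝓟 S) := frequently_mem_iff_neBot.1 hcon
  set 𝒰 : Ultrafilter ℕ := Ultrafilter.of (atTop ⊓ 𝓟 S) with h𝒰
  have hU : (𝒰 : Filter ℕ) ≤ atTop := (Ultrafilter.of_le _).trans inf_le_left
  have hUS : ∀ᶠ n in (𝒰 : Filter ℕ), n ∈ S :=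
    le_principal_iff.1 ((Ultrafilter.of_le _).trans inf_le_right)
  have h1 : ∀ᶠ n : ℕ in 𝒰, ∃ m : ℕ, m < n ∧ ¬ ∃ Q : ℂ[X], Q.natDegree = P.natDegree ∧
      (∀ i, ‖Q.coeff i - P.coeff i‖ < ε) ∧ HypT Q m n := by
    filter_upwards [hUS] with n hn
    rw [hS, Set.mem_ofPred_eq] at hn
    push Not at hn
    obtain ⟨m, hm1, hm2⟩ := hn
    refine ⟨m, hm1, ?_⟩
    push Not
    exact hm2
  choose! m hm using fun n (h : ∃ m : ℕ, m < n ∧ ¬ ∃ Q : ℂ[X], Q.natDegree = P.natDegree ∧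
      (∀ i, ‖Q.coeff i - P.coeff i‖ < ε) ∧ HypT Q m n) => h
  have h2 : ∀ᶠ n : ℕ in 𝒰, m n < n ∧ ¬ ∃ Q : ℂ[X], Q.natDegree = P.natDegree ∧
      (∀ i, ‖Q.coeff i - P.coeff i‖ < ε) ∧ HypT Q (m n) n := h1.mono fun n hn => hm n hn
  by_cases hb : ∃ N : ℕ, ∀ᶠ n : ℕ in 𝒰, m n < N
  · obtain ⟨N, hN⟩ := hb
    have h3 : ∀ᶠ n : ℕ in 𝒰, ∃ j ∈ Iio N, m n = j := hN.mono fun n hn => ⟨m n, hn, rfl⟩
    obtain ⟨j, -, hj⟩ := (Ultrafilter.eventually_exists_mem_iff (Set.finite_Iio N)).1 h3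
    obtain ⟨Q, hQ1, hQ2, hQ3⟩ := perturb_fixed hP j hε
    obtain ⟨n, h4, h5, h6⟩ := (h2.and (hj.and (hU hQ3))).exists
    apply h4.2
    exact ⟨Q, hQ1, hQ2, by rw [h5]; exact h6⟩
  · push Not at hb
    have hmt : Tendsto m 𝒰 atTop := by
      rw [tendsto_atTop]
      intro N
      exact hb N
    have hI : ∀ᶠ n : ℕ in 𝒰, (m n : ℝ) / n ∈ Icc (0:ℝ) 1 := by
      filter_upwards [h2] with n hn
      refine ⟨by positivity, ?_⟩
      have h3 : (0:ℝ) < n := by exact_mod_cast (by omega : 0 < n)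
      rw [div_le_one h3]
      exact_mod_cast hn.1.le
    obtain ⟨μ, hμ, hlim⟩ := (isCompact_Icc (a := (0:ℝ)) (b := 1)).ultrafilter_le_nhds
      (𝒰.map fun n => (m n : ℝ) / n) (le_principal_iff.2 hI)
    obtain ⟨Q, hQ1, hQ2, hQ3⟩ := perturb_scale hP hμ.1 hε
    have hQ4 := hyp_limit (P := Q) (by rw [hQ1]; exact hP) 𝒰 hU hmt hμ.1 hlim hQ3
    obtain ⟨n, h4, h5⟩ := (h2.and hQ4).exists
    exact h4.2 ⟨Q, hQ1, hQ2, h5⟩

theorem natDegree_ofFn' {D : ℕ} {a : Fin (D + 1) → ℂ} (ha : a (Fin.last D) ≠ 0) :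
    (ofFn (D + 1) a).natDegree = D := by
  apply natDegree_eq_of_le_of_coeff_ne_zero
  · rw [natDegree_le_iff_coeff_eq_zero]
    intro i hi
    exact ofFn_coeff_eq_zero_of_ge _ hi
  · rw [ofFn_coeff_eq_val_of_lt _ (Nat.lt_succ_self D)]
    exact ha

theorem coarse (D : ℕ) (hD : 1 ≤ D) (M : ℝ) {ε : ℝ} (hε : 0 < ε) :
    ∀ᶠ n : ℕ in atTop, ∀ m : ℕ, m < n → ∀ P : ℂ[X], P.natDegree = D →
      (∀ i, ‖P.coeff i‖ ≤ M) → ∃ Q : ℂ[X], Q.natDegree = D ∧
      (∀ i, ‖Q.coeff i - P.coeff i‖ < ε) ∧ HypT Q m n := by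
  set 𝒦 : Set (Fin (D + 1) → ℂ) := {a | a (Fin.last D) ≠ 0 ∧ ∀ i, ‖a i‖ ≤ M} with h𝒦
  have htb : TotallyBounded 𝒦 := by
    apply (isCompact_closedBall (0 : Fin (D + 1) → ℂ) |M|).totallyBounded.subset
    intro a ha
    rw [mem_closedBall_zero_iff, pi_norm_le_iff_of_nonneg (abs_nonneg M)]
    exact fun i => (ha.2 i).trans (le_abs_self M)
  obtain ⟨t, ht1, ht2, ht3⟩ := Metric.finite_approx_of_totallyBounded htb (ε / 2) (half_pos hε)
  have hall : ∀ᶠ n : ℕ in atTop, ∀ b ∈ t, ∀ m : ℕ, m < n → ∃ Q : ℂ[X],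
      Q.natDegree = (ofFn (D + 1) b).natDegree ∧
      (∀ i, ‖Q.coeff i - (ofFn (D + 1) b).coeff i‖ < ε / 2) ∧ HypT Q m n := by
    rw [eventually_all_finite ht2]
    intro b hb
    apply perturb_uniform _ (half_pos hε)
    rw [natDegree_ofFn' (ht1 hb).1]
    exact hD
  filter_upwards [hall] with n hn m hm P hP hPM
  set a : Fin (D + 1) → ℂ := fun i => P.coeff i with ha
  have haK : a ∈ 𝒦 := by
    refine ⟨?_, fun i => hPM i⟩
    have hP0 : P ≠ 0 := by rintro rfl; simp at hP; omega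
    show P.coeff (Fin.last D) ≠ 0
    rw [Fin.val_last, ← hP]
    exact leadingCoeff_ne_zero.2 hP0
  obtain ⟨b, hb, hab⟩ := mem_iUnion₂.1 (ht3 haK)
  obtain ⟨Q, hQ1, hQ2, hQ3⟩ := hn b hb m hm
  refine ⟨Q, by rw [hQ1, natDegree_ofFn' (ht1 hb).1], fun i => ?_, hQ3⟩
  have h1 : ‖(ofFn (D + 1) b).coeff i - P.coeff i‖ ≤ ε / 2 := by
    rcases lt_or_ge i (D + 1) with h | h
    · rw [ofFn_coeff_eq_val_of_lt _ h]
      have h2 : dist (a ⟨i, h⟩) (b ⟨i, h⟩) ≤ dist a b := dist_le_pi_dist a b ⟨i, h⟩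
      rw [Metric.mem_ball] at hab
      rw [dist_eq_norm, norm_sub_rev] at h2
      exact h2.trans hab.le
    · rw [ofFn_coeff_eq_zero_of_ge _ h, coeff_eq_zero_of_natDegree_lt (by omega), sub_self,
        norm_zero]
      linarith
  calc ‖Q.coeff i - P.coeff i‖ = ‖(Q.coeff i - (ofFn (D + 1) b).coeff i) +
        ((ofFn (D + 1) b).coeff i - P.coeff i)‖ := by rw [sub_add_sub_cancel]
    _ ≤ ‖Q.coeff i - (ofFn (D + 1) b).coeff i‖ + ‖(ofFn (D + 1) b).coeff i - P.coeff i‖ :=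
        norm_add_le _ _
    _ < ε := by have := hQ2 i; linarith

theorem natDegree_Tn {Q : ℂ[X]} (hQ : Q ≠ 0) (m : ℕ) {n : ℕ} (hn : 1 ≤ n) :
    (Tn Q m n).natDegree = m + Q.natDegree * n := by
  have hE : expand ℂ n Q ≠ 0 := by
    rw [Ne, expand_eq_zero (by omega)]; exact hQ
  rw [Tn, natDegree_mul (pow_ne_zero _ X_ne_zero) hE, natDegree_X_pow, natDegree_expand]

theorem coeff_Tn_of_mod {Q : ℂ[X]} {m n i : ℕ} (hmn : m < n) (hi : i % n = m) :
    (Tn Q m n).coeff i = Q.coeff (i / n) := by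
  have h1 : m ≤ i := by rw [← hi]; exact Nat.mod_le _ _
  have h2 : i - m = n * (i / n) := by
    have := Nat.mod_add_div i n
    omega
  rw [Tn, coeff_X_pow_mul', if_pos h1, h2, coeff_expand (by omega), if_pos (Dvd.intro _ rfl),
    Nat.mul_div_cancel_left _ (by omega)]

theorem coeff_Tn_of_ne {Q : ℂ[X]} {m n i : ℕ} (hmn : m < n) (hi : i % n ≠ m) :
    (Tn Q m n).coeff i = 0 := by
  rw [Tn, coeff_X_pow_mul']
  split_ifs with h
  · rw [coeff_expand (by omega), if_neg]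
    rintro ⟨k, hk⟩
    apply hi
    have : i = m + n * k := by omega
    rw [this, Nat.add_mul_mod_self_left, Nat.mod_eq_of_lt hmn]
  · rfl

/-- Polynomials with an (approximate) rotational symmetry of large order. -/
theorem symmetric (K : ℕ) (M : ℝ) {ε : ℝ} (hε : 0 < ε) :
    ∀ᶠ n : ℕ in atTop, ∀ T : ℂ[X], 2 ≤ T.natDegree → T.natDegree < K * n →
      (∀ i, ‖T.coeff i‖ ≤ M) → (∀ i, i % n ≠ T.natDegree % n → ‖T.coeff i‖ < ε) →
      ∃ S : ℂ[X], S.natDegree = T.natDegree ∧ (∀ i, ‖S.coeff i - T.coeff i‖ < ε) ∧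
        ∀ c : ℂ, (derivative S).eval c = 0 → OK S c := by
  have hall : ∀ᶠ n : ℕ in atTop, ∀ D ∈ Finset.Ico 1 K, ∀ m : ℕ, m < n → ∀ P : ℂ[X],
      P.natDegree = D → (∀ i, ‖P.coeff i‖ ≤ M) → ∃ Q : ℂ[X], Q.natDegree = D ∧
      (∀ i, ‖Q.coeff i - P.coeff i‖ < ε) ∧ HypT Q m n := by
    rw [eventually_all_finset]
    intro D hD
    exact coarse D (Finset.mem_Ico.1 hD).1 M hε
  filter_upwards [hall, eventually_ge_atTop 1] with n hn hn1 T hT2 hTK hTM hTs
  have hT0 : T ≠ 0 := by rintro rfl; simp at hT2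
  set N := T.natDegree with hN
  set m := N % n with hm
  set D := N / n with hD
  have hNmD : m + n * D = N := Nat.mod_add_div N n
  have hmn : m < n := Nat.mod_lt _ (by omega)
  have hDK : D < K := by
    rw [hD, Nat.div_lt_iff_lt_mul (by omega)]; exact hTK
  rcases Nat.eq_zero_or_pos D with h0 | h0
  · -- monomials
    have hmN : m = N := by rw [h0] at hNmD; omega
    have hlc : T.coeff N ≠ 0 := leadingCoeff_ne_zero.2 hT0
    refine ⟨C (T.coeff N) * X ^ N, natDegree_C_mul_X_pow N _ hlc, fun i => ?_, ?_⟩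
    · rw [coeff_C_mul_X_pow]
      split_ifs with h
      · rw [h, sub_self, norm_zero]; exact hε
      · rw [zero_sub, norm_neg]
        rcases lt_or_ge N i with h2 | h2
        · rw [coeff_eq_zero_of_natDegree_lt h2, norm_zero]; exact hε
        · apply hTs
          rw [Nat.mod_eq_of_lt (by omega), hmN]
          exact h
    · intro c hc
      rw [derivative_C_mul, derivative_X_pow, eval_mul, eval_mul, eval_C, eval_C, eval_pow,
        eval_X] at hc
      have hc0 : c = 0 := by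
        rcases mul_eq_zero.1 hc with h | h
        · exact absurd h hlc
        · rcases mul_eq_zero.1 h with h | h
          · have : N = 0 := by exact_mod_cast h
            omega
          · exact eq_zero_of_pow_eq_zero h
      right
      apply att_of_fixed_crit
      · rw [hc0, eval_mul, eval_pow, eval_X, zero_pow (by omega), mul_zero]
      · rw [derivative_C_mul, derivative_X_pow, eval_mul, eval_mul, eval_C, eval_C, eval_pow,
          eval_X]
        exact hc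
  · set a : Fin (D + 1) → ℂ := fun k => T.coeff (m + n * k) with ha
    have ha0 : a (Fin.last D) ≠ 0 := by
      show T.coeff (m + n * (Fin.last D : ℕ)) ≠ 0
      rw [Fin.val_last, hNmD]
      exact leadingCoeff_ne_zero.2 hT0
    set P := ofFn (D + 1) a with hP
    have hPd : P.natDegree = D := natDegree_ofFn' ha0
    have hPc : ∀ k, P.coeff k = T.coeff (m + n * k) := by
      intro k
      rcases lt_or_ge k (D + 1) with h | h
      · rw [hP, ofFn_coeff_eq_val_of_lt _ h]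
      · rw [hP, ofFn_coeff_eq_zero_of_ge _ h, coeff_eq_zero_of_natDegree_lt]
        rw [← hN, ← hNmD]
        have : n * D < n * k := Nat.mul_lt_mul_of_pos_left (by omega) (by omega)
        omega
    obtain ⟨Q, hQ1, hQ2, hQ3⟩ := hn D (Finset.mem_Ico.2 ⟨h0, hDK⟩) m hmn P hPd
      (fun k => by rw [hPc]; exact hTM _)
    have hQ0 : Q ≠ 0 := by rintro rfl; simp at hQ1; omega
    refine ⟨Tn Q m n, ?_, fun i => ?_, hQ3⟩
    · rw [natDegree_Tn hQ0 m hn1, hQ1, ← hNmD, mul_comm D n]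
    · by_cases h : i % n = m
      · have h2 : m + n * (i / n) = i := by rw [← h]; exact Nat.mod_add_div i n
        have h3 := hQ2 (i / n)
        rw [hPc, h2] at h3
        rw [coeff_Tn_of_mod hmn h]
        exact h3
      · rw [coeff_Tn_of_ne hmn h, zero_sub, norm_neg]
        exact hTs i h

end Pool.Agent.H597R3.Sym
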